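import Mathlib

/-! A convex cone on which no linear functional is nonnegative, except those which vanish on it, is a
linear space. -/

set_option autoImplicit false

open Finset

namespace Pool.Agent.J4.H31.SM

variable {α : Type} {E : Type} [NormedAddCommGroup E] [NormedSpace ℝ E] [FiniteDimensional ℝ E]

/-- the cone generated by a family -/
def coneOf (D : α → E) : Set E := {x | ∃ s : α →₀ ℝ, (∀ u, 0 ≤ s u) ∧ x = s.sum fun u t => t • D u}

omit [FiniteDimensional ℝ E] in
lemma mem_coneOf (D : α → E) (u : α) : D u ∈ coneOf D := by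
  classical
  refine ⟨Finsupp.single u 1, fun v => ?_, ?_⟩
  · rw [Finsupp.single_apply]
    split_ifs <;> norm_num
  · rw [Finsupp.sum_single_index (by simp), one_smul]

omit [FiniteDimensional ℝ E] in
lemma zero_mem_coneOf (D : α → E) : (0 : E) ∈ coneOf D := ⟨0, fun _ => le_refl _, by simp⟩

omit [FiniteDimensional ℝ E] in
lemma coneOf_add {D : α → E} {x y : E} (hx : x ∈ coneOf D) (hy : y ∈ coneOf D) : x + y ∈ coneOf D := by
  classical
  obtain ⟨s, hs, rfl⟩ := hx
  obtain ⟨t, ht, rfl⟩ := hy
  refine ⟨s + t, fun u => add_nonneg (hs u) (ht u), ?_⟩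
  rw [Finsupp.sum_add_index' (by simp) (fun u a b => add_smul a b _)]

omit [FiniteDimensional ℝ E] in
lemma coneOf_smul {D : α → E} {x : E} (hx : x ∈ coneOf D) {c : ℝ} (hc : 0 ≤ c) : c • x ∈ coneOf D := by
  obtain ⟨s, hs, rfl⟩ := hx
  refine ⟨c • s, fun u => mul_nonneg hc (hs u), ?_⟩
  rw [Finsupp.sum_smul_index (by simp), Finsupp.smul_sum]
  simp only [mul_smul]

omit [FiniteDimensional ℝ E] in
lemma coneOf_convex (D : α → E) : Convex ℝ (coneOf D) := by
  intro x hx y hy a b ha hb _
  exact coneOf_add (coneOf_smul hx ha) (coneOf_smul hy hb)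

theorem cone_lemma (D : α → E) (h : ∀ l : E →ₗ[ℝ] ℝ, (∀ u, 0 ≤ l (D u)) → ∀ u, l (D u) = 0)
    (U : Finset α) : ∃ s : α →₀ ℝ, (∀ u, 0 ≤ s u) ∧ (∀ u ∈ U, 0 < s u) ∧
      (s.sum fun u t => t • D u) = 0 := by
  classical
  set W : Submodule ℝ E := Submodule.span ℝ (Set.range D) with hW
  set D' : α → W := fun u => ⟨D u, Submodule.subset_span ⟨u, rfl⟩⟩ with hD'
  have hspan : Submodule.span ℝ (Set.range D') = ⊤ := by
    apply Submodule.map_injective_of_injective W.injective_subtype
    rw [Submodule.map_span, Submodule.map_top, Submodule.range_subtype]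
    have himg : W.subtype '' Set.range D' = Set.range D := by
      ext x
      constructor
      · rintro ⟨y, ⟨u, rfl⟩, rfl⟩
        exact ⟨u, rfl⟩
      · rintro ⟨u, rfl⟩
        exact ⟨D' u, ⟨u, rfl⟩, rfl⟩
    rw [himg]
  have haff : affineSpan ℝ (coneOf D') = ⊤ := by
    have h0 := zero_mem_coneOf D'
    rw [AffineSubspace.affineSpan_eq_top_iff_vectorSpan_eq_top_of_nonempty ℝ _ _ ⟨0, h0⟩]
    rw [eq_top_iff, ← hspan, Submodule.span_le]
    rintro _ ⟨u, rfl⟩
    have := vsub_mem_vectorSpan ℝ (mem_coneOf D' u) h0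
    simpa using this
  have hint : (interior (coneOf D')).Nonempty :=
    (Convex.interior_nonempty_iff_affineSpan_eq_top (coneOf_convex D')).2 haff
  have h0 : (0 : W) ∈ interior (coneOf D') := by
    by_contra hno
    obtain ⟨f, hf⟩ := geometric_hahn_banach_open_point (coneOf_convex D').interior isOpen_interior hno
    rw [map_zero] at hf
    have hle : ∀ x ∈ coneOf D', f x ≤ 0 := by
      intro x hx
      have h1 : x ∈ closure (interior (coneOf D')) := by
        rw [(coneOf_convex D').closure_interior_eq_closure_of_nonempty_interior hint]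
        exact subset_closure hx
      have h2 : closure (interior (coneOf D')) ⊆ {x | f x ≤ 0} := by
        apply closure_minimal (fun y hy => (hf y hy).le)
        exact isClosed_le f.continuous continuous_const
      exact h2 h1
    obtain ⟨l, hl⟩ := LinearMap.exists_extend (-f.toLinearMap)
    have hl' : ∀ u, l (D u) = -f (D' u) := by
      intro u
      have := congrArg (fun g => g (D' u)) hl
      simpa using this
    have h3 := h l (fun u => by
      rw [hl']
      have := hle _ (mem_coneOf D' u)
      linarith)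
    have h4 : ∀ x ∈ coneOf D', f x = 0 := by
      rintro x ⟨s, -, rfl⟩
      rw [Finsupp.sum, map_sum]
      refine Finset.sum_eq_zero fun u _ => ?_
      rw [map_smul]
      have h5 := h3 u
      rw [hl'] at h5
      have h6 : f (D' u) = 0 := by linarith
      rw [h6, smul_zero]
    obtain ⟨x, hx⟩ := hint
    have := hf x hx
    rw [h4 x (interior_subset hx)] at this
    exact lt_irrefl _ this
  -- a small multiple
  set x : W := -∑ u ∈ U, D' u with hx
  have htend : Filter.Tendsto (fun t : ℝ => t • x) (nhdsWithin 0 (Set.Ioi 0)) (nhds (0 : W)) := by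
    have : Filter.Tendsto (fun t : ℝ => t • x) (nhds 0) (nhds ((0 : ℝ) • x)) :=
      (continuous_id.smul continuous_const).tendsto 0
    rw [zero_smul] at this
    exact this.mono_left nhdsWithin_le_nhds
  have hev := htend.eventually (mem_interior_iff_mem_nhds.1 h0)
  have hev2 : ∀ᶠ t : ℝ in nhdsWithin 0 (Set.Ioi 0), 0 < t := eventually_mem_nhdsWithin
  obtain ⟨t, ⟨s, hs, hsx⟩, ht0⟩ := (hev.and hev2).exists
  refine ⟨s + ∑ u ∈ U, Finsupp.single u t, fun u => ?_, fun u hu => ?_, ?_⟩
  · rw [Finsupp.add_apply, Finsupp.finsetSum_apply]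
    apply add_nonneg (hs u)
    apply Finset.sum_nonneg
    intro v _
    rw [Finsupp.single_apply]
    split_ifs
    · exact ht0.le
    · exact le_refl _
  · rw [Finsupp.add_apply, Finsupp.finsetSum_apply]
    have : ∑ v ∈ U, (Finsupp.single v t) u = t := by
      simp only [Finsupp.single_apply]
      rw [Finset.sum_ite_eq' U u]
      simp [hu]
    rw [this]
    have := hs u
    linarith
  · have h5 : (s.sum fun u t => t • D u) = t • (x : E) := by
      have := congrArg (W.subtype) hsx
      rw [Finsupp.sum, map_sum] at this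
      rw [Finsupp.sum]
      simp only [map_smul] at this
      rw [← map_smul W.subtype t x] at *
      simpa [hD'] using this.symm
    rw [Finsupp.sum_add_index' (by simp) (fun u a b => add_smul a b _), h5]
    have h7 : (∑ u ∈ U, Finsupp.single u t).sum (fun u t => t • D u) =
        ∑ u ∈ U, (Finsupp.single u t).sum fun u t => t • D u :=
      (Finsupp.sum_finsetSum_index (h := fun u t => t • D u) (by simp)
        (fun u a b => add_smul a b _)).symm
    rw [h7]
    have h6 : ∀ u ∈ U, ((Finsupp.single u t).sum fun u t => t • D u) = t • D u := fun u _ => by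
      rw [Finsupp.sum_single_index (by simp)]
    rw [Finset.sum_congr rfl h6, hx]
    simp [hD', Finset.smul_sum]

end Pool.Agent.J4.H31.SM
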