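import Mathlib

/-! Real vectors orthogonal to a vector that satisfies the polygon inequalities. -/

set_option autoImplicit false

open Finset

namespace Pool.Agent.J4.H31.SM

variable {ι : Type} [Fintype ι] [DecidableEq ι]

/-- signs with a small sum -/
lemma exists_signs (S : Finset ι) (r : ι → ℝ) (M : ℝ) (hM : 0 ≤ M) (hr : ∀ i ∈ S, 0 ≤ r i ∧ r i ≤ M) :
    ∃ e : ι → ℝ, (∀ i, e i = 1 ∨ e i = -1) ∧ |∑ i ∈ S, r i * e i| ≤ M := by
  classical
  induction S using Finset.induction_on with
  | empty => exact ⟨fun _ => 1, fun _ => Or.inl rfl, by simpa using hM⟩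
  | insert i S hi ih =>
    obtain ⟨e, he, hS⟩ := ih fun j hj => hr j (Finset.mem_insert_of_mem hj)
    have h1 := hr i (Finset.mem_insert_self i S)
    set T := ∑ j ∈ S, r j * e j with hT
    have hsum : ∀ x : ℝ, ∑ j ∈ insert i S, r j * Function.update e i x j = r i * x + T := by
      intro x
      rw [Finset.sum_insert hi, Function.update_self, hT]
      congr 1
      refine Finset.sum_congr rfl fun j hj => ?_
      rw [Function.update_of_ne]
      rintro rfl
      exact hi hj
    rcases le_total 0 T with h0 | h0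
    · refine ⟨Function.update e i (-1), fun j => ?_, ?_⟩
      · by_cases hj : j = i
        · subst hj; rw [Function.update_self]; right; rfl
        · rw [Function.update_of_ne hj]; exact he j
      · rw [hsum, abs_le]
        rw [abs_le] at hS
        constructor <;> linarith
    · refine ⟨Function.update e i 1, fun j => ?_, ?_⟩
      · by_cases hj : j = i
        · subst hj; rw [Function.update_self]; left; rfl
        · rw [Function.update_of_ne hj]; exact he j
      · rw [hsum, abs_le]
        rw [abs_le] at hS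
        constructor <;> linarith

/-- two vectors whose squares average to one -/
lemma exists_two (r : ι → ℝ) (hr : ∀ i, 0 < r i) (hp : ∀ i, r i ≤ ∑ j ∈ univ.erase i, r j) [Nonempty ι] :
    ∃ (x y : ι → ℝ) (l : ℝ), 0 ≤ l ∧ l ≤ 1 ∧ ∑ i, r i * x i = 0 ∧ ∑ i, r i * y i = 0 ∧
      ∀ i, l * x i ^ 2 + (1 - l) * y i ^ 2 = 1 := by
  classical
  obtain ⟨m, hm⟩ := Finite.exists_max r
  obtain ⟨e, he, hS⟩ := exists_signs (univ.erase m) r (r m) (hr m).le fun i _ => ⟨(hr i).le, hm i⟩
  set T := ∑ j ∈ univ.erase m, r j with hT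
  set U := ∑ j ∈ univ.erase m, r j * e j with hU
  have hmp := hr m
  have hTm := hp m
  have hx2 : 1 ≤ (T / r m) ^ 2 := by
    have : 1 ≤ T / r m := by rw [le_div_iff₀ hmp]; linarith
    nlinarith
  have hy2 : (U / r m) ^ 2 ≤ 1 := by
    rw [div_pow, div_le_one (by positivity)]
    exact sq_le_sq' (by linarith [(abs_le.1 hS).1]) (abs_le.1 hS).2
  -- the weight
  obtain ⟨l, hl0, hl1, hl⟩ : ∃ l : ℝ, 0 ≤ l ∧ l ≤ 1 ∧ l * (T / r m) ^ 2 + (1 - l) * (U / r m) ^ 2 = 1 := by
    set A := (T / r m) ^ 2
    set B := (U / r m) ^ 2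
    by_cases hAB : A = B
    · refine ⟨0, le_refl 0, zero_le_one, ?_⟩
      linarith
    · have hAB' : 0 < A - B := by
        rcases lt_or_eq_of_le (show B ≤ A by linarith) with h | h
        · linarith
        · exact absurd h.symm hAB
      refine ⟨(1 - B) / (A - B), by apply div_nonneg <;> linarith, ?_, ?_⟩
      · rw [div_le_one hAB']; linarith
      · field_simp
        ring
  have hsum : ∀ (z : ι → ℝ) (x : ℝ), ∑ j, r j * Function.update z m x j = r m * x + ∑ j ∈ univ.erase m, r j * z j := by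
    intro z x
    rw [← Finset.add_sum_erase _ _ (mem_univ m), Function.update_self]
    congr 1
    refine Finset.sum_congr rfl fun j hj => ?_
    rw [Function.update_of_ne (Finset.ne_of_mem_erase hj)]
  refine ⟨Function.update (fun _ => 1) m (-(T / r m)), Function.update e m (-(U / r m)), l, hl0, hl1, ?_, ?_, ?_⟩
  · rw [hsum]
    simp only [mul_one]
    rw [← hT]
    field_simp
    ring
  · rw [hsum, ← hU]
    field_simp
    ring
  · intro i
    by_cases hi : i = m
    · subst hi
      rw [Function.update_self, Function.update_self, neg_sq, neg_sq]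
      exact hl
    · rw [Function.update_of_ne hi, Function.update_of_ne hi]
      have : e i ^ 2 = 1 := by
        rcases he i with h | h <;> rw [h] <;> norm_num
      rw [this]
      ring

/-- the key lemma on diagonal forms -/
theorem diag_zero (r c : ι → ℝ) (hr : ∀ i, 0 < r i) (hp : ∀ i, r i < ∑ j ∈ univ.erase i, r j)
    (hc : ∑ i, c i = 0) (hpos : ∀ x : ι → ℝ, ∑ i, r i * x i = 0 → 0 ≤ ∑ i, c i * x i ^ 2) (i : ι) :
    c i = 0 := by
  classical
  have hne : Nonempty ι := ⟨i⟩
  -- a small perturbation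
  have hev : ∀ᶠ t : ℝ in nhdsWithin 0 (Set.Ioi 0), (∀ i, 0 < 1 - t * c i) ∧
      ∀ i, r i * Real.sqrt (1 - t * c i) ≤ ∑ j ∈ univ.erase i, r j * Real.sqrt (1 - t * c j) := by
    apply Filter.Eventually.and
    · rw [Filter.eventually_all]
      intro i
      have : Filter.Tendsto (fun t : ℝ => 1 - t * c i) (nhdsWithin 0 (Set.Ioi 0)) (nhds (1 - 0 * c i)) := by
        apply Filter.Tendsto.mono_left _ nhdsWithin_le_nhds
        exact (Continuous.tendsto (by fun_prop) 0)
      rw [zero_mul, sub_zero] at this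
      exact this.eventually (lt_mem_nhds zero_lt_one)
    · rw [Filter.eventually_all]
      intro i
      have h1 : Filter.Tendsto (fun t : ℝ => ∑ j ∈ univ.erase i, r j * Real.sqrt (1 - t * c j) -
          r i * Real.sqrt (1 - t * c i)) (nhdsWithin 0 (Set.Ioi 0))
          (nhds (∑ j ∈ univ.erase i, r j * Real.sqrt (1 - 0 * c j) - r i * Real.sqrt (1 - 0 * c i))) := by
        apply Filter.Tendsto.mono_left _ nhdsWithin_le_nhds
        apply Continuous.tendsto
        fun_prop
      have h2 : 0 < ∑ j ∈ univ.erase i, r j * Real.sqrt (1 - 0 * c j) - r i * Real.sqrt (1 - 0 * c i) := by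
        simp only [zero_mul, sub_zero, Real.sqrt_one, mul_one]
        linarith [hp i]
      filter_upwards [h1.eventually (lt_mem_nhds h2)] with t ht
      linarith
  have hev2 : ∀ᶠ t : ℝ in nhdsWithin 0 (Set.Ioi 0), 0 < t := eventually_mem_nhdsWithin
  obtain ⟨t, ⟨ht1, ht2⟩, ht0⟩ := (hev.and hev2).exists
  have hr' : ∀ i, 0 < r i * Real.sqrt (1 - t * c i) := fun i => mul_pos (hr i) (Real.sqrt_pos.2 (ht1 i))
  obtain ⟨x, y, l, hl0, hl1, hx, hy, hxy⟩ := exists_two (fun i => r i * Real.sqrt (1 - t * c i)) hr' ht2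
  have h1 := hpos (fun i => Real.sqrt (1 - t * c i) * x i) (by simpa [mul_assoc] using hx)
  have h2 := hpos (fun i => Real.sqrt (1 - t * c i) * y i) (by simpa [mul_assoc] using hy)
  have h3 : ∑ i, c i * (1 - t * c i) = l * ∑ i, c i * (Real.sqrt (1 - t * c i) * x i) ^ 2 +
      (1 - l) * ∑ i, c i * (Real.sqrt (1 - t * c i) * y i) ^ 2 := by
    rw [Finset.mul_sum, Finset.mul_sum, ← Finset.sum_add_distrib]
    refine Finset.sum_congr rfl fun i _ => ?_
    rw [mul_pow, mul_pow, Real.sq_sqrt (ht1 i).le]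
    linear_combination -(c i * (1 - t * c i)) * hxy i
  have h4 : 0 ≤ ∑ i, c i * (1 - t * c i) := by
    rw [h3]
    have : 0 ≤ 1 - l := by linarith
    positivity
  have h5 : ∑ i, c i * (1 - t * c i) = -(t * ∑ i, c i ^ 2) := by
    have : ∀ i, c i * (1 - t * c i) = c i - t * c i ^ 2 := fun i => by ring
    simp only [this]
    rw [Finset.sum_sub_distrib, hc, ← Finset.mul_sum]
    ring
  have h6 : ∑ i, c i ^ 2 ≤ 0 := by
    rw [h5] at h4
    by_contra h
    push Not at h
    have := mul_pos ht0 h
    linarith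
  have h7 : c i ^ 2 ≤ ∑ i, c i ^ 2 := Finset.single_le_sum (f := fun i => c i ^ 2) (fun j _ => sq_nonneg _) (mem_univ i)
  have h8 : c i ^ 2 = 0 := le_antisymm (h7.trans h6) (sq_nonneg _)
  exact pow_eq_zero_iff (two_ne_zero) |>.1 h8

end Pool.Agent.J4.H31.SM
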