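import Mathlib
import Pool.Agent.J4.H31.SM.Poly

/-! Approximation of real solutions of a linear equation by solutions in the number field. -/

set_option autoImplicit false

open NumberField NumberField.mixedEmbedding Finset
open scoped Classical

namespace Pool.Agent.J4.H31.SM

variable {K : Type} [Field K] [NumberField K] {ι : Type} [Fintype ι]

lemma near_int : ∃ C : ℝ, 0 < C ∧ ∀ x : mixedSpace K, ∃ y : 𝓞 K, ‖mixedEmbedding K y - x‖ ≤ C := by
  refine ⟨1 + ∑ i, ‖latticeBasis K i‖, by positivity, fun x => ?_⟩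
  have h1 : ((ZSpan.floor (latticeBasis K) x : Submodule.span ℤ (Set.range (latticeBasis K))) : mixedSpace K) ∈
      mixedEmbedding.integerLattice K := (mem_span_latticeBasis K).1 (ZSpan.floor (latticeBasis K) x).2
  obtain ⟨y, hy⟩ := h1
  refine ⟨y, ?_⟩
  have h2 : mixedEmbedding K y = (ZSpan.floor (latticeBasis K) x : mixedSpace K) := hy
  have h3 := ZSpan.norm_fract_le (latticeBasis K) x
  rw [ZSpan.fract_apply] at h3
  rw [h2, norm_sub_rev]
  linarith

lemma norm_natCast_mul (N : ℕ) (x : mixedSpace K) : ‖(N : mixedSpace K) * x‖ = N * ‖x‖ := by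
  rw [← nsmul_eq_mul, ← Nat.cast_smul_eq_nsmul ℝ, _root_.norm_smul]
  simp

/-- density of the field -/
lemma dense1 (x : mixedSpace K) {ε : ℝ} (hε : 0 < ε) : ∃ t : K, ‖mixedEmbedding K t - x‖ < ε := by
  obtain ⟨C, hC, h⟩ := near_int (K := K)
  obtain ⟨N, hN⟩ := exists_nat_gt (C / ε)
  have hN0 : (0 : ℝ) < N := lt_of_le_of_lt (by positivity) hN
  obtain ⟨y, hy⟩ := h ((N : mixedSpace K) * x)
  have hNK : (N : K) ≠ 0 := by
    have : N ≠ 0 := by rintro rfl; simp at hN0
    exact_mod_cast this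
  refine ⟨(y : K) / N, ?_⟩
  have h1 : (N : mixedSpace K) * (mixedEmbedding K ((y : K) / N) - x) = mixedEmbedding K y - (N : mixedSpace K) * x := by
    rw [mul_sub, ← map_natCast (mixedEmbedding K) N, ← map_mul, mul_div_cancel₀ _ hNK]
  have h2 := norm_natCast_mul N (mixedEmbedding K ((y : K) / N) - x)
  rw [h1] at h2
  rw [h2] at hy
  rw [div_lt_iff₀ hε] at hN
  by_contra hcon
  push Not at hcon
  have := mul_le_mul_of_nonneg_left hcon hN0.le
  linarith

/-- density of the solutions over the field -/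
lemma dense2 (a : ι → 𝓞 K) (i0 : ι) (h0 : a i0 ≠ 0) (w : ι → mixedSpace K)
    (hw : ∑ i, mixedEmbedding K (a i) * w i = 0) {ε : ℝ} (hε : 0 < ε) :
    ∃ u : ι → K, ∑ i, (a i : K) * u i = 0 ∧ ∀ i, ‖mixedEmbedding K (u i) - w i‖ < ε := by
  have h0' : (a i0 : K) ≠ 0 := by simpa using h0
  set A : ℝ := 1 + ‖mixedEmbedding K ((a i0 : K)⁻¹)‖ * ∑ j ∈ univ.erase i0, ‖mixedEmbedding K (a j : K)‖ with hA
  have hA1 : 1 ≤ A := by
    have : 0 ≤ ‖mixedEmbedding K ((a i0 : K)⁻¹)‖ * ∑ j ∈ univ.erase i0, ‖mixedEmbedding K (a j : K)‖ := by positivity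
    linarith
  choose t ht using fun i => dense1 (w i) (show 0 < ε / (2 * A) by positivity)
  set u : ι → K := Function.update t i0 (-((a i0 : K)⁻¹ * ∑ j ∈ univ.erase i0, (a j : K) * t j)) with hu
  have hu0 : u i0 = -((a i0 : K)⁻¹ * ∑ j ∈ univ.erase i0, (a j : K) * t j) := Function.update_self _ _ _
  have hu1 : ∀ j, j ≠ i0 → u j = t j := fun j hj => Function.update_of_ne hj _ _
  have hsmall : ε / (2 * A) < ε := by
    rw [div_lt_iff₀ (by positivity)]
    nlinarith
  refine ⟨u, ?_, fun i => ?_⟩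
  · rw [← add_sum_erase _ _ (mem_univ i0), hu0]
    have : ∑ j ∈ univ.erase i0, (a j : K) * u j = ∑ j ∈ univ.erase i0, (a j : K) * t j :=
      Finset.sum_congr rfl fun j hj => by rw [hu1 j (ne_of_mem_erase hj)]
    rw [this]
    field_simp
    ring
  · by_cases hi : i = i0
    · subst hi
      rw [hu0]
      have hw' : w i = -(mixedEmbedding K ((a i : K)⁻¹) * ∑ j ∈ univ.erase i, mixedEmbedding K (a j) * w j) := by
        rw [← add_sum_erase _ _ (mem_univ i)] at hw
        have h1 : mixedEmbedding K ((a i : K)⁻¹) * (mixedEmbedding K (a i) * w i) = w i := by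
          rw [← mul_assoc, ← map_mul, inv_mul_cancel₀ h0', map_one, one_mul]
        have h2 : mixedEmbedding K (a i) * w i = -∑ j ∈ univ.erase i, mixedEmbedding K (a j) * w j :=
          eq_neg_of_add_eq_zero_left hw
        rw [h2] at h1
        rw [← h1]
        ring
      rw [hw', map_neg, map_mul, map_sum]
      have h3 : -(mixedEmbedding K ((a i : K)⁻¹) * ∑ j ∈ univ.erase i, mixedEmbedding K ((a j : K) * t j)) -
          -(mixedEmbedding K ((a i : K)⁻¹) * ∑ j ∈ univ.erase i, mixedEmbedding K (a j) * w j) =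
          -(mixedEmbedding K ((a i : K)⁻¹) * ∑ j ∈ univ.erase i, mixedEmbedding K (a j) * (mixedEmbedding K (t j) - w j)) := by
        simp only [map_mul, mul_sub, sum_sub_distrib]
        ring
      rw [h3, norm_neg]
      have h4 : ‖mixedEmbedding K ((a i : K)⁻¹) * ∑ j ∈ univ.erase i, mixedEmbedding K (a j) * (mixedEmbedding K (t j) - w j)‖
          ≤ ‖mixedEmbedding K ((a i : K)⁻¹)‖ * ∑ j ∈ univ.erase i, ‖mixedEmbedding K (a j : K)‖ * (ε / (2 * A)) := by
        refine (norm_mul_le _ _).trans ?_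
        apply mul_le_mul_of_nonneg_left _ (norm_nonneg _)
        refine (norm_sum_le _ _).trans (Finset.sum_le_sum fun j _ => ?_)
        refine (norm_mul_le _ _).trans ?_
        exact mul_le_mul_of_nonneg_left (ht j).le (norm_nonneg _)
      rw [← Finset.sum_mul, ← mul_assoc] at h4
      refine lt_of_le_of_lt h4 ?_
      have h5 : ‖mixedEmbedding K ((a i : K)⁻¹)‖ * ∑ j ∈ univ.erase i, ‖mixedEmbedding K (a j : K)‖ ≤ A := by
        rw [hA]; linarith
      have h6 := mul_le_mul_of_nonneg_right h5 (show 0 ≤ ε / (2 * A) by positivity)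
      refine lt_of_le_of_lt h6 ?_
      have : A * (ε / (2 * A)) = ε / 2 := by field_simp
      rw [this]
      linarith
    · rw [hu1 i hi]
      exact (ht i).trans hsmall

lemma common_denom (u : ι → K) : ∃ (D : ℕ) (u' : ι → 𝓞 K), 0 < D ∧ ∀ i, (u' i : K) = (D : K) * u i := by
  classical
  obtain ⟨y, hy0, hy⟩ := exists_integral_multiples ℤ ℚ (Finset.univ.image u)
  have h1 : ∀ i, IsIntegral ℤ ((y.natAbs : K) * u i) := by
    intro i
    have h2 := hy (u i) (Finset.mem_image_of_mem u (Finset.mem_univ i))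
    rw [zsmul_eq_mul] at h2
    rcases Int.natAbs_eq y with h | h
    · have : ((y : ℤ) : K) = (y.natAbs : K) := by
        conv_lhs => rw [h]
        rw [Int.cast_natCast]
      rwa [this] at h2
    · have : ((y : ℤ) : K) = -(y.natAbs : K) := by
        conv_lhs => rw [h]
        rw [Int.cast_neg, Int.cast_natCast]
      rw [this] at h2
      have := h2.neg
      rwa [neg_mul, neg_neg] at this
  refine ⟨y.natAbs, fun i => ⟨(y.natAbs : K) * u i, h1 i⟩, Int.natAbs_pos.2 hy0, fun i => rfl⟩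

end Pool.Agent.J4.H31.SM
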