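import Mathlib
import Pool.Agent.J4.H31.SM.Space

/-! Sums of quadratic forms of the coordinates which are nonnegative on the solutions. -/

set_option autoImplicit false
set_option linter.unusedSectionVars false

open NumberField NumberField.mixedEmbedding NumberField.InfinitePlace Finset
open scoped Classical

namespace Pool.Agent.J4.H31.SM

variable {K : Type} [Field K] [NumberField K] {ι : Type} [Fintype ι]

/-- the sum of the forms -/
noncomputable def Phi (B : ι → mixedSpace K →ₗ[ℝ] mixedSpace K →ₗ[ℝ] ℝ) (w : ι → mixedSpace K) : ℝ :=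
  ∑ i, B i (w i) (w i)

lemma cont_form (B : mixedSpace K →ₗ[ℝ] mixedSpace K →ₗ[ℝ] ℝ) : Continuous fun x => B x x := by
  have h : (fun x => B x x) = fun x => ∑ l, (latticeBasis K).repr x l * B (latticeBasis K l) x := by
    funext x
    have h1 : B x x = B (∑ l, (latticeBasis K).repr x l • latticeBasis K l) x := by
      rw [(latticeBasis K).sum_repr]
    rw [h1, map_sum, LinearMap.sum_apply]
    refine Finset.sum_congr rfl fun l _ => ?_
    rw [map_smul, LinearMap.smul_apply, smul_eq_mul]
  rw [h]
  refine continuous_finsetSum _ fun l _ => Continuous.mul ?_ ?_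
  · exact ((latticeBasis K).coord l).continuous_of_finiteDimensional
  · exact (B (latticeBasis K l)).continuous_of_finiteDimensional

lemma Phi_cont (B : ι → mixedSpace K →ₗ[ℝ] mixedSpace K →ₗ[ℝ] ℝ) : Continuous (Phi B) := by
  unfold Phi
  refine continuous_finsetSum _ fun i _ => ?_
  exact (cont_form (B i)).comp (continuous_apply i)

lemma Phi_nonneg (a : ι → 𝓞 K) (i0 : ι) (h0 : a i0 ≠ 0) (B : ι → mixedSpace K →ₗ[ℝ] mixedSpace K →ₗ[ℝ] ℝ)
    (hpos : ∀ u : ι → 𝓞 K, ∑ i, a i * u i = 0 → 0 ≤ Phi B fun i => mixedEmbedding K (u i))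
    (w : ι → mixedSpace K) (hw : ∑ i, mixedEmbedding K (a i) * w i = 0) : 0 ≤ Phi B w := by
  by_contra hcon
  push Not at hcon
  have hopen : IsOpen {w' | Phi B w' < 0} := isOpen_lt (Phi_cont B) continuous_const
  obtain ⟨ε, hε, hball⟩ := Metric.isOpen_iff.1 hopen w hcon
  obtain ⟨u, hu, hdist⟩ := dense2 a i0 h0 w hw hε
  have h1 : Phi B (fun i => mixedEmbedding K (u i)) < 0 := by
    apply hball
    rw [Metric.mem_ball, dist_pi_lt_iff hε]
    intro i
    rw [dist_eq_norm]
    exact hdist i
  obtain ⟨D, u', hD, hu'⟩ := common_denom u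
  have h2 : ∑ i, a i * u' i = 0 := by
    have : ((∑ i, a i * u' i : 𝓞 K) : K) = 0 := by
      show algebraMap (𝓞 K) K (∑ i, a i * u' i) = 0
      rw [map_sum]
      simp only [map_mul]
      have h3 : ∀ i, (algebraMap (𝓞 K) K) (a i) * (algebraMap (𝓞 K) K) (u' i) = (D : K) * ((a i : K) * u i) := by
        intro i
        rw [show (algebraMap (𝓞 K) K) (u' i) = (D : K) * u i from hu' i]
        ring
      simp only [h3]
      rw [← Finset.mul_sum, hu, mul_zero]
    exact_mod_cast this
  have h3 := hpos u' h2
  have h4 : (fun i => mixedEmbedding K (u' i : K)) = fun i => (D : ℝ) • mixedEmbedding K (u i) := by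
    funext i
    rw [hu' i, map_mul, map_natCast, ← nsmul_eq_mul, Nat.cast_smul_eq_nsmul]
  rw [h4] at h3
  have h5 : Phi B (fun i => (D : ℝ) • mixedEmbedding K (u i)) = (D : ℝ) ^ 2 * Phi B (fun i => mixedEmbedding K (u i)) := by
    unfold Phi
    rw [Finset.mul_sum]
    refine Finset.sum_congr rfl fun i _ => ?_
    simp only [map_smul, LinearMap.smul_apply, smul_eq_mul]
    ring
  rw [h5] at h3
  have h6 : (0 : ℝ) < (D : ℝ) ^ 2 := by
    have : (0 : ℝ) < D := by exact_mod_cast hD
    positivity
  have := mul_neg_of_pos_of_neg h6 h1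
  linarith

lemma Phi_add_zero (B : ι → mixedSpace K →ₗ[ℝ] mixedSpace K →ₗ[ℝ] ℝ) {w w' : ι → mixedSpace K}
    (h : Phi B w = 0) (h' : Phi B w' = 0) (hp : 0 ≤ Phi B (w + w')) (hm : 0 ≤ Phi B (w - w')) :
    Phi B (w + w') = 0 := by
  have : Phi B (w + w') + Phi B (w - w') = 2 * Phi B w + 2 * Phi B w' := by
    unfold Phi
    rw [← Finset.sum_add_distrib, Finset.mul_sum, Finset.mul_sum, ← Finset.sum_add_distrib]
    refine Finset.sum_congr rfl fun i _ => ?_
    simp only [Pi.add_apply, Pi.sub_apply, map_add, map_sub, LinearMap.add_apply, LinearMap.sub_apply]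
    ring
  rw [h, h'] at this
  linarith

/-- the component at a real place -/
noncomputable def insR (v : {v : InfinitePlace K // IsReal v}) (t : ℝ) : mixedSpace K := (Pi.single v t, 0)

/-- the component at a complex place -/
noncomputable def insC (v : {v : InfinitePlace K // IsComplex v}) (z : ℂ) : mixedSpace K := (0, Pi.single v z)

lemma mul_insR (v : {v : InfinitePlace K // IsReal v}) (x : mixedSpace K) (t : ℝ) :
    x * insR v t = insR v (x.1 v * t) := by
  unfold insR
  ext1
  · funext v'
    by_cases h : v' = v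
    · subst h; simp
    · simp [h]
  · simp

lemma mul_insC (v : {v : InfinitePlace K // IsComplex v}) (x : mixedSpace K) (z : ℂ) :
    x * insC v z = insC v (x.2 v * z) := by
  unfold insC
  ext1
  · simp
  · funext v'
    by_cases h : v' = v
    · subst h; simp
    · simp [h]

lemma insR_sum (v : {v : InfinitePlace K // IsReal v}) (t : ι → ℝ) : ∑ i, insR v (t i) = insR v (∑ i, t i) := by
  unfold insR
  ext1
  · rw [Prod.fst_sum]
    funext v'
    rw [Finset.sum_apply]
    by_cases h : v' = v
    · subst h; simp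
    · simp [h]
  · rw [Prod.snd_sum]
    simp

lemma insC_sum (v : {v : InfinitePlace K // IsComplex v}) (t : ι → ℂ) : ∑ i, insC v (t i) = insC v (∑ i, t i) := by
  unfold insC
  ext1
  · rw [Prod.fst_sum]
    simp
  · rw [Prod.snd_sum]
    funext v'
    rw [Finset.sum_apply]
    by_cases h : v' = v
    · subst h; simp
    · simp [h]

lemma insR_zero (v : {v : InfinitePlace K // IsReal v}) : insR v 0 = 0 := by
  unfold insR; simp

lemma insC_zero (v : {v : InfinitePlace K // IsComplex v}) : insC v 0 = 0 := by
  unfold insC; simp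

lemma insR_eq (v : {v : InfinitePlace K // IsReal v}) (t : ℝ) : insR v t = t • insR v 1 := by
  unfold insR
  ext1
  · funext v'
    by_cases h : v' = v
    · subst h; simp
    · simp [h]
  · simp

lemma insC_eq (v : {v : InfinitePlace K // IsComplex v}) (z : ℂ) :
    insC v z = z.re • insC v 1 + z.im • insC v Complex.I := by
  unfold insC
  ext1
  · simp
  · funext v'
    by_cases h : v' = v
    · subst h
      simp
    · simp [h]

lemma comp_real (a : ι → 𝓞 K) (w : ι → mixedSpace K) (hw : ∑ i, mixedEmbedding K (a i) * w i = 0)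
    (v : {v : InfinitePlace K // IsReal v}) : ∑ i, (mixedEmbedding K (a i)).1 v * (w i).1 v = 0 := by
  have := congrArg (fun x : mixedSpace K => x.1 v) hw
  simpa [Prod.fst_sum, Finset.sum_apply] using this

lemma comp_complex (a : ι → 𝓞 K) (w : ι → mixedSpace K) (hw : ∑ i, mixedEmbedding K (a i) * w i = 0)
    (v : {v : InfinitePlace K // IsComplex v}) : ∑ i, (mixedEmbedding K (a i)).2 v * (w i).2 v = 0 := by
  have := congrArg (fun x : mixedSpace K => x.2 v) hw
  simpa [Prod.snd_sum, Finset.sum_apply] using this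

lemma sol_insR (a : ι → 𝓞 K) (v : {v : InfinitePlace K // IsReal v}) (t : ι → ℝ)
    (h : ∑ i, (mixedEmbedding K (a i)).1 v * t i = 0) : ∑ i, mixedEmbedding K (a i) * insR v (t i) = 0 := by
  simp only [mul_insR]
  rw [insR_sum, h, insR_zero]

lemma sol_insC (a : ι → 𝓞 K) (v : {v : InfinitePlace K // IsComplex v}) (t : ι → ℂ)
    (h : ∑ i, (mixedEmbedding K (a i)).2 v * t i = 0) : ∑ i, mixedEmbedding K (a i) * insC v (t i) = 0 := by
  simp only [mul_insC]
  rw [insC_sum, h, insC_zero]

section main

variable (a : ι → 𝓞 K) (ha : ∀ i, a i ≠ 0)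
  (hstrict : ∀ v : InfinitePlace K, ∀ i, v (a i : K) < ∑ j ∈ univ.erase i, v (a j : K))
  (B : ι → mixedSpace K →ₗ[ℝ] mixedSpace K →ₗ[ℝ] ℝ) (hB : ∀ x y, ∑ i, B i x y = 0)
  (hpos : ∀ w : ι → mixedSpace K, ∑ i, mixedEmbedding K (a i) * w i = 0 → 0 ≤ Phi B w)

include ha hstrict hB hpos

lemma zero_real (v : {v : InfinitePlace K // IsReal v}) (t : ι → ℝ) : Phi B (fun i => insR v (t i)) = 0 := by
  set c : ι → ℝ := fun i => B i (insR v 1) (insR v 1) with hc
  have hPhi : ∀ t : ι → ℝ, Phi B (fun i => insR v (t i)) = ∑ i, c i * t i ^ 2 := by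
    intro t
    unfold Phi
    refine Finset.sum_congr rfl fun i _ => ?_
    show B i (insR v (t i)) (insR v (t i)) = _
    rw [insR_eq]
    simp only [map_smul, LinearMap.smul_apply, smul_eq_mul, hc]
    ring
  have hr : ∀ i, 0 < v.1 (a i : K) := fun i => (v.1.pos_iff).2 (by simpa using ha i)
  have habs : ∀ i, |(mixedEmbedding K (a i : K)).1 v| = v.1 (a i : K) := by
    intro i
    rw [mixedEmbedding_apply_isReal, ← Real.norm_eq_abs, norm_embedding_of_isReal]
  have hzero : ∀ i, c i = 0 := by
    refine diag_zero (fun i => v.1 (a i : K)) c hr (fun i => hstrict v.1 i) (hB _ _) fun x hx => ?_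
    set al : ι → ℝ := fun i => (mixedEmbedding K (a i : K)).1 v with hal
    have hal0 : ∀ i, al i ≠ 0 := fun i h => by
      have := habs i
      rw [show (mixedEmbedding K (a i : K)).1 v = al i from rfl, h, abs_zero] at this
      exact (hr i).ne this
    have h1 : ∑ i, al i * (|al i| / al i * x i) = 0 := by
      rw [← hx]
      refine Finset.sum_congr rfl fun i _ => ?_
      rw [← habs i]
      show al i * (|al i| / al i * x i) = |al i| * x i
      have := hal0 i
      field_simp
    have h2 := hpos _ (sol_insR a v _ h1)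
    rw [hPhi] at h2
    refine h2.trans (le_of_eq (Finset.sum_congr rfl fun i _ => ?_))
    rw [mul_pow, div_pow, sq_abs, div_self (pow_ne_zero _ (hal0 i)), one_mul]
  rw [hPhi]
  exact Finset.sum_eq_zero fun i _ => by rw [hzero i, zero_mul]

lemma zero_complex (v : {v : InfinitePlace K // IsComplex v}) (t : ι → ℂ)
    (ht : ∑ i, (mixedEmbedding K (a i)).2 v * t i = 0) : Phi B (fun i => insC v (t i)) = 0 := by
  set c : ι → ℝ := fun i => B i (insC v 1) (insC v 1) + B i (insC v Complex.I) (insC v Complex.I) with hc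
  have hPhi : ∀ t : ι → ℂ, Phi B (fun i => insC v (t i)) + Phi B (fun i => insC v (Complex.I * t i)) =
      ∑ i, c i * ‖t i‖ ^ 2 := by
    intro t
    unfold Phi
    rw [← Finset.sum_add_distrib]
    refine Finset.sum_congr rfl fun i _ => ?_
    show B i (insC v (t i)) (insC v (t i)) + B i (insC v (Complex.I * t i)) (insC v (Complex.I * t i)) = _
    rw [insC_eq v (t i), insC_eq v (Complex.I * t i)]
    have e1 : (Complex.I * t i).re = -(t i).im := by simp
    have e2 : (Complex.I * t i).im = (t i).re := by simp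
    rw [e1, e2, ← Complex.normSq_eq_norm_sq, Complex.normSq_apply]
    simp only [map_add, map_smul, LinearMap.add_apply, LinearMap.smul_apply, smul_eq_mul, hc]
    ring
  have hr : ∀ i, 0 < v.1 (a i : K) := fun i => (v.1.pos_iff).2 (by simpa using ha i)
  have habs : ∀ i, ‖(mixedEmbedding K (a i : K)).2 v‖ = v.1 (a i : K) := by
    intro i
    rw [mixedEmbedding_apply_isComplex, norm_embedding_eq]
  have hsolI : ∀ t : ι → ℂ, ∑ i, (mixedEmbedding K (a i)).2 v * t i = 0 →
      ∑ i, (mixedEmbedding K (a i)).2 v * (Complex.I * t i) = 0 := by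
    intro t ht
    have : ∀ i, (mixedEmbedding K (a i : K)).2 v * (Complex.I * t i) = Complex.I * ((mixedEmbedding K (a i : K)).2 v * t i) :=
      fun i => by ring
    simp only [this]
    rw [← Finset.mul_sum, ht, mul_zero]
  have hzero : ∀ i, c i = 0 := by
    refine diag_zero (fun i => v.1 (a i : K)) c hr (fun i => hstrict v.1 i) ?_ fun x hx => ?_
    · simp only [hc]
      rw [Finset.sum_add_distrib, hB, hB, add_zero]
    · set al : ι → ℂ := fun i => (mixedEmbedding K (a i : K)).2 v with hal
      have hal0 : ∀ i, al i ≠ 0 := fun i h => by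
        have := habs i
        rw [show (mixedEmbedding K (a i : K)).2 v = al i from rfl, h, norm_zero] at this
        exact (hr i).ne this
      have h1 : ∑ i, al i * (((‖al i‖ : ℝ) : ℂ) / al i * (x i : ℝ)) = 0 := by
        have h3 : ∀ i, al i * (((‖al i‖ : ℝ) : ℂ) / al i * (x i : ℝ)) = ((v.1 (a i : K) * x i : ℝ) : ℂ) := by
          intro i
          rw [← habs i]
          show al i * (((‖al i‖ : ℝ) : ℂ) / al i * (x i : ℝ)) = ((‖al i‖ * x i : ℝ) : ℂ)
          have := hal0 i
          push_cast
          field_simp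
        simp only [h3]
        rw [← Complex.ofReal_sum, hx, Complex.ofReal_zero]
      have h2 := hpos _ (sol_insC a v _ h1)
      have h2' := hpos _ (sol_insC a v _ (hsolI _ h1))
      have h4 := hPhi (fun i => ((‖al i‖ : ℝ) : ℂ) / al i * (x i : ℝ))
      have h5 : ∀ i, ‖((‖al i‖ : ℝ) : ℂ) / al i * (x i : ℝ)‖ ^ 2 = x i ^ 2 := by
        intro i
        rw [norm_mul, norm_div, Complex.norm_real, Complex.norm_real, norm_norm,
          div_self (norm_ne_zero_iff.2 (hal0 i)), one_mul, Real.norm_eq_abs, sq_abs]
      simp only [h5] at h4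
      rw [← h4]
      exact add_nonneg h2 h2'
  have h1 := hPhi t
  rw [Finset.sum_eq_zero fun i _ => by rw [hzero i, zero_mul]] at h1
  have h2 := hpos _ (sol_insC a v t ht)
  have h3 := hpos _ (sol_insC a v _ (hsolI t ht))
  linarith

/-- the sum of the forms vanishes on all solutions -/
theorem Phi_zero (w : ι → mixedSpace K) (hw : ∑ i, mixedEmbedding K (a i) * w i = 0) : Phi B w = 0 := by
  have hR : ∀ S : Finset {v : InfinitePlace K // IsReal v},
      (∑ i, mixedEmbedding K (a i) * (∑ v ∈ S, insR v ((w i).1 v)) = 0) ∧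
      Phi B (fun i => ∑ v ∈ S, insR v ((w i).1 v)) = 0 := by
    intro S
    induction S using Finset.induction_on with
    | empty =>
      refine ⟨by simp, ?_⟩
      unfold Phi
      simp
    | insert v S hv ih =>
      have h1 : ∑ i, mixedEmbedding K (a i) * insR v ((w i).1 v) = 0 := sol_insR a v _ (comp_real a w hw v)
      have h2 := zero_real a ha hstrict B hB hpos v (fun i => (w i).1 v)
      have e : (fun i => ∑ v' ∈ insert v S, insR v' ((w i).1 v')) =
          (fun i => insR v ((w i).1 v)) + fun i => ∑ v' ∈ S, insR v' ((w i).1 v') := by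
        funext i
        rw [Finset.sum_insert hv]
        rfl
      refine ⟨?_, ?_⟩
      · have : ∀ i, mixedEmbedding K (a i) * (∑ v' ∈ insert v S, insR v' ((w i).1 v')) =
            mixedEmbedding K (a i) * insR v ((w i).1 v) + mixedEmbedding K (a i) * ∑ v' ∈ S, insR v' ((w i).1 v') := by
          intro i
          rw [Finset.sum_insert hv, mul_add]
        simp only [this]
        rw [Finset.sum_add_distrib, h1, ih.1, add_zero]
      · rw [e]
        refine Phi_add_zero B h2 ih.2 (hpos _ ?_) (hpos _ ?_)
        · simp only [Pi.add_apply, mul_add]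
          rw [Finset.sum_add_distrib, h1, ih.1, add_zero]
        · simp only [Pi.sub_apply, mul_sub]
          rw [Finset.sum_sub_distrib, h1, ih.1, sub_zero]
  have hC : ∀ S : Finset {v : InfinitePlace K // IsComplex v},
      (∑ i, mixedEmbedding K (a i) * (∑ v ∈ S, insC v ((w i).2 v)) = 0) ∧
      Phi B (fun i => ∑ v ∈ S, insC v ((w i).2 v)) = 0 := by
    intro S
    induction S using Finset.induction_on with
    | empty =>
      refine ⟨by simp, ?_⟩
      unfold Phi
      simp
    | insert v S hv ih =>
      have h1 : ∑ i, mixedEmbedding K (a i) * insC v ((w i).2 v) = 0 := sol_insC a v _ (comp_complex a w hw v)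
      have h2 := zero_complex a ha hstrict B hB hpos v (fun i => (w i).2 v) (comp_complex a w hw v)
      have e : (fun i => ∑ v' ∈ insert v S, insC v' ((w i).2 v')) =
          (fun i => insC v ((w i).2 v)) + fun i => ∑ v' ∈ S, insC v' ((w i).2 v') := by
        funext i
        rw [Finset.sum_insert hv]
        rfl
      refine ⟨?_, ?_⟩
      · have : ∀ i, mixedEmbedding K (a i) * (∑ v' ∈ insert v S, insC v' ((w i).2 v')) =
            mixedEmbedding K (a i) * insC v ((w i).2 v) + mixedEmbedding K (a i) * ∑ v' ∈ S, insC v' ((w i).2 v') := by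
          intro i
          rw [Finset.sum_insert hv, mul_add]
        simp only [this]
        rw [Finset.sum_add_distrib, h1, ih.1, add_zero]
      · rw [e]
        refine Phi_add_zero B h2 ih.2 (hpos _ ?_) (hpos _ ?_)
        · simp only [Pi.add_apply, mul_add]
          rw [Finset.sum_add_distrib, h1, ih.1, add_zero]
        · simp only [Pi.sub_apply, mul_sub]
          rw [Finset.sum_sub_distrib, h1, ih.1, sub_zero]
  have e : w = (fun i => ∑ v, insR v ((w i).1 v)) + fun i => ∑ v, insC v ((w i).2 v) := by
    funext i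
    simp only [Pi.add_apply]
    ext1
    · rw [Prod.fst_add, Prod.fst_sum, Prod.fst_sum]
      unfold insR insC
      simp only [Finset.sum_const_zero, add_zero]
      funext v
      rw [Finset.sum_apply, Finset.sum_eq_single v]
      · simp
      · intro v' _ h
        rw [Pi.single_eq_of_ne h.symm]
      · intro h; exact absurd (Finset.mem_univ v) h
    · rw [Prod.snd_add, Prod.snd_sum, Prod.snd_sum]
      unfold insR insC
      simp only [Finset.sum_const_zero, zero_add]
      funext v
      rw [Finset.sum_apply, Finset.sum_eq_single v]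
      · simp
      · intro v' _ h
        rw [Pi.single_eq_of_ne h.symm]
      · intro h; exact absurd (Finset.mem_univ v) h
  have h1 := hR univ
  have h2 := hC univ
  rw [e]
  refine Phi_add_zero B h1.2 h2.2 (hpos _ ?_) (hpos _ ?_)
  · simp only [Pi.add_apply, mul_add]
    rw [Finset.sum_add_distrib, h1.1, h2.1, add_zero]
  · simp only [Pi.sub_apply, mul_sub]
    rw [Finset.sum_sub_distrib, h1.1, h2.1, sub_zero]

end main

end Pool.Agent.J4.H31.SM
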