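import Mathlib
import Pool.Agent.J4.H31.SM.Form
import Pool.Agent.J4.H31.SM.Cone

/-! A finite set of solutions with positive weights and equal second moments of the coordinates. -/

set_option autoImplicit false
set_option linter.unusedSectionVars false

open NumberField NumberField.mixedEmbedding NumberField.InfinitePlace Finset
open scoped Classical

namespace Pool.Agent.J4.H31.SM

variable {K : Type} [Field K] [NumberField K] {ι : Type} [Fintype ι]

/-- the degree -/
noncomputable abbrev dd (K : Type) [Field K] [NumberField K] : ℕ := Fintype.card (Module.Free.ChooseBasisIndex ℤ (𝓞 K))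

/-- the integral basis -/
noncomputable def bZ (K : Type) [Field K] [NumberField K] : Module.Basis (Fin (dd K)) ℤ (𝓞 K) :=
  (RingOfIntegers.basis K).reindex (Fintype.equivFin _)

/-- the real basis -/
noncomputable def bR (K : Type) [Field K] [NumberField K] : Module.Basis (Fin (dd K)) ℝ (mixedSpace K) :=
  (latticeBasis K).reindex (Fintype.equivFin _)

/-- the coordinates of an integer -/
noncomputable def co (y : 𝓞 K) : Fin (dd K) → ℤ := fun l => (bZ K).repr y l

lemma bR_repr (y : 𝓞 K) (l : Fin (dd K)) : (bR K).repr (mixedEmbedding K y) l = (co y l : ℝ) := by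
  unfold bR co bZ
  rw [Module.Basis.repr_reindex_apply, Module.Basis.repr_reindex_apply, latticeBasis_repr_apply]
  have := integralBasis_repr_apply K y ((Fintype.equivFin (Module.Free.ChooseBasisIndex ℤ (𝓞 K))).symm l)
  rw [show ((y : K)) = algebraMap (𝓞 K) K y from rfl, this]
  simp

/-- the lattice of solutions -/
noncomputable def Lam (a : ι → 𝓞 K) : Submodule ℤ (ι → 𝓞 K) where
  carrier := {u | ∑ i, a i * u i = 0}
  add_mem' := by
    intro u v hu hv
    simp only [Set.mem_ofPred_eq, Pi.add_apply, mul_add, Finset.sum_add_distrib] at *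
    rw [hu, hv, add_zero]
  zero_mem' := by simp
  smul_mem' := by
    intro n u hu
    simp only [Set.mem_ofPred_eq, Pi.smul_apply, mul_smul_comm] at *
    rw [← Finset.smul_sum, hu, smul_zero]

lemma mem_Lam (a : ι → 𝓞 K) (u : ι → 𝓞 K) : u ∈ Lam a ↔ ∑ i, a i * u i = 0 := Iff.rfl

/-- the differences of the second moments -/
noncomputable def DM (a : ι → 𝓞 K) (i0 : ι) (u : Lam a) : ι → Fin (dd K) → Fin (dd K) → ℝ :=
  fun i l l' => (co (u.1 i) l : ℝ) * co (u.1 i) l' - co (u.1 i0) l * co (u.1 i0) l'

lemma func_eq {d : ℕ} (L : (ι → Fin d → Fin d → ℝ) →ₗ[ℝ] ℝ) (M : ι → Fin d → Fin d → ℝ) :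
    L M = ∑ i, ∑ l, ∑ l', M i l l' * L (Pi.single i (Pi.single l (Pi.single l' 1))) := by
  have h : M = ∑ i, ∑ l, ∑ l', M i l l' • (Pi.single i (Pi.single l (Pi.single l' (1 : ℝ))) : ι → Fin d → Fin d → ℝ) := by
    funext i l l'
    simp only [Finset.sum_apply, Pi.smul_apply, smul_eq_mul]
    rw [Finset.sum_eq_single i, Finset.sum_eq_single l, Finset.sum_eq_single l']
    · simp
    · intro b _ hb
      simp [hb.symm]
    · intro h; exact absurd (Finset.mem_univ _) h
    · intro b _ hb
      apply Finset.sum_eq_zero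
      intro b' _
      simp [hb.symm]
    · intro h; exact absurd (Finset.mem_univ _) h
    · intro b _ hb
      apply Finset.sum_eq_zero
      intro b' _
      apply Finset.sum_eq_zero
      intro b'' _
      simp [hb.symm]
    · intro h; exact absurd (Finset.mem_univ _) h
  conv_lhs => rw [h]
  simp only [map_sum, map_smul, smul_eq_mul]

/-- the bilinear forms of a functional -/
noncomputable def BB (q : Fin (dd K) → Fin (dd K) → ℝ) : mixedSpace K →ₗ[ℝ] mixedSpace K →ₗ[ℝ] ℝ :=
  ∑ l, ∑ l', q l l' • ((bR K).coord l).smulRight ((bR K).coord l')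

lemma BB_apply (q : Fin (dd K) → Fin (dd K) → ℝ) (x y : mixedSpace K) :
    BB q x y = ∑ l, ∑ l', q l l' * ((bR K).repr x l * (bR K).repr y l') := by
  unfold BB
  simp only [LinearMap.sum_apply, LinearMap.smul_apply, LinearMap.smulRight_apply, smul_eq_mul,
    Module.Basis.coord_apply]

theorem exists_cov (a : ι → 𝓞 K) (ha : ∀ i, a i ≠ 0) [Nonempty ι]
    (hstrict : ∀ v : InfinitePlace K, ∀ i, v (a i : K) < ∑ j ∈ univ.erase i, v (a j : K)) :
    ∃ (N : ℕ) (u : Fin N → ι → 𝓞 K) (s : Fin N → ℝ), (∀ k, 0 < s k) ∧ (∀ k, ∑ i, a i * u k i = 0) ∧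
      (∀ w : ι → 𝓞 K, ∑ i, a i * w i = 0 → ∃ g : Fin N → ℤ, ∀ i, w i = ∑ k, g k • u k i) ∧
      ∀ i i' l l', ∑ k, s k * co (u k i) l * co (u k i) l' = ∑ k, s k * co (u k i') l * co (u k i') l' := by
  obtain ⟨i0⟩ := (inferInstance : Nonempty ι)
  have hcone := cone_lemma (DM a i0) (fun L hL => by
    set q : ι → Fin (dd K) → Fin (dd K) → ℝ := fun i l l' => L (Pi.single i (Pi.single l (Pi.single l' 1))) with hq
    set q' : ι → Fin (dd K) → Fin (dd K) → ℝ := fun i l l' => q i l l' - if i = i0 then ∑ j, q j l l' else 0 with hq'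
    have hq'sum : ∀ l l', ∑ i, q' i l l' = 0 := by
      intro l l'
      simp only [hq']
      rw [Finset.sum_sub_distrib, Finset.sum_ite_eq' univ i0, if_pos (Finset.mem_univ _), sub_self]
    set B : ι → mixedSpace K →ₗ[ℝ] mixedSpace K →ₗ[ℝ] ℝ := fun i => BB (q' i) with hB
    have hB0 : ∀ x y, ∑ i, B i x y = 0 := by
      intro x y
      simp only [hB, BB_apply]
      rw [Finset.sum_comm]
      apply Finset.sum_eq_zero
      intro l _
      rw [Finset.sum_comm]
      apply Finset.sum_eq_zero
      intro l' _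
      rw [← Finset.sum_mul, hq'sum, zero_mul]
    have hPhi : ∀ u : Lam a, Phi B (fun i => mixedEmbedding K (u.1 i)) = L (DM a i0 u) := by
      intro u
      rw [func_eq L (DM a i0 u)]
      unfold Phi DM
      simp only [hB, BB_apply, bR_repr, hq', sub_mul, ite_mul, zero_mul, Finset.sum_sub_distrib]
      have e1 : ∑ i, ∑ l, ∑ l', (if i = i0 then (∑ j, q j l l') * ((co (u.1 i) l : ℝ) * co (u.1 i) l') else 0) =
          ∑ i, ∑ l, ∑ l', (co (u.1 i0) l : ℝ) * co (u.1 i0) l' * q i l l' := by
        rw [Finset.sum_eq_single i0]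
        · simp only [if_true]
          rw [Finset.sum_comm (s := univ) (t := univ) (f := fun i l => ∑ l', (co (u.1 i0) l : ℝ) * co (u.1 i0) l' * q i l l')]
          refine Finset.sum_congr rfl fun l _ => ?_
          rw [Finset.sum_comm]
          refine Finset.sum_congr rfl fun l' _ => ?_
          rw [Finset.sum_mul]
          refine Finset.sum_congr rfl fun i _ => ?_
          ring
        · intro b _ hb
          simp [hb]
        · intro h; exact absurd (Finset.mem_univ _) h
      rw [e1]
      congr 1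
      refine Finset.sum_congr rfl fun i _ => Finset.sum_congr rfl fun l _ => Finset.sum_congr rfl fun l' _ => ?_
      ring
    have hpos : ∀ w : ι → mixedSpace K, ∑ i, mixedEmbedding K (a i) * w i = 0 → 0 ≤ Phi B w := by
      refine Phi_nonneg a i0 (ha i0) B fun u hu => ?_
      have := hL ⟨u, hu⟩
      rw [← hPhi] at this
      exact this
    intro u
    rw [← hPhi]
    refine Phi_zero a ha hstrict B hB0 hpos _ ?_
    have h1 : ∑ i, a i * u.1 i = 0 := u.2
    have h2 := congrArg (fun x : 𝓞 K => mixedEmbedding K (algebraMap (𝓞 K) K x)) h1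
    simp only [map_sum, map_mul, map_zero] at h2
    exact h2)
  -- a finite set of generators
  obtain ⟨U, hU⟩ : (⊤ : Submodule ℤ (Lam a)).FG := Module.finite_def.1 inferInstance
  obtain ⟨s, hs0, hsU, hsum⟩ := hcone U
  set N := Fintype.card s.support with hN
  set e : s.support ≃ Fin N := Fintype.equivFin _ with he
  have htrans : ∀ F : Lam a → ℝ, ∑ k : Fin N, F (e.symm k).1 = ∑ u ∈ s.support, F u := by
    intro F
    rw [← Finset.sum_coe_sort s.support F]
    exact e.symm.sum_comp (fun u : s.support => F u.1)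
  refine ⟨N, fun k => ((e.symm k).1 : Lam a).1, fun k => s (e.symm k).1, fun k => ?_, fun k => ?_, fun w hw => ?_, ?_⟩
  · have h1 := (e.symm k).2
    rw [Finsupp.mem_support_iff] at h1
    exact lt_of_le_of_ne (hs0 _) (Ne.symm h1)
  · exact (e.symm k).1.2
  · -- generation
    have h1 : (⟨w, hw⟩ : Lam a) ∈ Submodule.span ℤ (U : Set (Lam a)) := by rw [hU]; trivial
    have h2 : (U : Set (Lam a)) ⊆ Set.range fun k : Fin N => ((e.symm k).1 : Lam a) := by
      intro u hu
      have h3 : u ∈ s.support := by
        rw [Finsupp.mem_support_iff]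
        exact (hsU u hu).ne'
      exact ⟨e ⟨u, h3⟩, by simp⟩
    have h3 := Submodule.span_mono (R := ℤ) h2 h1
    rw [Submodule.mem_span_range_iff_exists_fun] at h3
    obtain ⟨g, hg⟩ := h3
    refine ⟨g, fun i => ?_⟩
    have h4 := congrArg (fun x : Lam a => x.1 i) hg
    simp only [Submodule.coe_sum, Submodule.coe_smul, Finset.sum_apply, Pi.smul_apply] at h4
    exact h4.symm
  · have hmain : ∀ i l l', ∑ u ∈ s.support, s u * (co (u.1 i) l : ℝ) * co (u.1 i) l' =
        ∑ u ∈ s.support, s u * (co (u.1 i0) l : ℝ) * co (u.1 i0) l' := by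
      intro i l l'
      have h1 := congrArg (fun M => M i l l') hsum
      rw [Finsupp.sum] at h1
      simp only [Finset.sum_apply, Pi.smul_apply, smul_eq_mul, Pi.zero_apply] at h1
      unfold DM at h1
      simp only [mul_sub, Finset.sum_sub_distrib] at h1
      have h2 := sub_eq_zero.1 h1
      simp only [mul_assoc]
      exact h2
    intro i i' l l'
    rw [htrans (fun u => s u * (co (u.1 i) l : ℝ) * co (u.1 i) l'),
      htrans (fun u => s u * (co (u.1 i') l : ℝ) * co (u.1 i') l'), hmain i, hmain i']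

end Pool.Agent.J4.H31.SM
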