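import Mathlib
import Pool.Agent.J4.H31.SM.Cov

/-! Solutions with a given coordinate and the other coordinates smaller by a constant factor. -/

set_option autoImplicit false
set_option linter.unusedSectionVars false

open NumberField NumberField.mixedEmbedding NumberField.InfinitePlace Finset IsDedekindDomain
open scoped Classical

namespace Pool.Agent.J4.H31.SM

variable {K : Type} [Field K] [NumberField K] {ι : Type} [Fintype ι]

/-- the height of an integer -/
noncomputable def hh (y : 𝓞 K) : ℝ := ‖mixedEmbedding K (y : K)‖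

lemma hh_nonneg (y : 𝓞 K) : 0 ≤ hh y := norm_nonneg _

lemma norm_le_iff_place {x : mixedSpace K} {B : ℝ} : ‖x‖ ≤ B ↔ ∀ v : InfinitePlace K, normAtPlace v x ≤ B := by
  rw [norm_eq_sup'_normAtPlace, Finset.sup'_le_iff]
  simp

lemma place_le_norm (v : InfinitePlace K) (x : mixedSpace K) : normAtPlace v x ≤ ‖x‖ :=
  norm_le_iff_place.1 (le_refl _) v

lemma place_le_hh (v : InfinitePlace K) (y : 𝓞 K) : v (y : K) ≤ hh y := by
  have := place_le_norm v (mixedEmbedding K (y : K))
  rwa [normAtPlace_apply] at this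

lemma hh_le_iff {y : 𝓞 K} {B : ℝ} : hh y ≤ B ↔ ∀ v : InfinitePlace K, v (y : K) ≤ B := by
  unfold hh
  rw [norm_le_iff_place]
  simp

/-- finiteness of the set of integers of bounded height -/
lemma finite_hh (B : ℝ) : {y : 𝓞 K | hh y ≤ B}.Finite := by
  have h := Embeddings.finite_of_norm_le K ℂ B
  refine (h.preimage (f := fun y : 𝓞 K => (y : K)) (fun x _ y _ hxy => by
    exact RingOfIntegers.ext hxy)).subset ?_
  intro y hy
  refine ⟨y.2, fun φ => ?_⟩
  have h1 : hh y ≤ B := hy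
  rw [hh_le_iff] at h1
  exact h1 (InfinitePlace.mk φ)

section surj

variable (a : ι → 𝓞 K) (ha : ∀ i, a i ≠ 0)
  (hfin : ∀ v : HeightOneSpectrum (𝓞 K), ∀ i, ∃ j, j ≠ i ∧ v.valuation K (a i : K) ≤ v.valuation K (a j : K))
  (hne : ∀ i : ι, ∃ j, j ≠ i)

include ha hfin hne

lemma mem_ideal (i : ι) : a i ∈ Ideal.span (a '' {j | j ≠ i}) := by
  by_contra hno
  set J := Ideal.span (a '' {j | j ≠ i}) with hJ
  have hproper : J.colon (Ideal.span {a i}) ≠ ⊤ := by
    intro htop
    have h1 : (1 : 𝓞 K) ∈ J.colon (Ideal.span {a i}) := by rw [htop]; trivial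
    rw [Submodule.mem_colon] at h1
    have := h1 (a i) (Ideal.mem_span_singleton_self _)
    rw [one_smul] at this
    exact hno this
  obtain ⟨M, hM, hle⟩ := Ideal.exists_le_maximal _ hproper
  obtain ⟨j0, hj0⟩ := hne i
  have hmem : ∀ j, j ≠ i → a j ∈ J := fun j hj => Ideal.subset_span ⟨j, hj, rfl⟩
  have hMne : M ≠ ⊥ := by
    intro hb
    have h1 : a j0 ∈ J.colon (Ideal.span {a i}) := by
      rw [Submodule.mem_colon]
      intro x _
      rw [smul_eq_mul]
      exact Ideal.mul_mem_right _ _ (hmem j0 hj0)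
    have h2 := hle h1
    rw [hb, Ideal.mem_bot] at h2
    exact ha j0 h2
  obtain ⟨j, hj, hv⟩ := hfin ⟨M, hM.isPrime, hMne⟩ i
  set v : HeightOneSpectrum (𝓞 K) := ⟨M, hM.isPrime, hMne⟩ with hvdef
  have haj : (a j : K) ≠ 0 := by simpa using ha j
  have hle1 : v.valuation K ((a i : K) / (a j : K)) ≤ 1 := by
    rw [map_div₀]
    have h0 : 0 < v.valuation K (a j : K) := by
      rw [zero_lt_iff]
      exact (Valuation.ne_zero_iff _).2 haj
    exact (div_le_one₀ h0).2 hv
  obtain ⟨n, d, hnd⟩ := HeightOneSpectrum.exists_primeCompl_mul_eq_of_integer v _ hle1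
  have h3 : a i * d = a j * n := by
    have : ((a i * d : 𝓞 K) : K) = ((a j * n : 𝓞 K) : K) := by
      show algebraMap (𝓞 K) K (a i * d) = algebraMap (𝓞 K) K (a j * n)
      rw [map_mul, map_mul, ← hnd]
      show (a i : K) * (algebraMap (𝓞 K) K d) = (a j : K) * ((a i : K) / (a j : K) * algebraMap (𝓞 K) K d)
      field_simp
    exact RingOfIntegers.ext this
  apply d.2
  apply hle
  rw [Submodule.mem_colon]
  intro x hx
  obtain ⟨z, rfl⟩ := Ideal.mem_span_singleton'.1 hx
  rw [smul_eq_mul]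
  have h4 : (d : 𝓞 K) * (z * a i) = z * (n * a j) := by
    rw [mul_comm n (a j), ← h3]
    ring
  rw [h4]
  exact Ideal.mul_mem_left _ _ (Ideal.mul_mem_left _ _ (hmem j hj))

lemma surj (i : ι) (y : 𝓞 K) : ∃ v : ι → 𝓞 K, ∑ j, a j * v j = 0 ∧ v i = y := by
  have h1 := mem_ideal a ha hfin hne i
  -- a linear combination
  have h2 : ∀ x ∈ Ideal.span (a '' {j | j ≠ i}), ∃ c : ι → 𝓞 K, c i = 0 ∧ x = ∑ j, a j * c j := by
    intro x hx
    induction hx using Submodule.span_induction with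
    | mem x hx =>
      obtain ⟨j, hj, rfl⟩ := hx
      refine ⟨Pi.single j 1, ?_, ?_⟩
      · rw [Pi.single_eq_of_ne]
        exact fun h => hj h.symm
      · rw [Finset.sum_eq_single j]
        · simp
        · intro b _ hb
          simp [hb]
        · intro h; exact absurd (Finset.mem_univ _) h
    | zero => exact ⟨0, rfl, by simp⟩
    | add x y _ _ hx hy =>
      obtain ⟨c, hc, rfl⟩ := hx
      obtain ⟨c', hc', rfl⟩ := hy
      refine ⟨c + c', by simp [hc, hc'], ?_⟩
      simp only [Pi.add_apply, mul_add, Finset.sum_add_distrib]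
    | smul t x _ hx =>
      obtain ⟨c, hc, rfl⟩ := hx
      refine ⟨fun j => t * c j, by simp [hc], ?_⟩
      rw [smul_eq_mul, Finset.mul_sum]
      exact Finset.sum_congr rfl fun j _ => by ring
  obtain ⟨c, hc, hca⟩ := h2 _ h1
  refine ⟨fun j => if j = i then y else -(c j * y), ?_, by simp⟩
  rw [← add_sum_erase _ _ (mem_univ i)]
  have h3 : ∑ j ∈ univ.erase i, a j * (if j = i then y else -(c j * y)) = -((∑ j, a j * c j) * y) := by
    rw [← add_sum_erase univ (fun j => a j * c j) (mem_univ i), hc, mul_zero, zero_add, Finset.sum_mul,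
      ← Finset.sum_neg_distrib]
    refine Finset.sum_congr rfl fun j hj => ?_
    rw [if_neg (ne_of_mem_erase hj)]
    ring
  rw [h3, ← hca]
  show a i * (if i = i then y else -(c i * y)) + -(a i * y) = 0
  rw [if_pos rfl]
  ring

end surj

/-- multipliers smaller than one -/
lemma exists_small (a : ι → 𝓞 K) (ha : ∀ i, a i ≠ 0)
    (hstrict : ∀ v : InfinitePlace K, ∀ i, v (a i : K) < ∑ j ∈ univ.erase i, v (a j : K)) (i : ι) :
    ∃ (l : ι → K) (ρ : ℝ), 0 ≤ ρ ∧ ρ < 1 ∧ l i = 1 ∧ ∑ j, (a j : K) * l j = 0 ∧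
      ∀ j, j ≠ i → ∀ v : InfinitePlace K, v (l j) ≤ ρ := by
  set S : InfinitePlace K → ℝ := fun v => ∑ j ∈ univ.erase i, v (a j : K) with hS
  have hr : ∀ (v : InfinitePlace K) j, 0 < v (a j : K) := fun v j => (v.pos_iff).2 (by simpa using ha j)
  have hS0 : ∀ v, 0 < S v := fun v => (hr v i).trans (hstrict v i)
  set w : ι → mixedSpace K := fun j => if j = i then 1 else
    (fun v => -((mixedEmbedding K (a i : K)).1 v * (|(mixedEmbedding K (a j : K)).1 v| / (mixedEmbedding K (a j : K)).1 v)) / S v.1,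
     fun v => -((mixedEmbedding K (a i : K)).2 v * (‖(mixedEmbedding K (a j : K)).2 v‖ / (mixedEmbedding K (a j : K)).2 v)) / S v.1) with hw
  have habsR : ∀ (v : {v : InfinitePlace K // IsReal v}) j, |(mixedEmbedding K (a j : K)).1 v| = v.1 (a j : K) := by
    intro v j
    rw [mixedEmbedding_apply_isReal, ← Real.norm_eq_abs, norm_embedding_of_isReal]
  have habsC : ∀ (v : {v : InfinitePlace K // IsComplex v}) j, ‖(mixedEmbedding K (a j : K)).2 v‖ = v.1 (a j : K) := by
    intro v j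
    rw [mixedEmbedding_apply_isComplex, norm_embedding_eq]
  have hwi : w i = 1 := by simp only [hw, if_true]
  have hwsum : ∑ j, mixedEmbedding K (a j) * w j = 0 := by
    rw [← add_sum_erase _ _ (mem_univ i), hwi, mul_one]
    ext1
    · rw [Prod.fst_add, Prod.fst_sum]
      funext v
      rw [Pi.add_apply, Finset.sum_apply]
      have h1 : ∀ j ∈ univ.erase i, (mixedEmbedding K (a j : K) * w j).1 v =
          -((mixedEmbedding K (a i : K)).1 v / S v.1) * v.1 (a j : K) := by
        intro j hj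
        have hne : (mixedEmbedding K (a j : K)).1 v ≠ 0 := by
          intro h
          have := habsR v j
          rw [h, abs_zero] at this
          exact (hr v.1 j).ne this
        simp only [hw, if_neg (ne_of_mem_erase hj), Prod.fst_mul, Pi.mul_apply]
        rw [← habsR v j]
        have := (hS0 v.1).ne'
        field_simp
      rw [Finset.sum_congr rfl h1, ← Finset.mul_sum]
      show (mixedEmbedding K (a i : K)).1 v + -((mixedEmbedding K (a i : K)).1 v / S v.1) * S v.1 = 0
      have := (hS0 v.1).ne'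
      field_simp
      ring
    · rw [Prod.snd_add, Prod.snd_sum]
      funext v
      rw [Pi.add_apply, Finset.sum_apply]
      have h1 : ∀ j ∈ univ.erase i, (mixedEmbedding K (a j : K) * w j).2 v =
          -((mixedEmbedding K (a i : K)).2 v / ((S v.1 : ℝ) : ℂ)) * ((v.1 (a j : K) : ℝ) : ℂ) := by
        intro j hj
        have hne : (mixedEmbedding K (a j : K)).2 v ≠ 0 := by
          intro h
          have := habsC v j
          rw [h, norm_zero] at this
          exact (hr v.1 j).ne this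
        simp only [hw, if_neg (ne_of_mem_erase hj), Prod.snd_mul, Pi.mul_apply]
        rw [← habsC v j]
        have : ((S v.1 : ℝ) : ℂ) ≠ 0 := by exact_mod_cast (hS0 v.1).ne'
        field_simp
      rw [Finset.sum_congr rfl h1, ← Finset.mul_sum, ← Complex.ofReal_sum]
      show (mixedEmbedding K (a i : K)).2 v + -((mixedEmbedding K (a i : K)).2 v / ((S v.1 : ℝ) : ℂ)) * ((S v.1 : ℝ) : ℂ) = 0
      have : ((S v.1 : ℝ) : ℂ) ≠ 0 := by exact_mod_cast (hS0 v.1).ne'
      field_simp
      ring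
  have hwnorm : ∀ j, j ≠ i → ∀ v : InfinitePlace K, normAtPlace v (w j) = v (a i : K) / S v := by
    intro j hj v
    rcases isReal_or_isComplex v with hv | hv
    · rw [normAtPlace_apply_of_isReal hv]
      simp only [hw, if_neg hj]
      have hne : (mixedEmbedding K (a j : K)).1 ⟨v, hv⟩ ≠ 0 := by
        intro h
        have := habsR ⟨v, hv⟩ j
        rw [h, abs_zero] at this
        exact (hr v j).ne this
      rw [Real.norm_eq_abs, abs_div, abs_neg, abs_mul, abs_div, abs_abs, div_self (abs_ne_zero.2 hne), mul_one,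
        habsR, abs_of_pos (hS0 v)]
    · rw [normAtPlace_apply_of_isComplex hv]
      simp only [hw, if_neg hj]
      have hne : (mixedEmbedding K (a j : K)).2 ⟨v, hv⟩ ≠ 0 := by
        intro h
        have := habsC ⟨v, hv⟩ j
        rw [h, norm_zero] at this
        exact (hr v j).ne this
      rw [norm_div, norm_neg, norm_mul, norm_div, Complex.norm_real, norm_norm, div_self (norm_ne_zero_iff.2 hne), mul_one,
        habsC, Complex.norm_real, Real.norm_of_nonneg (hS0 v).le]
  -- the maximum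
  obtain ⟨ρ1, hρ0, hρ1, hρ⟩ : ∃ ρ1 : ℝ, 0 ≤ ρ1 ∧ ρ1 < 1 ∧ ∀ v : InfinitePlace K, v (a i : K) / S v ≤ ρ1 := by
    obtain ⟨v0, hv0⟩ := Finite.exists_max (fun v : InfinitePlace K => v (a i : K) / S v)
    refine ⟨_, ?_, ?_, hv0⟩
    · exact div_nonneg (hr v0 i).le (hS0 v0).le
    · rw [div_lt_one (hS0 v0)]
      exact hstrict v0 i
  obtain ⟨u, hu, hdist⟩ := dense2 a i (ha i) w hwsum (show 0 < (1 - ρ1) / 4 by linarith)
  have hdv : ∀ j v, normAtPlace v (mixedEmbedding K (u j) - w j) ≤ (1 - ρ1) / 4 := fun j v =>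
    (place_le_norm v _).trans (hdist j).le
  have hui : ∀ v : InfinitePlace K, (3 + ρ1) / 4 ≤ v (u i) := by
    intro v
    have h1 := hdv i v
    have h2 := normAtPlace_add_le v (w i - mixedEmbedding K (u i)) (mixedEmbedding K (u i))
    rw [sub_add_cancel, hwi, map_one, normAtPlace_apply] at h2
    have h3 : normAtPlace v (1 - mixedEmbedding K (u i)) = normAtPlace v (mixedEmbedding K (u i) - w i) := by
      rw [← normAtPlace_neg, neg_sub, hwi]
    rw [h3] at h2
    linarith
  have huj : ∀ j, j ≠ i → ∀ v : InfinitePlace K, v (u j) ≤ (3 * ρ1 + 1) / 4 := by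
    intro j hj v
    have h1 := hdv j v
    have h2 := normAtPlace_add_le v (mixedEmbedding K (u j) - w j) (w j)
    rw [sub_add_cancel, normAtPlace_apply, hwnorm j hj] at h2
    have := hρ v
    linarith
  obtain ⟨v0⟩ := (inferInstance : Nonempty (InfinitePlace K))
  have hui0 : u i ≠ 0 := by
    intro h
    have := hui v0
    rw [h, map_zero] at this
    linarith
  refine ⟨fun j => u j / u i, (3 * ρ1 + 1) / (3 + ρ1), by positivity, ?_, div_self hui0, ?_, fun j hj v => ?_⟩
  · rw [div_lt_one (by linarith)]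
    linarith
  · have : ∀ j, (a j : K) * (u j / u i) = ((a j : K) * u j) / u i := fun j => by ring
    simp only [this]
    rw [← Finset.sum_div, hu, zero_div]
  · rw [map_div₀]
    have h1 := hui v
    have h2 := huj j hj v
    have h3 : 0 < v (u i) := by linarith
    rw [div_le_div_iff₀ h3 (by linarith)]
    have h4 : 0 ≤ v (u j) := apply_nonneg _ _
    nlinarith

lemma residue (D : ℕ) (hD : 0 < D) (y : 𝓞 K) : ∃ (q : 𝓞 K) (t : Fin (dd K) → Fin D),
    y = (D : 𝓞 K) * q + ∑ l, ((t l : ℕ) : 𝓞 K) * bZ K l := by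
  have hD' : (0 : ℤ) < D := by exact_mod_cast hD
  refine ⟨∑ l, ((co y l / D : ℤ) : 𝓞 K) * bZ K l, fun l => ⟨(co y l % D).toNat, ?_⟩, ?_⟩
  · have h1 := Int.emod_lt_of_pos (co y l) hD'
    have h2 := Int.emod_nonneg (co y l) hD'.ne'
    omega
  · rw [Finset.mul_sum, ← Finset.sum_add_distrib]
    conv_lhs => rw [← (bZ K).sum_repr y]
    refine Finset.sum_congr rfl fun l _ => ?_
    have h2 := Int.emod_nonneg (co y l) hD'.ne'
    have h3 : (((co y l % D).toNat : ℕ) : 𝓞 K) = ((co y l % D : ℤ) : 𝓞 K) := by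
      rw [← Int.cast_natCast, Int.toNat_of_nonneg h2]
    show (bZ K).repr y l • bZ K l = (D : 𝓞 K) * (((co y l / D : ℤ) : 𝓞 K) * bZ K l) +
      (((co y l % D).toNat : ℕ) : 𝓞 K) * bZ K l
    rw [h3, zsmul_eq_mul]
    have h4 : (bZ K).repr y l = D * (co y l / D) + co y l % D := by
      show co y l = _
      exact (Int.mul_ediv_add_emod _ _).symm
    rw [h4]
    push_cast
    ring

/-- contraction for one index -/
lemma contract1 (a : ι → 𝓞 K) (ha : ∀ i, a i ≠ 0)
    (hstrict : ∀ v : InfinitePlace K, ∀ i, v (a i : K) < ∑ j ∈ univ.erase i, v (a j : K))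
    (hfin : ∀ v : HeightOneSpectrum (𝓞 K), ∀ i, ∃ j, j ≠ i ∧ v.valuation K (a i : K) ≤ v.valuation K (a j : K))
    (hne : ∀ i : ι, ∃ j, j ≠ i) (i : ι) :
    ∃ ρ C : ℝ, 0 ≤ ρ ∧ ρ < 1 ∧ 0 ≤ C ∧ ∀ y : 𝓞 K, ∃ v : ι → 𝓞 K, ∑ j, a j * v j = 0 ∧ v i = y ∧
      ∀ j, j ≠ i → hh (v j) ≤ ρ * hh y + C := by
  obtain ⟨l, ρ, hρ0, hρ1, hli, hl, hlj⟩ := exists_small a ha hstrict i
  obtain ⟨D, μ, hD, hμ⟩ := common_denom l
  choose c hc hci using surj a ha hfin hne i
  set R : (Fin (dd K) → Fin D) → 𝓞 K := fun t => ∑ l, ((t l : ℕ) : 𝓞 K) * bZ K l with hR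
  set C : ℝ := ∑ t, (hh (R t) + ∑ j, hh (c (R t) j)) with hC
  have hCt : ∀ t j, hh (R t) + hh (c (R t) j) ≤ C := by
    intro t j
    have h1 : hh (c (R t) j) ≤ ∑ j, hh (c (R t) j) :=
      Finset.single_le_sum (f := fun j => hh (c (R t) j)) (fun j _ => hh_nonneg _) (mem_univ j)
    have h2 : hh (R t) + ∑ j, hh (c (R t) j) ≤ C :=
      Finset.single_le_sum (f := fun t => hh (R t) + ∑ j, hh (c (R t) j))
        (fun t _ => add_nonneg (hh_nonneg _) (Finset.sum_nonneg fun j _ => hh_nonneg _)) (mem_univ t)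
    linarith
  have hC0 : 0 ≤ C := Finset.sum_nonneg fun t _ => add_nonneg (hh_nonneg _) (Finset.sum_nonneg fun j _ => hh_nonneg _)
  refine ⟨ρ, C, hρ0, hρ1, hC0, fun y => ?_⟩
  obtain ⟨q, t, hy⟩ := residue D hD y
  have hy' : y = (D : 𝓞 K) * q + R t := hy
  refine ⟨fun j => μ j * q + c (R t) j, ?_, ?_, fun j hj => ?_⟩
  · simp only [mul_add, Finset.sum_add_distrib]
    rw [hc (R t), add_zero]
    have h1 : ∑ j, a j * μ j = 0 := by
      have : ((∑ j, a j * μ j : 𝓞 K) : K) = 0 := by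
        show algebraMap (𝓞 K) K (∑ j, a j * μ j) = 0
        rw [map_sum]
        simp only [map_mul]
        have h3 : ∀ j, (algebraMap (𝓞 K) K) (a j) * (algebraMap (𝓞 K) K) (μ j) = (D : K) * ((a j : K) * l j) := by
          intro j
          rw [show (algebraMap (𝓞 K) K) (μ j) = (D : K) * l j from hμ j]
          ring
        simp only [h3]
        rw [← Finset.mul_sum, hl, mul_zero]
      exact_mod_cast this
    have : ∀ j, a j * (μ j * q) = (a j * μ j) * q := fun j => by ring
    simp only [this]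
    rw [← Finset.sum_mul, h1, zero_mul]
  · show μ i * q + c (R t) i = y
    rw [hci (R t), hy']
    congr 2
    apply RingOfIntegers.ext
    rw [hμ i, hli, mul_one]
    simp
  · rw [hh_le_iff]
    intro v
    have h1 : ((μ j * q + c (R t) j : 𝓞 K) : K) = l j * ((y : K) - (R t : K)) + (c (R t) j : K) := by
      have h2 : ((y : 𝓞 K) : K) = (D : K) * (q : K) + (R t : K) := by
        rw [hy']
        show algebraMap (𝓞 K) K ((D : 𝓞 K) * q + R t) = _
        rw [map_add, map_mul, map_natCast]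
      show algebraMap (𝓞 K) K (μ j * q + c (R t) j) = _
      rw [h2, map_add, map_mul]
      rw [show (algebraMap (𝓞 K) K) (μ j) = (D : K) * l j from hμ j]
      ring
    rw [h1]
    have h2 := hCt t j
    have h3 := place_le_hh v (c (R t) j)
    have h4 := place_le_hh v (R t)
    have h5 := place_le_hh v y
    have h6 : v ((y : K) - (R t : K)) ≤ v (y : K) + v (R t : K) := by
      have := v.1.add_le (y : K) (-(R t : K))
      rw [← sub_eq_add_neg, map_neg_eq_map] at this
      exact this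
    have h7 : v (l j * ((y : K) - (R t : K)) + (c (R t) j : K)) ≤
        v (l j) * v ((y : K) - (R t : K)) + v (c (R t) j : K) := by
      have := v.1.add_le (l j * ((y : K) - (R t : K))) (c (R t) j : K)
      rw [map_mul] at this
      exact this
    have h8 : v (l j) * v ((y : K) - (R t : K)) ≤ ρ * (hh y + hh (R t)) := by
      apply mul_le_mul (hlj j hj v) (by linarith) (apply_nonneg _ _) hρ0
    have h9 : ρ * hh (R t) ≤ hh (R t) := mul_le_of_le_one_left (hh_nonneg _) hρ1.le
    nlinarith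

/-- contraction -/
theorem contract (a : ι → 𝓞 K) (ha : ∀ i, a i ≠ 0)
    (hstrict : ∀ v : InfinitePlace K, ∀ i, v (a i : K) < ∑ j ∈ univ.erase i, v (a j : K))
    (hfin : ∀ v : HeightOneSpectrum (𝓞 K), ∀ i, ∃ j, j ≠ i ∧ v.valuation K (a i : K) ≤ v.valuation K (a j : K))
    (hne : ∀ i : ι, ∃ j, j ≠ i) :
    ∃ ρ C : ℝ, 0 ≤ ρ ∧ ρ < 1 ∧ 0 ≤ C ∧ ∀ (i : ι) (y : 𝓞 K), ∃ v : ι → 𝓞 K, ∑ j, a j * v j = 0 ∧ v i = y ∧
      ∀ j, j ≠ i → hh (v j) ≤ ρ * hh y + C := by
  rcases isEmpty_or_nonempty ι with hι | hι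
  · exact ⟨0, 0, le_refl _, one_pos, le_refl _, fun i => (hι.false i).elim⟩
  choose ρ C hρ0 hρ1 hC0 h using contract1 a ha hstrict hfin hne
  obtain ⟨i1, hi1⟩ := Finite.exists_max ρ
  obtain ⟨i2, hi2⟩ := Finite.exists_max C
  refine ⟨ρ i1, C i2, hρ0 _, hρ1 _, hC0 _, fun i y => ?_⟩
  obtain ⟨v, h1, h2, h3⟩ := h i y
  refine ⟨v, h1, h2, fun j hj => (h3 j hj).trans ?_⟩
  have := mul_le_mul_of_nonneg_right (hi1 i) (hh_nonneg y)
  have := hi2 i
  linarith

end Pool.Agent.J4.H31.SM
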