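import Mathlib

/-! One-dimensional theta sums. -/

set_option autoImplicit false

open Complex

namespace Pool.Agent.J4.H31.SM

lemma summable_exp_sq {c : ℝ} (hc : 0 < c) : Summable fun n : ℤ => Real.exp (-c * (n : ℝ) ^ 2) := by
  have h := (summable_jacobiTheta₂_term_iff 0 (I * (c / Real.pi : ℝ))).2 (by
    simp only [mul_im, I_re, I_im, ofReal_re, ofReal_im]
    have := Real.pi_pos
    simp
    positivity)
  have h2 := h.norm
  refine h2.congr fun n => ?_
  rw [norm_jacobiTheta₂_term]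
  congr 1
  simp
  have := Real.pi_ne_zero
  field_simp

lemma summable_exp_sq_shift {c : ℝ} (hc : 0 < c) (x : ℝ) :
    Summable fun n : ℤ => Real.exp (-c * ((n : ℝ) - x) ^ 2) := by
  refine Summable.of_nonneg_of_le (fun n => (Real.exp_pos _).le) (fun n => ?_)
    ((summable_exp_sq (half_pos hc)).mul_left (Real.exp (c * x ^ 2)))
  rw [← Real.exp_add]
  apply Real.exp_le_exp.2
  nlinarith [sq_nonneg ((n : ℝ) - 2 * x)]

/-- the theta sum -/
noncomputable def T (s t : ℝ) : ℝ := ∑' m : ℤ, Real.exp (-(Real.pi * s * (m - t) ^ 2))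

lemma summable_T {s : ℝ} (hs : 0 < s) (t : ℝ) : Summable fun m : ℤ => Real.exp (-(Real.pi * s * (m - t) ^ 2)) := by
  have := summable_exp_sq_shift (c := Real.pi * s) (by positivity) t
  refine this.congr fun m => ?_
  congr 1
  ring

/-- the theta transformation -/
lemma theta_id {s : ℝ} (hs : 0 < s) (t : ℝ) :
    ∑' g : ℤ, ((Real.exp (-(Real.pi * g ^ 2 / s)) : ℝ) : ℂ) * cexp (2 * Real.pi * I * g * t) =
      ((Real.sqrt s * T s t : ℝ) : ℂ) := by
  have ha : 0 < ((1 / s : ℝ) : ℂ).re := by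
    rw [ofReal_re]; positivity
  have h := Complex.tsum_exp_neg_quadratic ha (I * t)
  have e1 : ∀ g : ℤ, cexp (-Real.pi * ((1 / s : ℝ) : ℂ) * g ^ 2 + 2 * Real.pi * (I * t) * g) =
      ((Real.exp (-(Real.pi * g ^ 2 / s)) : ℝ) : ℂ) * cexp (2 * Real.pi * I * g * t) := by
    intro g
    rw [ofReal_exp, ← Complex.exp_add]
    congr 1
    push_cast
    ring
  have e2 : ∀ g : ℤ, cexp (-Real.pi / ((1 / s : ℝ) : ℂ) * (g + I * (I * t)) ^ 2) =
      ((Real.exp (-(Real.pi * s * (g - t) ^ 2)) : ℝ) : ℂ) := by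
    intro g
    rw [ofReal_exp]
    congr 1
    have hsc : (s : ℂ) ≠ 0 := by exact_mod_cast hs.ne'
    have : I * (I * (t : ℂ)) = -t := by rw [← mul_assoc, I_mul_I]; ring
    rw [this]
    push_cast
    field_simp
    ring
  rw [tsum_congr e1, tsum_congr e2, ← ofReal_tsum] at h
  rw [h, ofReal_mul, T]
  congr 1
  have h3 : ((1 / s : ℝ) : ℂ) ^ (1 / 2 : ℂ) = ((Real.sqrt (1 / s) : ℝ) : ℂ) := by
    rw [Real.sqrt_eq_rpow, ofReal_cpow (by positivity)]
    norm_num
  rw [h3, Real.sqrt_div zero_le_one, Real.sqrt_one]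
  push_cast
  rw [one_div_one_div]

lemma T_shift (s t : ℝ) (k : ℤ) : T s (t - k) = T s t := by
  unfold T
  rw [← (Equiv.addRight (-k)).tsum_eq]
  refine tsum_congr fun m => ?_
  simp only [Equiv.coe_addRight]
  congr 3
  push_cast
  ring

lemma summable_abs {c : ℝ} (hc : 0 < c) : Summable fun m : ℤ => Real.exp (-(c * (|(m : ℝ)| - 1))) := by
  have h0 : Summable fun n : ℕ => Real.exp (-(c * ((n : ℝ) - 1))) := by
    have h1 := Real.summable_exp_nat_mul_of_ge (c := -c) (by linarith) (f := fun n => (n : ℝ)) (fun n => le_refl _)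
    refine (h1.mul_left (Real.exp c)).congr fun n => ?_
    rw [← Real.exp_add]
    congr 1
    ring
  refine Summable.of_nat_of_neg ?_ ?_
  · refine h0.congr fun n => ?_
    simp
  · refine h0.congr fun n => ?_
    simp

/-- the main term of the theta sum -/
lemma T_bound {σ : ℝ} (hσ : 0 < σ) : ∃ C : ℝ, 0 ≤ C ∧ ∀ s : ℝ, σ ≤ s → ∀ t : ℝ,
    |T s t - Real.exp (-(Real.pi * s * (t - round t) ^ 2))| ≤ C * Real.exp (-(Real.pi * s / 4)) := by
  have hc : 0 < Real.pi * σ / 4 := by positivity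
  refine ⟨∑' m : ℤ, Real.exp (-(Real.pi * σ / 4 * (|(m : ℝ)| - 1))), tsum_nonneg fun m => (Real.exp_pos _).le,
    fun s hs t => ?_⟩
  have hs0 : 0 < s := hσ.trans_le hs
  rw [← T_shift s t (round t)]
  set u := t - round t with hu
  have hu2 : |u| ≤ 1 / 2 := abs_sub_round t
  have hsum := summable_T hs0 u
  have h1 : T s u = Real.exp (-(Real.pi * s * u ^ 2)) +
      ∑' m : ℤ, if m = 0 then 0 else Real.exp (-(Real.pi * s * (m - u) ^ 2)) := by
    unfold T
    rw [hsum.tsum_eq_add_tsum_ite 0]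
    congr 2
    push_cast
    ring
  rw [h1, add_sub_cancel_left]
  have hbound : ∀ m : ℤ, (if m = 0 then 0 else Real.exp (-(Real.pi * s * (m - u) ^ 2))) ≤
      Real.exp (-(Real.pi * σ / 4 * (|(m : ℝ)| - 1))) * Real.exp (-(Real.pi * s / 4)) := by
    intro m
    split_ifs with h
    · positivity
    · rw [← Real.exp_add]
      apply Real.exp_le_exp.2
      have hm : 1 ≤ |(m : ℝ)| := by
        have : 1 ≤ |m| := Int.one_le_abs h
        exact_mod_cast this
      have h2 : |(m : ℝ)| / 4 ≤ ((m : ℝ) - u) ^ 2 := by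
        have h3 : |(m : ℝ)| - 1 / 2 ≤ |(m : ℝ) - u| := by
          have := abs_sub_abs_le_abs_sub (m : ℝ) u
          linarith
        have h4 : (|(m : ℝ)| - 1 / 2) ^ 2 ≤ |(m : ℝ) - u| ^ 2 := by
          apply pow_le_pow_left₀ _ h3
          linarith
        rw [sq_abs] at h4
        nlinarith
      have h5 : σ * (|(m : ℝ)| - 1) ≤ s * (|(m : ℝ)| - 1) := mul_le_mul_of_nonneg_right hs (by linarith)
      have hpi := Real.pi_pos
      have h6 : Real.pi * (σ * (|(m : ℝ)| - 1)) ≤ Real.pi * (s * (|(m : ℝ)| - 1)) :=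
        mul_le_mul_of_nonneg_left h5 hpi.le
      have h7 : Real.pi * s * (|(m : ℝ)| / 4) ≤ Real.pi * s * ((m : ℝ) - u) ^ 2 :=
        mul_le_mul_of_nonneg_left h2 (by positivity)
      nlinarith
  have hsum2 := (summable_abs hc).mul_right (Real.exp (-(Real.pi * s / 4)))
  have hnn : ∀ m : ℤ, 0 ≤ (if m = 0 then 0 else Real.exp (-(Real.pi * s * (m - u) ^ 2))) := by
    intro m
    split_ifs
    · exact le_refl _
    · positivity
  rw [abs_of_nonneg (tsum_nonneg hnn), ← tsum_mul_right]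
  exact Summable.tsum_le_tsum hbound (Summable.of_nonneg_of_le hnn hbound hsum2) hsum2

lemma prod_diff {N : ℕ} (b ε : ℝ) (hb : 1 ≤ b) (hε : 0 ≤ ε) : ∀ (A B : Fin N → ℝ), (∀ i, |A i| ≤ b) → (∀ i, |B i| ≤ b) →
    (∀ i, |A i - B i| ≤ ε) → |∏ i, A i - ∏ i, B i| ≤ N * b ^ N * ε := by
  induction N with
  | zero => intro A B _ _ _; simp
  | succ N ih =>
    intro A B hA hB h
    rw [Fin.prod_univ_succ, Fin.prod_univ_succ]
    have h1 := ih (fun i => A i.succ) (fun i => B i.succ) (fun i => hA _) (fun i => hB _) (fun i => h _)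
    have h2 : |∏ i : Fin N, B i.succ| ≤ b ^ N := by
      rw [Finset.abs_prod]
      have := Finset.prod_le_prod (s := Finset.univ) (f := fun i : Fin N => |B i.succ|) (g := fun _ => b)
        (fun i _ => abs_nonneg _) (fun i _ => hB i.succ)
      simpa using this
    have h3 : A 0 * ∏ i : Fin N, A i.succ - B 0 * ∏ i : Fin N, B i.succ =
        A 0 * (∏ i : Fin N, A i.succ - ∏ i : Fin N, B i.succ) + (A 0 - B 0) * ∏ i : Fin N, B i.succ := by ring
    rw [h3]
    refine (abs_add_le _ _).trans ?_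
    rw [abs_mul, abs_mul]
    have h4 : |A 0| * |∏ i : Fin N, A i.succ - ∏ i : Fin N, B i.succ| ≤ b * (N * b ^ N * ε) :=
      mul_le_mul (hA 0) h1 (abs_nonneg _) (by linarith)
    have h5 : |A 0 - B 0| * |∏ i : Fin N, B i.succ| ≤ ε * b ^ N :=
      mul_le_mul (h 0) h2 (abs_nonneg _) hε
    have h6 : ε * b ^ N ≤ ε * b ^ (N + 1) := by
      apply mul_le_mul_of_nonneg_left _ hε
      exact pow_le_pow_right₀ hb (Nat.le_succ N)
    push_cast
    have h7 : b * (N * b ^ N * ε) = N * b ^ (N + 1) * ε := by ring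
    rw [h7] at h4
    nlinarith

lemma hasSum_pi (N : ℕ) : ∀ (f : Fin N → ℤ → ℂ) (_ : ∀ i, Summable fun n => ‖f i n‖),
    HasSum (fun x : Fin N → ℤ => ∏ i : Fin N, f i (x i)) (∏ i : Fin N, ∑' n : ℤ, f i n) ∧
      Summable (fun x : Fin N → ℤ => ‖∏ i : Fin N, f i (x i)‖) := by
  induction N with
  | zero =>
    intro f hf
    constructor
    · simp only [Finset.univ_eq_empty, Finset.prod_empty]
      exact hasSum_unique (fun _ : Fin 0 → ℤ => (1 : ℂ))
    · exact (hasSum_unique _).summable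
  | succ N ih =>
    intro f hf
    have hih := ih (fun i : Fin N => f i.succ) (fun i => hf i.succ)
    have h1 := hih.1
    have h2 := hih.2
    have h3 : HasSum (f 0) (∑' n : ℤ, f 0 n) := (hf 0).of_norm.hasSum
    have h4 := Summable.mul_norm (f := f 0) (g := fun y : Fin N → ℤ => ∏ i : Fin N, f (Fin.succ i) (y i)) (hf 0) h2
    have h5 := h3.mul h1 h4.of_norm
    have he : ∀ x : ℤ × (Fin N → ℤ), ∏ i : Fin (N + 1), f i (Fin.consEquiv (fun _ => ℤ) x i) =
        f 0 x.1 * ∏ i : Fin N, f (Fin.succ i) (x.2 i) := by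
      intro x
      simp [Fin.prod_univ_succ, Fin.consEquiv]
    have he2 : (fun x : Fin (N + 1) → ℤ => ∏ i : Fin (N + 1), f i (x i)) ∘
        (Fin.consEquiv (fun _ => ℤ)) =
        fun x : ℤ × (Fin N → ℤ) => f 0 x.1 * ∏ i : Fin N, f (Fin.succ i) (x.2 i) := funext he
    constructor
    · rw [← (Fin.consEquiv (fun _ => ℤ)).hasSum_iff, he2, Fin.prod_univ_succ]
      exact h5
    · rw [← (Fin.consEquiv (fun _ => ℤ)).summable_iff]
      refine h4.congr fun x => ?_
      simp only [Function.comp_apply]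
      rw [he x]

lemma summable_pi_real {N : ℕ} (f : Fin N → ℤ → ℝ) (hf0 : ∀ i n, 0 ≤ f i n) (hf : ∀ i, Summable (f i)) :
    HasSum (fun x : Fin N → ℤ => ∏ i : Fin N, f i (x i)) (∏ i : Fin N, ∑' n : ℤ, f i n) := by
  have h := (hasSum_pi N (fun i n => (f i n : ℂ)) (fun i => by
    refine (hf i).congr fun n => ?_
    rw [Complex.norm_real, Real.norm_of_nonneg (hf0 i n)])).1
  have e : ∀ i, ∑' n : ℤ, (f i n : ℂ) = ((∑' n : ℤ, f i n : ℝ) : ℂ) := fun i => (ofReal_tsum _).symm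
  simp only [e] at h
  rw [← ofReal_prod] at h
  have h2 : (fun x : Fin N → ℤ => ∏ i : Fin N, (f i (x i) : ℂ)) =
      fun x : Fin N → ℤ => ((∏ i : Fin N, f i (x i) : ℝ) : ℂ) := by
    funext x
    rw [ofReal_prod]
  rw [h2] at h
  exact_mod_cast h

end Pool.Agent.J4.H31.SM
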