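import Mathlib
import Pool.Agent.J4.H31.SM.Theta

/-! Characteristic functions of discrete Gaussian vectors. -/

set_option autoImplicit false

open Complex UnitAddTorus

namespace Pool.Agent.J4.H31.SM

variable {d N : ℕ} {ι : Type}

/-- the coordinates of a combination -/
def Y (c : Fin N → ι → Fin d → ℤ) (i : ι) (g : Fin N → ℤ) : Fin d → ℤ := fun a => ∑ k, g k * c k i a

/-- the weights -/
noncomputable def wt (s : Fin N → ℝ) (r : ℝ) (g : Fin N → ℤ) : ℝ :=
  ∏ k, Real.exp (-(Real.pi * (g k : ℝ) ^ 2 / (s k * r)))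

lemma wt_pos (s : Fin N → ℝ) (r : ℝ) (g : Fin N → ℤ) : 0 < wt s r g :=
  Finset.prod_pos fun _ _ => Real.exp_pos _

/-- the linear forms -/
noncomputable def tt (c : Fin N → ι → Fin d → ℤ) (i : ι) (x : Fin d → ℝ) (k : Fin N) : ℝ := ∑ a, x a * c k i a

lemma summable_wt1 {s r : ℝ} (hs : 0 < s) (hr : 0 < r) :
    Summable fun g : ℤ => Real.exp (-(Real.pi * (g : ℝ) ^ 2 / (s * r))) := by
  have := summable_exp_sq (c := Real.pi / (s * r)) (by positivity)
  refine this.congr fun g => ?_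
  congr 1
  ring

lemma summable_wt {s : Fin N → ℝ} (hs : ∀ k, 0 < s k) {r : ℝ} (hr : 0 < r) : Summable (wt s r) :=
  (summable_pi_real (fun k g => Real.exp (-(Real.pi * (g : ℝ) ^ 2 / (s k * r)))) (fun _ _ => (Real.exp_pos _).le)
    (fun k => summable_wt1 (hs k) hr)).summable

/-- the characteristic function -/
noncomputable def H (c : Fin N → ι → Fin d → ℤ) (s : Fin N → ℝ) (r : ℝ) (i : ι) : C(UnitAddTorus (Fin d), ℂ) :=
  ∑' g : Fin N → ℤ, (wt s r g : ℂ) • mFourier (Y c i g)

lemma summable_H (c : Fin N → ι → Fin d → ℤ) {s : Fin N → ℝ} (hs : ∀ k, 0 < s k) {r : ℝ} (hr : 0 < r) (i : ι) :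
    Summable fun g : Fin N → ℤ => (wt s r g : ℂ) • mFourier (Y c i g) := by
  apply Summable.of_norm
  refine (summable_wt hs hr).congr fun g => ?_
  rw [norm_smul, mFourier_norm, mul_one, Complex.norm_real, Real.norm_of_nonneg (wt_pos s r g).le]

lemma mFourier_apply_coe (n : Fin d → ℤ) (x : Fin d → ℝ) :
    mFourier n (fun a => (x a : UnitAddCircle)) = cexp (2 * Real.pi * I * ((∑ a, x a * n a : ℝ) : ℂ)) := by
  have : mFourier n (fun a => (x a : UnitAddCircle)) = ∏ a, fourier (n a) (x a : UnitAddCircle) := rfl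
  rw [this]
  simp only [fourier_coe_apply]
  rw [← Complex.exp_sum]
  congr 1
  rw [ofReal_sum, Finset.mul_sum]
  refine Finset.sum_congr rfl fun a _ => ?_
  push_cast
  ring

lemma H_apply (c : Fin N → ι → Fin d → ℤ) {s : Fin N → ℝ} (hs : ∀ k, 0 < s k) {r : ℝ} (hr : 0 < r) (i : ι)
    (x : Fin d → ℝ) : H c s r i (fun a => (x a : UnitAddCircle)) =
      ((∏ k, (Real.sqrt (s k * r) * T (s k * r) (tt c i x k)) : ℝ) : ℂ) := by
  have h1 : HasSum (fun g : Fin N → ℤ => ((wt s r g : ℂ) • mFourier (Y c i g)) (fun a => (x a : UnitAddCircle)))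
      (H c s r i (fun a => (x a : UnitAddCircle))) := by
    exact ContinuousMap.hasSum_apply (summable_H c hs hr i).hasSum _
  have h2 : ∀ g : Fin N → ℤ, ((wt s r g : ℂ) • mFourier (Y c i g)) (fun a => (x a : UnitAddCircle)) =
      ∏ k, (((Real.exp (-(Real.pi * (g k : ℝ) ^ 2 / (s k * r))) : ℝ) : ℂ) *
        cexp (2 * Real.pi * I * (g k : ℤ) * (tt c i x k : ℝ))) := by
    intro g
    rw [ContinuousMap.smul_apply, mFourier_apply_coe, Finset.prod_mul_distrib, ← ofReal_prod, ← Complex.exp_sum,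
      smul_eq_mul, wt]
    congr 2
    have h3 : (∑ a, x a * ((Y c i g a : ℤ) : ℝ)) = ∑ k, (g k : ℝ) * tt c i x k := by
      unfold Y tt
      simp only [Finset.mul_sum, Int.cast_sum, Int.cast_mul]
      rw [Finset.sum_comm]
      refine Finset.sum_congr rfl fun k _ => Finset.sum_congr rfl fun a _ => ?_
      ring
    rw [h3, ofReal_sum, Finset.mul_sum]
    refine Finset.sum_congr rfl fun k _ => ?_
    push_cast
    ring
  have h4 := (hasSum_pi N (fun k g => ((Real.exp (-(Real.pi * (g : ℝ) ^ 2 / (s k * r))) : ℝ) : ℂ) *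
        cexp (2 * Real.pi * I * (g : ℤ) * (tt c i x k : ℝ))) (fun k => by
    refine (summable_wt1 (hs k) hr).congr fun g => ?_
    rw [norm_mul, Complex.norm_real, Real.norm_of_nonneg (Real.exp_pos _).le]
    have : 2 * Real.pi * I * (g : ℤ) * (tt c i x k : ℝ) = ((2 * Real.pi * g * tt c i x k : ℝ) : ℂ) * I := by
      push_cast; ring
    rw [this, Complex.norm_exp_ofReal_mul_I, mul_one])).1
  simp only [h2] at h1
  rw [h1.unique h4, ofReal_prod]
  refine Finset.prod_congr rfl fun k _ => ?_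
  exact theta_id (mul_pos (hs k) hr) _

/-- the exponent -/
noncomputable def DD (c : Fin N → ι → Fin d → ℤ) (s : Fin N → ℝ) (i : ι) (x : Fin d → ℝ) : ℝ :=
  ∑ k, s k * (tt c i x k - round (tt c i x k)) ^ 2

lemma DD_nonneg (c : Fin N → ι → Fin d → ℤ) {s : Fin N → ℝ} (hs : ∀ k, 0 < s k) (i : ι) (x : Fin d → ℝ) :
    0 ≤ DD c s i x := Finset.sum_nonneg fun k _ => mul_nonneg (hs k).le (sq_nonneg _)

lemma tt_cont (c : Fin N → ι → Fin d → ℤ) (i : ι) (k : Fin N) : Continuous fun x => tt c i x k := by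
  unfold tt
  fun_prop

lemma DD_cont (c : Fin N → ι → Fin d → ℤ) (s : Fin N → ℝ) (i : ι) : Continuous (DD c s i) := by
  unfold DD
  refine continuous_finsetSum _ fun k _ => Continuous.mul continuous_const ?_
  have h : (fun x => (tt c i x k - round (tt c i x k)) ^ 2) =
      fun x => ‖((tt c i x k : ℝ) : UnitAddCircle)‖ ^ 2 := by
    funext x
    rw [UnitAddCircle.norm_eq, sq_abs]
  rw [h]
  have := (AddCircle.continuous_mk' (1 : ℝ)).comp (tt_cont c i k)
  exact (this.norm).pow 2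

lemma int_of_DD_zero {c : Fin N → ι → Fin d → ℤ} {s : Fin N → ℝ} (hs : ∀ k, 0 < s k) {i : ι}
    (hgen : Submodule.span ℤ (Set.range fun k => c k i) = ⊤) {x : Fin d → ℝ} (h : DD c s i x = 0) (a : Fin d) :
    ∃ m : ℤ, x a = m := by
  classical
  have h1 : ∀ k, ∃ m : ℤ, tt c i x k = m := by
    intro k
    unfold DD at h
    rw [Finset.sum_eq_zero_iff_of_nonneg (fun k _ => mul_nonneg (hs k).le (sq_nonneg _))] at h
    have h2 := h k (Finset.mem_univ k)
    rcases mul_eq_zero.1 h2 with h3 | h3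
    · exact absurd h3 (hs k).ne'
    · have := pow_eq_zero_iff (two_ne_zero) |>.1 h3
      exact ⟨round (tt c i x k), by linarith⟩
  have h2 : ∀ y ∈ Submodule.span ℤ (Set.range fun k => c k i), ∃ m : ℤ, ∑ a, x a * (y a : ℝ) = m := by
    intro y hy
    induction hy using Submodule.span_induction with
    | mem y hy =>
      obtain ⟨k, rfl⟩ := hy
      exact h1 k
    | zero => exact ⟨0, by simp⟩
    | add y z _ _ hy hz =>
      obtain ⟨m, hm⟩ := hy
      obtain ⟨n, hn⟩ := hz
      refine ⟨m + n, ?_⟩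
      push_cast
      rw [← hm, ← hn, ← Finset.sum_add_distrib]
      refine Finset.sum_congr rfl fun a _ => ?_
      simp only [Pi.add_apply]
      push_cast
      ring
    | smul t y _ hy =>
      obtain ⟨m, hm⟩ := hy
      refine ⟨t * m, ?_⟩
      push_cast
      rw [← hm, Finset.mul_sum]
      refine Finset.sum_congr rfl fun a _ => ?_
      simp only [Pi.smul_apply, smul_eq_mul]
      push_cast
      ring
  obtain ⟨m, hm⟩ := h2 (Pi.single a 1) (by rw [hgen]; trivial)
  refine ⟨m, ?_⟩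
  rw [← hm, Finset.sum_eq_single a]
  · simp
  · intro b _ hb
    simp [hb]
  · intro h; exact absurd (Finset.mem_univ a) h

lemma DD_far {c : Fin N → ι → Fin d → ℤ} {s : Fin N → ℝ} (hs : ∀ k, 0 < s k) {i : ι}
    (hgen : Submodule.span ℤ (Set.range fun k => c k i) = ⊤) {e : ℝ} (he : 0 < e) :
    ∃ η : ℝ, 0 < η ∧ ∀ x : Fin d → ℝ, (∀ a, |x a| ≤ 1 / 2) → e ≤ ‖x‖ → η ≤ DD c s i x := by
  set S : Set (Fin d → ℝ) := {x | (∀ a, |x a| ≤ 1 / 2) ∧ e ≤ ‖x‖} with hS
  have hclosed : IsClosed S := by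
    apply IsClosed.inter
    · have : {x : Fin d → ℝ | ∀ a, |x a| ≤ 1 / 2} = ⋂ a, {x | |x a| ≤ 1 / 2} := by
        ext x; simp
      show IsClosed {x : Fin d → ℝ | ∀ a, |x a| ≤ 1 / 2}
      rw [this]
      refine isClosed_iInter fun a => ?_
      exact isClosed_le (by fun_prop) continuous_const
    · exact isClosed_le continuous_const continuous_norm
  have hcomp : IsCompact S := by
    apply Metric.isCompact_of_isClosed_isBounded hclosed
    apply (Metric.isBounded_closedBall (x := (0 : Fin d → ℝ)) (r := 1 / 2)).subset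
    intro x hx
    rw [mem_closedBall_zero_iff, pi_norm_le_iff_of_nonneg (by norm_num)]
    exact fun a => hx.1 a
  by_cases hne : S.Nonempty
  · obtain ⟨x0, hx0, hmin⟩ := hcomp.exists_isMinOn hne (DD_cont c s i).continuousOn
    refine ⟨DD c s i x0, ?_, fun x h1 h2 => hmin ⟨h1, h2⟩⟩
    rcases (DD_nonneg c hs i x0).lt_or_eq with h | h
    · exact h
    · exfalso
      have h1 := int_of_DD_zero hs hgen h.symm
      have h2 : x0 = 0 := by
        funext a
        obtain ⟨m, hm⟩ := h1 a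
        have h3 := hx0.1 a
        rw [hm] at h3
        have h4 : |m| < 1 := by
          have : (|m| : ℝ) < 1 := by
            have : |(m : ℝ)| < 1 := by linarith
            exact_mod_cast this
          exact_mod_cast this
        have h5 : m = 0 := Int.abs_lt_one_iff.1 h4
        rw [hm, h5]
        simp
      have h3 := hx0.2
      rw [h2, norm_zero] at h3
      linarith
  · refine ⟨1, one_pos, fun x h1 h2 => ?_⟩
    exact absurd ⟨x, h1, h2⟩ hne

lemma DD_near [Fintype ι] (c : Fin N → ι → Fin d → ℤ) {s : Fin N → ℝ}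
    (hQ : ∀ i i' a b, ∑ k, s k * c k i a * c k i b = ∑ k, s k * c k i' a * c k i' b) :
    ∃ e : ℝ, 0 < e ∧ ∀ x : Fin d → ℝ, ‖x‖ < e → ∀ i i', DD c s i x = DD c s i' x := by
  set A : ℝ := 1 + ∑ i, ∑ k, ∑ a, |(c k i a : ℝ)| with hA
  have hA1 : 1 ≤ A := by
    have : 0 ≤ ∑ i, ∑ k, ∑ a, |(c k i a : ℝ)| := by positivity
    linarith
  refine ⟨1 / (2 * A), by positivity, fun x hx i i' => ?_⟩
  have hsmall : ∀ i k, |tt c i x k| < 1 / 2 := by
    intro i k
    unfold tt
    have h1 : |∑ a, x a * (c k i a : ℝ)| ≤ ∑ a, ‖x‖ * |(c k i a : ℝ)| := by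
      refine (Finset.abs_sum_le_sum_abs _ _).trans (Finset.sum_le_sum fun a _ => ?_)
      rw [abs_mul]
      exact mul_le_mul_of_nonneg_right (norm_le_pi_norm x a) (abs_nonneg _)
    rw [← Finset.mul_sum] at h1
    have h2 : ∑ a, |(c k i a : ℝ)| ≤ A := by
      have h3 : ∑ a, |(c k i a : ℝ)| ≤ ∑ k, ∑ a, |(c k i a : ℝ)| :=
        Finset.single_le_sum (f := fun k => ∑ a, |(c k i a : ℝ)|) (fun k _ => by positivity) (Finset.mem_univ k)
      have h4 : ∑ k, ∑ a, |(c k i a : ℝ)| ≤ ∑ i, ∑ k, ∑ a, |(c k i a : ℝ)| :=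
        Finset.single_le_sum (f := fun i => ∑ k, ∑ a, |(c k i a : ℝ)|) (fun k _ => by positivity) (Finset.mem_univ i)
      linarith
    have h3 : ‖x‖ * ∑ a, |(c k i a : ℝ)| ≤ ‖x‖ * A := mul_le_mul_of_nonneg_left h2 (norm_nonneg x)
    have h4 : ‖x‖ * A < 1 / 2 := by
      have : ‖x‖ * A < 1 / (2 * A) * A := mul_lt_mul_of_pos_right hx (by linarith)
      have h5 : 1 / (2 * A) * A = 1 / 2 := by field_simp
      linarith
    linarith
  have hDD : ∀ i, DD c s i x = ∑ a, ∑ b, x a * x b * ∑ k, s k * c k i a * c k i b := by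
    intro i
    unfold DD
    have h1 : ∀ k, s k * (tt c i x k - round (tt c i x k)) ^ 2 = ∑ a, ∑ b, x a * x b * (s k * c k i a * c k i b) := by
      intro k
      have h2 : round (tt c i x k) = 0 := by
        rw [round_eq_zero_iff]
        have := abs_lt.1 (hsmall i k)
        exact ⟨this.1.le, this.2⟩
      rw [h2, Int.cast_zero, sub_zero, sq]
      unfold tt
      rw [Finset.sum_mul_sum, Finset.mul_sum]
      refine Finset.sum_congr rfl fun a _ => ?_
      rw [Finset.mul_sum]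
      refine Finset.sum_congr rfl fun b _ => ?_
      ring
    simp only [h1]
    rw [Finset.sum_comm]
    refine Finset.sum_congr rfl fun a _ => ?_
    rw [Finset.sum_comm]
    refine Finset.sum_congr rfl fun b _ => ?_
    rw [Finset.mul_sum]
  rw [hDD i, hDD i']
  refine Finset.sum_congr rfl fun a _ => Finset.sum_congr rfl fun b _ => ?_
  rw [hQ i i' a b]

end Pool.Agent.J4.H31.SM
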