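import Mathlib
import Pool.Agent.J4.H31.SM.Char

/-! The characteristic functions of the coordinates are exponentially close. -/

set_option autoImplicit false

open Complex UnitAddTorus MeasureTheory

namespace Pool.Agent.J4.H31.SM

variable {d N : ℕ} {ι : Type}

lemma exists_rep (z : UnitAddTorus (Fin d)) : ∃ x : Fin d → ℝ, (∀ a, |x a| ≤ 1 / 2) ∧
    z = fun a => (x a : UnitAddCircle) := by
  have h : ∀ a, ∃ t : ℝ, |t| ≤ 1 / 2 ∧ z a = (t : UnitAddCircle) := by
    intro a
    obtain ⟨t, ht⟩ := QuotientAddGroup.mk_surjective (z a)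
    refine ⟨t - round t, abs_sub_round t, ?_⟩
    rw [← ht]
    have h1 : ((t - round t : ℝ) : UnitAddCircle) = (t : UnitAddCircle) - ((round t : ℝ) : UnitAddCircle) :=
      AddCircle.coe_sub _ _ _
    have h2 : ((round t : ℝ) : UnitAddCircle) = 0 := by
      rw [AddCircle.coe_eq_zero_iff]
      exact ⟨round t, by simp⟩
    rw [h1, h2, sub_zero]
  choose x hx hz using h
  exact ⟨x, hx, funext hz⟩

lemma exp_DD (c : Fin N → ι → Fin d → ℤ) (s : Fin N → ℝ) (r : ℝ) (i : ι) (x : Fin d → ℝ) :
    ∏ k, Real.exp (-(Real.pi * (s k * r) * (tt c i x k - round (tt c i x k)) ^ 2)) =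
      Real.exp (-(Real.pi * r * DD c s i x)) := by
  rw [← Real.exp_sum]
  congr 1
  unfold DD
  rw [Finset.sum_neg_distrib, Finset.mul_sum]
  congr 1
  refine Finset.sum_congr rfl fun k _ => ?_
  ring

theorem H_close [Fintype ι] (c : Fin N → ι → Fin d → ℤ) {s : Fin N → ℝ} (hs : ∀ k, 0 < s k)
    (hQ : ∀ i i' a b, ∑ k, s k * c k i a * c k i b = ∑ k, s k * c k i' a * c k i' b)
    (hgen : ∀ i, Submodule.span ℤ (Set.range fun k => c k i) = ⊤) (i i' : ι) :
    ∃ C γ : ℝ, 0 ≤ C ∧ 0 < γ ∧ ∀ r : ℝ, 1 ≤ r → ‖H c s r i - H c s r i'‖ ≤ C * r ^ N * Real.exp (-(γ * r)) := by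
  -- the lower bound of the variances
  obtain ⟨σ, hσ, hσs⟩ : ∃ σ : ℝ, 0 < σ ∧ ∀ k, σ ≤ s k := by
    rcases isEmpty_or_nonempty (Fin N) with h | h
    · exact ⟨1, one_pos, fun k => (h.false k).elim⟩
    · obtain ⟨k0, hk0⟩ := Finite.exists_min s
      exact ⟨s k0, hs k0, hk0⟩
  obtain ⟨C0, hC0, hT⟩ := T_bound hσ
  obtain ⟨e, he, hnear⟩ := DD_near c hQ
  obtain ⟨η1, hη1, hf1⟩ := DD_far hs (hgen i) he
  obtain ⟨η2, hη2, hf2⟩ := DD_far hs (hgen i') he
  set b := 1 + C0 with hb
  set γ := min (Real.pi * σ / 4) (min (Real.pi * η1) (Real.pi * η2)) with hγ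
  have hγ0 : 0 < γ := by
    have := Real.pi_pos
    rw [hγ]
    refine lt_min (by positivity) (lt_min (by positivity) (by positivity))
  set c1 := ∏ k, Real.sqrt (s k) with hc1
  have hc10 : 0 ≤ c1 := Finset.prod_nonneg fun k _ => Real.sqrt_nonneg _
  refine ⟨c1 * (2 * (N * b ^ N * C0) + 1), γ, by positivity, hγ0, fun r hr => ?_⟩
  have hr0 : 0 < r := by linarith
  rw [ContinuousMap.norm_le _ (by positivity)]
  intro z
  obtain ⟨x, hx, rfl⟩ := exists_rep z
  rw [ContinuousMap.sub_apply, H_apply c hs hr0, H_apply c hs hr0, ← ofReal_sub, Complex.norm_real, Real.norm_eq_abs]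
  simp only [Finset.prod_mul_distrib]
  rw [← mul_sub, abs_mul]
  -- the constant
  have hcr : |∏ k, Real.sqrt (s k * r)| ≤ c1 * r ^ N := by
    rw [abs_of_nonneg (Finset.prod_nonneg fun k _ => Real.sqrt_nonneg _), hc1]
    have h1 : ∏ k : Fin N, Real.sqrt (s k * r) ≤ ∏ k : Fin N, (Real.sqrt (s k) * r) := by
      apply Finset.prod_le_prod (fun k _ => Real.sqrt_nonneg _)
      intro k _
      rw [Real.sqrt_mul (hs k).le]
      apply mul_le_mul_of_nonneg_left _ (Real.sqrt_nonneg _)
      rw [Real.sqrt_le_left (by linarith)]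
      nlinarith
    refine h1.trans (le_of_eq ?_)
    rw [Finset.prod_mul_distrib, Finset.prod_const, Finset.card_univ, Fintype.card_fin]
  -- the products
  have hA : ∀ j, |∏ k, T (s k * r) (tt c j x k) - Real.exp (-(Real.pi * r * DD c s j x))| ≤
      N * b ^ N * (C0 * Real.exp (-(γ * r))) := by
    intro j
    rw [← exp_DD]
    have hbase : ∀ k, |T (s k * r) (tt c j x k) -
        Real.exp (-(Real.pi * (s k * r) * (tt c j x k - round (tt c j x k)) ^ 2))| ≤ C0 * Real.exp (-(γ * r)) := by
      intro k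
      refine (hT (s k * r) ?_ _).trans ?_
      · nlinarith [hσs k]
      · apply mul_le_mul_of_nonneg_left _ hC0
        apply Real.exp_le_exp.2
        have h1 : γ ≤ Real.pi * σ / 4 := min_le_left _ _
        have h2 : Real.pi * σ / 4 ≤ Real.pi * s k / 4 := by
          have := mul_le_mul_of_nonneg_left (hσs k) Real.pi_pos.le
          linarith
        have h3 : γ * r ≤ Real.pi * s k / 4 * r := mul_le_mul_of_nonneg_right (h1.trans h2) hr0.le
        linarith
    have hE1 : Real.exp (-(γ * r)) ≤ 1 := Real.exp_le_one_iff.2 (by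
      have := mul_pos hγ0 hr0
      linarith)
    have hexp : ∀ k, |Real.exp (-(Real.pi * (s k * r) * (tt c j x k - round (tt c j x k)) ^ 2))| ≤ 1 := by
      intro k
      rw [abs_of_pos (Real.exp_pos _)]
      apply Real.exp_le_one_iff.2
      have := mul_pos (hs k) hr0
      have := Real.pi_pos
      have : 0 ≤ Real.pi * (s k * r) * (tt c j x k - round (tt c j x k)) ^ 2 := by positivity
      linarith
    refine prod_diff b _ (by linarith) (by positivity) _ _ (fun k => ?_) (fun k => ?_) hbase
    · have h1 := hbase k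
      have h2 := hexp k
      have h3 : |T (s k * r) (tt c j x k)| ≤ |T (s k * r) (tt c j x k) -
        Real.exp (-(Real.pi * (s k * r) * (tt c j x k - round (tt c j x k)) ^ 2))| +
          |Real.exp (-(Real.pi * (s k * r) * (tt c j x k - round (tt c j x k)) ^ 2))| := by
        have := abs_add_le (T (s k * r) (tt c j x k) -
          Real.exp (-(Real.pi * (s k * r) * (tt c j x k - round (tt c j x k)) ^ 2)))
          (Real.exp (-(Real.pi * (s k * r) * (tt c j x k - round (tt c j x k)) ^ 2)))
        rwa [sub_add_cancel] at this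
      have h4 : C0 * Real.exp (-(γ * r)) ≤ C0 := mul_le_of_le_one_right hC0 hE1
      linarith
    · have := hexp k
      linarith
  -- the main terms
  have hmain : |Real.exp (-(Real.pi * r * DD c s i x)) - Real.exp (-(Real.pi * r * DD c s i' x))| ≤
      Real.exp (-(γ * r)) := by
    rcases lt_or_ge ‖x‖ e with h | h
    · rw [hnear x h i i', sub_self, abs_zero]
      exact (Real.exp_pos _).le
    · have h1 : Real.exp (-(Real.pi * r * DD c s i x)) ≤ Real.exp (-(γ * r)) := by
        apply Real.exp_le_exp.2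
        have h2 : γ ≤ Real.pi * η1 := (min_le_right _ _).trans (min_le_left _ _)
        have h3 := hf1 x hx h
        have h4 : γ * r ≤ Real.pi * η1 * r := mul_le_mul_of_nonneg_right h2 hr0.le
        have h5 : Real.pi * r * η1 ≤ Real.pi * r * DD c s i x :=
          mul_le_mul_of_nonneg_left h3 (by have := Real.pi_pos; positivity)
        linarith
      have h1' : Real.exp (-(Real.pi * r * DD c s i' x)) ≤ Real.exp (-(γ * r)) := by
        apply Real.exp_le_exp.2
        have h2 : γ ≤ Real.pi * η2 := (min_le_right _ _).trans (min_le_right _ _)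
        have h3 := hf2 x hx h
        have h4 : γ * r ≤ Real.pi * η2 * r := mul_le_mul_of_nonneg_right h2 hr0.le
        have h5 : Real.pi * r * η2 ≤ Real.pi * r * DD c s i' x :=
          mul_le_mul_of_nonneg_left h3 (by have := Real.pi_pos; positivity)
        linarith
      rw [abs_le]
      have := Real.exp_pos (-(Real.pi * r * DD c s i x))
      have := Real.exp_pos (-(Real.pi * r * DD c s i' x))
      constructor <;> linarith
  have htot : |∏ k, T (s k * r) (tt c i x k) - ∏ k, T (s k * r) (tt c i' x k)| ≤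
      (2 * (N * b ^ N * C0) + 1) * Real.exp (-(γ * r)) := by
    have h1 := hA i
    have h2 := hA i'
    rw [abs_le] at h1 h2 hmain ⊢
    constructor <;> nlinarith [h1.1, h1.2, h2.1, h2.2, hmain.1, hmain.2]
  calc |∏ k, Real.sqrt (s k * r)| * |∏ k, T (s k * r) (tt c i x k) - ∏ k, T (s k * r) (tt c i' x k)|
      ≤ (c1 * r ^ N) * ((2 * (N * b ^ N * C0) + 1) * Real.exp (-(γ * r))) :=
        mul_le_mul hcr htot (abs_nonneg _) (by positivity)
    _ = _ := by ring

/-- In this file we normalise the measure on `ℝ / ℤ` to have total volume 1. -/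
noncomputable local instance : MeasureSpace UnitAddCircle := ⟨AddCircle.haarAddCircle⟩

/-- The measure on `ℝ / ℤ` is a Haar measure. -/
local instance : Measure.IsAddHaarMeasure (volume : Measure UnitAddCircle) :=
  inferInstanceAs (Measure.IsAddHaarMeasure AddCircle.haarAddCircle)

/-- The measure on `ℝ / ℤ` is a probability measure. -/
local instance : IsProbabilityMeasure (volume : Measure UnitAddCircle) :=
  inferInstanceAs (IsProbabilityMeasure AddCircle.haarAddCircle)

/-- the coefficient functionals -/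
lemma exists_coeff (y : Fin d → ℤ) : ∃ L : C(UnitAddTorus (Fin d), ℂ) →L[ℂ] ℂ, (∀ F, ‖L F‖ ≤ ‖F‖) ∧
    ∀ n, L (mFourier n) = if y = n then 1 else 0 := by
  refine ⟨(innerSL ℂ (mFourierLp (d := Fin d) 2 y)).comp (ContinuousMap.toLp 2 volume ℂ), fun F => ?_, fun n => ?_⟩
  · rw [ContinuousLinearMap.comp_apply, innerSL_apply_apply]
    refine (norm_inner_le_norm _ _).trans ?_
    have h1 : ‖mFourierLp (d := Fin d) 2 y‖ = 1 := (orthonormal_mFourier (d := Fin d)).1 y
    rw [h1, one_mul]
    have h2 : ‖(ContinuousMap.toLp 2 (volume : Measure (UnitAddTorus (Fin d))) ℂ : C(UnitAddTorus (Fin d), ℂ) →L[ℂ] _)‖ ≤ 1 := by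
      refine (ContinuousMap.toLp_norm_le (μ := (volume : Measure (UnitAddTorus (Fin d))))).trans ?_
      simp [measureUnivNNReal]
    exact (ContinuousLinearMap.le_opNorm _ F).trans (by
      have := mul_le_mul_of_nonneg_right h2 (norm_nonneg F)
      linarith)
  · rw [ContinuousLinearMap.comp_apply, innerSL_apply_apply]
    exact orthonormal_iff_ite.1 (orthonormal_mFourier (d := Fin d)) y n

end Pool.Agent.J4.H31.SM
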