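import Mathlib
import Pool.Agent.J4.H31.SM.Close

/-! A Liouville theorem for sums of functions of the coordinates on a lattice. -/

set_option autoImplicit false

open Complex UnitAddTorus

namespace Pool.Agent.J4.H31.SM

variable {d N : ℕ} {ι : Type}

lemma fiber {G Z : Type} (Y : G → Z) (u : G → ℝ) (hu : Summable u) :
    Summable (fun y => ∑' g : {g // Y g = y}, u g) ∧ ∑' y, ∑' g : {g // Y g = y}, u g = ∑' g, u g := by
  have h1 : Summable (u ∘ Equiv.sigmaFiberEquiv Y) := (Equiv.sigmaFiberEquiv Y).summable_iff.2 hu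
  refine ⟨h1.sigma, ?_⟩
  rw [← (Equiv.sigmaFiberEquiv Y).tsum_eq]
  exact h1.tsum_sigma.symm

lemma exp_neg_le (q : ℕ) {x : ℝ} (hx : 0 ≤ x) :
    Real.exp (-x) ≤ Real.exp 1 * (q.factorial : ℝ) / (1 + x) ^ q := by
  have h := Real.pow_div_factorial_le_exp (1 + x) (by linarith) q
  have hf : (0 : ℝ) < q.factorial := by exact_mod_cast q.factorial_pos
  have hp : 0 < (1 + x) ^ q := by positivity
  rw [div_le_iff₀ hf] at h
  rw [le_div_iff₀ hp]
  calc Real.exp (-x) * (1 + x) ^ q ≤ Real.exp (-x) * (Real.exp (1 + x) * q.factorial) :=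
        mul_le_mul_of_nonneg_left h (Real.exp_pos _).le
    _ = Real.exp 1 * q.factorial := by
        rw [← mul_assoc, ← Real.exp_add]
        congr 2
        ring

lemma summable_inv_sq : Summable fun g : ℤ => 1 / (1 + (g : ℝ) ^ 2) := by
  have h : Summable fun g : ℤ => 1 / (g : ℝ) ^ 2 := Real.summable_one_div_int_pow.2 one_lt_two
  refine Summable.of_norm_bounded_eventually h ?_
  have : {g : ℤ | ¬ ‖1 / (1 + (g : ℝ) ^ 2)‖ ≤ 1 / (g : ℝ) ^ 2} ⊆ {0} := by
    intro g hg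
    by_contra h0
    apply hg
    have hg0 : (0 : ℝ) < (g : ℝ) ^ 2 := by
      have : (g : ℝ) ≠ 0 := by exact_mod_cast h0
      positivity
    rw [Real.norm_of_nonneg (by positivity)]
    apply one_div_le_one_div_of_le hg0
    linarith
  exact (Set.finite_singleton 0).subset this

lemma sum1 {s : ℝ} (hs : 0 < s) (p : ℕ) : ∃ C : ℝ, 0 ≤ C ∧ ∀ r : ℝ, 1 ≤ r →
    Summable (fun g : ℤ => Real.exp (-(Real.pi * (g : ℝ) ^ 2 / (s * r))) * (1 + |(g : ℝ)|) ^ p) ∧
    ∑' g : ℤ, Real.exp (-(Real.pi * (g : ℝ) ^ 2 / (s * r))) * (1 + |(g : ℝ)|) ^ p ≤ C * r ^ (p + 1) := by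
  have hpi := Real.pi_pos
  set κ := min 1 (Real.pi / s) with hκ
  have hκ0 : 0 < κ := lt_min one_pos (by positivity)
  set B := Real.exp 1 * ((p + 1).factorial : ℝ) * 2 ^ p / κ ^ (p + 1) with hB
  have hB0 : 0 ≤ B := by positivity
  have hbound : ∀ r : ℝ, 1 ≤ r → ∀ g : ℤ, Real.exp (-(Real.pi * (g : ℝ) ^ 2 / (s * r))) * (1 + |(g : ℝ)|) ^ p ≤
      B * r ^ (p + 1) * (1 / (1 + (g : ℝ) ^ 2)) := by
    intro r hr g
    have hr0 : 0 < r := by linarith
    have hG : 0 < 1 + (g : ℝ) ^ 2 := by positivity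
    have hx : 0 ≤ Real.pi * (g : ℝ) ^ 2 / (s * r) := by positivity
    have h1 := exp_neg_le (p + 1) hx
    have h2 : κ * (1 + (g : ℝ) ^ 2) / r ≤ 1 + Real.pi * (g : ℝ) ^ 2 / (s * r) := by
      have e1 : κ * (1 + (g : ℝ) ^ 2) / r = κ / r + κ * (g : ℝ) ^ 2 / r := by ring
      have e2 : κ / r ≤ 1 := by
        rw [div_le_one hr0]
        exact (min_le_left _ _).trans hr
      have e3 : κ * (g : ℝ) ^ 2 / r ≤ Real.pi * (g : ℝ) ^ 2 / (s * r) := by
        have : κ ≤ Real.pi / s := min_le_right _ _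
        have e4 : Real.pi * (g : ℝ) ^ 2 / (s * r) = Real.pi / s * (g : ℝ) ^ 2 / r := by
          field_simp
        rw [e4]
        gcongr
      linarith
    have h3 : Real.exp (-(Real.pi * (g : ℝ) ^ 2 / (s * r))) ≤
        Real.exp 1 * ((p + 1).factorial : ℝ) / (κ * (1 + (g : ℝ) ^ 2) / r) ^ (p + 1) := by
      refine h1.trans ?_
      apply div_le_div_of_nonneg_left (by positivity) (by positivity)
      exact pow_le_pow_left₀ (by positivity) h2 _
    have h4 : (1 + |(g : ℝ)|) ^ p ≤ (2 * (1 + (g : ℝ) ^ 2)) ^ p := by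
      apply pow_le_pow_left₀ (by positivity)
      nlinarith [sq_abs (g : ℝ), sq_nonneg (|(g : ℝ)| - 1)]
    calc Real.exp (-(Real.pi * (g : ℝ) ^ 2 / (s * r))) * (1 + |(g : ℝ)|) ^ p
        ≤ (Real.exp 1 * ((p + 1).factorial : ℝ) / (κ * (1 + (g : ℝ) ^ 2) / r) ^ (p + 1)) *
            (2 * (1 + (g : ℝ) ^ 2)) ^ p := mul_le_mul h3 h4 (by positivity) (by positivity)
      _ = B * r ^ (p + 1) * (1 / (1 + (g : ℝ) ^ 2)) := by
        rw [hB, div_pow, mul_pow, mul_pow, pow_succ (1 + (g : ℝ) ^ 2) p]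
        field_simp
  refine ⟨B * ∑' g : ℤ, 1 / (1 + (g : ℝ) ^ 2), mul_nonneg hB0 (tsum_nonneg fun g => by positivity), fun r hr => ?_⟩
  have hs2 := summable_inv_sq.mul_left (B * r ^ (p + 1))
  have hs1 : Summable (fun g : ℤ => Real.exp (-(Real.pi * (g : ℝ) ^ 2 / (s * r))) * (1 + |(g : ℝ)|) ^ p) :=
    Summable.of_nonneg_of_le (fun g => by positivity) (hbound r hr) hs2
  refine ⟨hs1, (Summable.tsum_le_tsum (hbound r hr) hs1 hs2).trans (le_of_eq ?_)⟩
  rw [tsum_mul_left]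
  ring

/-- the growth weight -/
noncomputable def GG (g : Fin N → ℤ) : ℝ := ∏ k, (1 + |(g k : ℝ)|)

lemma one_le_GG (g : Fin N → ℤ) : 1 ≤ GG g := by
  unfold GG
  have h : ∏ k : Fin N, (1 : ℝ) ≤ ∏ k, (1 + |(g k : ℝ)|) :=
    Finset.prod_le_prod (fun _ _ => zero_le_one) (fun k _ => by linarith [abs_nonneg (g k : ℝ)])
  simpa using h

lemma le_GG (g : Fin N → ℤ) (k : Fin N) : |(g k : ℝ)| ≤ GG g := by
  unfold GG
  rw [← Finset.mul_prod_erase _ _ (Finset.mem_univ k)]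
  have h : ∏ j ∈ Finset.univ.erase k, (1 : ℝ) ≤ ∏ j ∈ Finset.univ.erase k, (1 + |(g j : ℝ)|) :=
    Finset.prod_le_prod (fun _ _ => zero_le_one) (fun k _ => by linarith [abs_nonneg (g k : ℝ)])
  rw [Finset.prod_const_one] at h
  nlinarith [abs_nonneg (g k : ℝ)]

lemma Y_le (c : Fin N → ι → Fin d → ℤ) (i : ι) (g : Fin N → ℤ) :
    1 + ∑ a, |((Y c i g a : ℤ) : ℝ)| ≤ (1 + ∑ a, ∑ k, |(c k i a : ℝ)|) * GG g := by
  have h1 : ∀ a, |((Y c i g a : ℤ) : ℝ)| ≤ (∑ k, |(c k i a : ℝ)|) * GG g := by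
    intro a
    unfold Y
    push_cast
    refine (Finset.abs_sum_le_sum_abs _ _).trans ?_
    rw [Finset.sum_mul]
    refine Finset.sum_le_sum fun k _ => ?_
    rw [abs_mul, mul_comm]
    exact mul_le_mul_of_nonneg_left (le_GG g k) (abs_nonneg _)
  have h2 : ∑ a, |((Y c i g a : ℤ) : ℝ)| ≤ (∑ a, ∑ k, |(c k i a : ℝ)|) * GG g := by
    rw [Finset.sum_mul]
    exact Finset.sum_le_sum fun a _ => h1 a
  have := one_le_GG g
  linarith

lemma wt_sq (s : Fin N → ℝ) {r : ℝ} (g : Fin N → ℤ) : wt s r g = wt s (2 * r) g ^ 2 := by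
  unfold wt
  rw [← Finset.prod_pow]
  refine Finset.prod_congr rfl fun k _ => ?_
  rw [← Real.exp_nat_mul]
  congr 1
  push_cast
  by_cases h : s k * r = 0
  · rcases mul_eq_zero.1 h with h | h <;> simp [h]
  · have h1 : s k ≠ 0 := left_ne_zero_of_mul h
    have h2 : r ≠ 0 := right_ne_zero_of_mul h
    field_simp

/-- the sum of the weights with growth -/
lemma sumN {s : Fin N → ℝ} (hs : ∀ k, 0 < s k) (p : ℕ) : ∃ C : ℝ, 0 ≤ C ∧ ∀ r : ℝ, 1 ≤ r →
    Summable (fun g : Fin N → ℤ => wt s r g * GG g ^ p) ∧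
    ∑' g : Fin N → ℤ, wt s r g * GG g ^ p ≤ C * (r ^ (p + 1)) ^ N := by
  choose C hC0 hC using fun k => sum1 (hs k) p
  refine ⟨∏ k, C k, Finset.prod_nonneg fun k _ => hC0 k, fun r hr => ?_⟩
  have h1 := summable_pi_real (fun k (g : ℤ) => Real.exp (-(Real.pi * (g : ℝ) ^ 2 / (s k * r))) * (1 + |(g : ℝ)|) ^ p)
    (fun k g => by positivity) (fun k => (hC k r hr).1)
  have e : (fun g : Fin N → ℤ => wt s r g * GG g ^ p) = fun g : Fin N → ℤ =>
      ∏ k, Real.exp (-(Real.pi * (g k : ℝ) ^ 2 / (s k * r))) * (1 + |(g k : ℝ)|) ^ p := by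
    funext g
    unfold wt GG
    rw [← Finset.prod_pow, ← Finset.prod_mul_distrib]
  rw [e]
  refine ⟨h1.summable, ?_⟩
  rw [h1.tsum_eq]
  have h2 : ∏ k, (C k * r ^ (p + 1)) = (∏ k, C k) * (r ^ (p + 1)) ^ N := by
    rw [Finset.prod_mul_distrib, Finset.prod_const, Finset.card_univ, Fintype.card_fin]
  rw [← h2]
  exact Finset.prod_le_prod (fun k _ => tsum_nonneg fun g => by positivity) (fun k _ => (hC k r hr).2)

/-- the distribution of a coordinate -/
noncomputable def PP (c : Fin N → ι → Fin d → ℤ) (s : Fin N → ℝ) (r : ℝ) (i : ι) (y : Fin d → ℤ) : ℝ :=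
  ∑' g : {g // Y c i g = y}, wt s r g

lemma coeff_H (c : Fin N → ι → Fin d → ℤ) {s : Fin N → ℝ} (hs : ∀ k, 0 < s k) {r : ℝ} (hr : 0 < r) (i : ι)
    (y : Fin d → ℤ) (L : C(UnitAddTorus (Fin d), ℂ) →L[ℂ] ℂ) (hL : ∀ n, L (mFourier n) = if y = n then 1 else 0) :
    L (H c s r i) = (PP c s r i y : ℂ) := by
  have h1 := L.hasSum (summable_H c hs hr i).hasSum
  have h2 : L (H c s r i) = ∑' g : Fin N → ℤ, L ((wt s r g : ℂ) • mFourier (Y c i g)) := h1.tsum_eq.symm
  rw [h2]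
  unfold PP
  rw [show (∑' g : {g // Y c i g = y}, wt s r g) = ∑' g : Fin N → ℤ, ({g | Y c i g = y} : Set (Fin N → ℤ)).indicator (wt s r) g
    from tsum_subtype ({g | Y c i g = y} : Set (Fin N → ℤ)) (wt s r), ofReal_tsum]
  refine tsum_congr fun g => ?_
  rw [map_smul, hL, smul_eq_mul]
  by_cases h : Y c i g = y
  · rw [if_pos h.symm, Set.indicator_of_mem (show g ∈ {g | Y c i g = y} from h), mul_one]
  · rw [if_neg (fun h' => h h'.symm), Set.indicator_of_notMem (show g ∉ {g | Y c i g = y} from h), mul_zero, ofReal_zero]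

lemma PP_diff (c : Fin N → ι → Fin d → ℤ) {s : Fin N → ℝ} (hs : ∀ k, 0 < s k) {r : ℝ} (hr : 0 < r) (i i' : ι)
    (y : Fin d → ℤ) : |PP c s r i y - PP c s r i' y| ≤ ‖H c s r i - H c s r i'‖ := by
  obtain ⟨L, hL, hL2⟩ := exists_coeff y
  have h1 := hL (H c s r i - H c s r i')
  rw [map_sub, coeff_H c hs hr i y L hL2, coeff_H c hs hr i' y L hL2, ← ofReal_sub, Complex.norm_real] at h1
  exact h1

lemma PP_nonneg (c : Fin N → ι → Fin d → ℤ) (s : Fin N → ℝ) (r : ℝ) (i : ι) (y : Fin d → ℤ) : 0 ≤ PP c s r i y :=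
  tsum_nonneg fun g => (wt_pos s r g).le

lemma PP_le (c : Fin N → ι → Fin d → ℤ) {s : Fin N → ℝ} (hs : ∀ k, 0 < s k) {r : ℝ} (hr : 0 < r) (i : ι)
    (y : Fin d → ℤ) : PP c s r i y ≤ PP c s (2 * r) i y ^ 2 := by
  have hsum : Summable (fun g : {g // Y c i g = y} => wt s (2 * r) g) :=
    (summable_wt hs (by positivity)).subtype _
  have hsum1 : Summable (fun g : {g // Y c i g = y} => wt s r g) := (summable_wt hs hr).subtype _
  have h1 : ∀ g : {g // Y c i g = y}, wt s r g ≤ PP c s (2 * r) i y * wt s (2 * r) g := by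
    intro g
    rw [wt_sq, sq]
    apply mul_le_mul_of_nonneg_right _ (wt_pos _ _ _).le
    exact hsum.le_tsum g (fun g' _ => (wt_pos _ _ _).le)
  calc PP c s r i y ≤ ∑' g : {g // Y c i g = y}, PP c s (2 * r) i y * wt s (2 * r) g :=
        Summable.tsum_le_tsum h1 hsum1 (hsum.mul_left _)
    _ = PP c s (2 * r) i y ^ 2 := by
        rw [tsum_mul_left, sq]
        rfl

/-- expectations of functions of polynomial growth are exponentially close -/
lemma expect_close [Fintype ι] (c : Fin N → ι → Fin d → ℤ) {s : Fin N → ℝ} (hs : ∀ k, 0 < s k)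
    (hQ : ∀ i i' a b, ∑ k, s k * c k i a * c k i b = ∑ k, s k * c k i' a * c k i' b)
    (hgen : ∀ i, Submodule.span ℤ (Set.range fun k => c k i) = ⊤) (i i' : ι) (p : ℕ) (M : ℝ)
    (h : (Fin d → ℤ) → ℝ) (hh : ∀ y, |h y| ≤ M * (1 + ∑ a, |(y a : ℝ)|) ^ p) :
    ∃ (C γ : ℝ) (q : ℕ), 0 < γ ∧ ∀ r : ℝ, 1 ≤ r →
      Summable (fun g => wt s r g * h (Y c i g)) ∧ Summable (fun g => wt s r g * h (Y c i' g)) ∧
      |∑' g, wt s r g * h (Y c i g) - ∑' g, wt s r g * h (Y c i' g)| ≤ C * (r ^ q * Real.exp (-(γ * r))) := by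
  obtain ⟨C1, γ, hC1, hγ, hclose⟩ := H_close c hs hQ hgen i i'
  obtain ⟨C2, hC2, hsumN⟩ := sumN hs p
  have hM : 0 ≤ M := by
    have := (abs_nonneg _).trans (hh 0)
    simpa using this
  set A := ((1 + ∑ a, ∑ k, |(c k i a : ℝ)|) + (1 + ∑ a, ∑ k, |(c k i' a : ℝ)|)) with hA
  have hA0 : 0 ≤ A := by positivity
  have hY : ∀ j, j = i ∨ j = i' → ∀ g : Fin N → ℤ, |h (Y c j g)| ≤ M * A ^ p * GG g ^ p := by
    intro j hj g
    refine (hh _).trans ?_
    rw [mul_assoc, ← mul_pow]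
    apply mul_le_mul_of_nonneg_left _ hM
    apply pow_le_pow_left₀ (by positivity)
    refine (Y_le c j g).trans ?_
    apply mul_le_mul_of_nonneg_right _ (by linarith [one_le_GG g])
    rcases hj with rfl | rfl
    · have : 0 ≤ ∑ a, ∑ k, |(c k i' a : ℝ)| := by positivity
      linarith
    · have : 0 ≤ ∑ a, ∑ k, |(c k i a : ℝ)| := by positivity
      linarith
  have hsumm : ∀ j, j = i ∨ j = i' → ∀ r : ℝ, 1 ≤ r → Summable (fun g => wt s r g * |h (Y c j g)|) := by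
    intro j hj r hr
    refine Summable.of_nonneg_of_le (fun g => mul_nonneg (wt_pos _ _ _).le (abs_nonneg _)) (fun g => ?_)
      ((hsumN r hr).1.mul_left (M * A ^ p))
    have := mul_le_mul_of_nonneg_left (hY j hj g) (wt_pos s r g).le
    refine this.trans (le_of_eq ?_)
    ring
  have hsumm' : ∀ j, j = i ∨ j = i' → ∀ r : ℝ, 1 ≤ r → Summable (fun g => wt s r g * h (Y c j g)) := by
    intro j hj r hr
    apply Summable.of_norm
    refine (hsumm j hj r hr).congr fun g => ?_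
    rw [norm_mul, Real.norm_of_nonneg (wt_pos _ _ _).le, Real.norm_eq_abs]
  refine ⟨Real.sqrt C1 * (2 * (M * A ^ p * (C2 * 2 ^ ((p + 1) * N)))), γ / 2, N + (p + 1) * N, by linarith,
    fun r hr => ⟨hsumm' i (Or.inl rfl) r hr, hsumm' i' (Or.inr rfl) r hr, ?_⟩⟩
  have hr0 : 0 < r := by linarith
  have hr2 : 1 ≤ 2 * r := by linarith
  -- fiberwise
  have hfib : ∀ (j : ι), j = i ∨ j = i' → Summable (fun y => h y * PP c s r j y) ∧
      ∑' y, h y * PP c s r j y = ∑' g, wt s r g * h (Y c j g) := by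
    intro j hj
    have h1 := fiber (Y c j) (fun g => wt s r g * h (Y c j g)) (hsumm' j hj r hr)
    have e : (fun y => ∑' g : {g // Y c j g = y}, wt s r g * h (Y c j g)) = fun y => h y * PP c s r j y := by
      funext y
      unfold PP
      rw [← tsum_mul_left]
      refine tsum_congr fun g => ?_
      rw [g.2, mul_comm]
    simp only [e] at h1
    exact h1
  have hfib2 : ∀ (j : ι), j = i ∨ j = i' → Summable (fun y => |h y| * PP c s (2 * r) j y) ∧
      ∑' y, |h y| * PP c s (2 * r) j y = ∑' g, wt s (2 * r) g * |h (Y c j g)| := by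
    intro j hj
    have h1 := fiber (Y c j) (fun g => wt s (2 * r) g * |h (Y c j g)|) (hsumm j hj (2 * r) hr2)
    have e : (fun y => ∑' g : {g // Y c j g = y}, wt s (2 * r) g * |h (Y c j g)|) =
        fun y => |h y| * PP c s (2 * r) j y := by
      funext y
      unfold PP
      rw [← tsum_mul_left]
      refine tsum_congr fun g => ?_
      rw [g.2, mul_comm]
    simp only [e] at h1
    exact h1
  set δ := C1 * r ^ N * Real.exp (-(γ * r)) with hδ
  have hδ0 : 0 ≤ δ := by positivity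
  have hdiff : ∀ y, |PP c s r i y - PP c s r i' y| ≤ Real.sqrt δ * (PP c s (2 * r) i y + PP c s (2 * r) i' y) := by
    intro y
    have h1 := (PP_diff c hs hr0 i i' y).trans (hclose r hr)
    have h2 := PP_le c hs hr0 i y
    have h3 := PP_le c hs hr0 i' y
    have h4 := PP_nonneg c s r i y
    have h5 := PP_nonneg c s r i' y
    have h6 := PP_nonneg c s (2 * r) i y
    have h7 := PP_nonneg c s (2 * r) i' y
    set D := |PP c s r i y - PP c s r i' y| with hD
    have hD0 : 0 ≤ D := abs_nonneg _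
    have h8 : D ≤ (PP c s (2 * r) i y + PP c s (2 * r) i' y) ^ 2 := by
      have : D ≤ PP c s r i y + PP c s r i' y := by
        rw [hD, abs_le]; constructor <;> linarith
      nlinarith
    have h9 : D ^ 2 ≤ (Real.sqrt δ * (PP c s (2 * r) i y + PP c s (2 * r) i' y)) ^ 2 := by
      rw [mul_pow, Real.sq_sqrt hδ0, sq]
      exact mul_le_mul h1 h8 hD0 hδ0
    exact (abs_le_of_sq_le_sq' h9 (by positivity)).2
  rw [← (hfib i (Or.inl rfl)).2, ← (hfib i' (Or.inr rfl)).2,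
    ← (hfib i (Or.inl rfl)).1.tsum_sub (hfib i' (Or.inr rfl)).1]
  have hsumR := ((hfib2 i (Or.inl rfl)).1.add (hfib2 i' (Or.inr rfl)).1).mul_left (Real.sqrt δ)
  have hle : ∀ y, ‖h y * PP c s r i y - h y * PP c s r i' y‖ ≤
      Real.sqrt δ * (|h y| * PP c s (2 * r) i y + |h y| * PP c s (2 * r) i' y) := by
    intro y
    rw [← mul_sub, norm_mul, Real.norm_eq_abs, Real.norm_eq_abs]
    have := mul_le_mul_of_nonneg_left (hdiff y) (abs_nonneg (h y))
    refine this.trans (le_of_eq ?_)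
    ring
  have h10 : ‖∑' y, (h y * PP c s r i y - h y * PP c s r i' y)‖ ≤
      ∑' y, Real.sqrt δ * (|h y| * PP c s (2 * r) i y + |h y| * PP c s (2 * r) i' y) :=
    tsum_of_norm_bounded hsumR.hasSum hle
  rw [Real.norm_eq_abs] at h10
  refine h10.trans ?_
  rw [tsum_mul_left, (hfib2 i (Or.inl rfl)).1.tsum_add (hfib2 i' (Or.inr rfl)).1, (hfib2 i (Or.inl rfl)).2,
    (hfib2 i' (Or.inr rfl)).2]
  have hb : ∀ j, j = i ∨ j = i' → ∑' g, wt s (2 * r) g * |h (Y c j g)| ≤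
      M * A ^ p * (C2 * 2 ^ ((p + 1) * N)) * r ^ ((p + 1) * N) := by
    intro j hj
    have h1 : ∑' g, wt s (2 * r) g * |h (Y c j g)| ≤ ∑' g, M * A ^ p * (wt s (2 * r) g * GG g ^ p) := by
      refine Summable.tsum_le_tsum (fun g => ?_) (hsumm j hj _ hr2) ((hsumN _ hr2).1.mul_left _)
      have := mul_le_mul_of_nonneg_left (hY j hj g) (wt_pos s (2 * r) g).le
      refine this.trans (le_of_eq ?_)
      ring
    rw [tsum_mul_left] at h1
    refine h1.trans ?_
    have h2 := mul_le_mul_of_nonneg_left (hsumN _ hr2).2 (show 0 ≤ M * A ^ p by positivity)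
    refine h2.trans (le_of_eq ?_)
    rw [← pow_mul, mul_pow]
    ring
  have h11 := hb i (Or.inl rfl)
  have h12 := hb i' (Or.inr rfl)
  have hsq : Real.sqrt δ ≤ Real.sqrt C1 * r ^ N * Real.exp (-(γ / 2 * r)) := by
    rw [Real.sqrt_le_left (by positivity), mul_pow, mul_pow, Real.sq_sqrt hC1, ← Real.exp_nat_mul]
    have e1 : ((2 : ℕ) : ℝ) * (-(γ / 2 * r)) = -(γ * r) := by push_cast; ring
    rw [e1, hδ]
    apply mul_le_mul_of_nonneg_right _ (Real.exp_pos _).le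
    apply mul_le_mul_of_nonneg_left _ hC1
    rw [← pow_mul]
    exact pow_le_pow_right₀ hr (by omega)
  calc Real.sqrt δ * (∑' g, wt s (2 * r) g * |h (Y c i g)| + ∑' g, wt s (2 * r) g * |h (Y c i' g)|)
      ≤ (Real.sqrt C1 * r ^ N * Real.exp (-(γ / 2 * r))) *
        (2 * (M * A ^ p * (C2 * 2 ^ ((p + 1) * N)) * r ^ ((p + 1) * N))) := by
        apply mul_le_mul hsq (by linarith) _ (by positivity)
        apply add_nonneg <;> exact tsum_nonneg fun g => mul_nonneg (wt_pos _ _ _).le (abs_nonneg _)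
    _ = _ := by
        rw [pow_add]
        ring

theorem liouville [Fintype ι] (c : Fin N → ι → Fin d → ℤ) {s : Fin N → ℝ} (hs : ∀ k, 0 < s k)
    (hQ : ∀ i i' a b, ∑ k, s k * c k i a * c k i b = ∑ k, s k * c k i' a * c k i' b)
    (hgen : ∀ i, Submodule.span ℤ (Set.range fun k => c k i) = ⊤)
    (f : ι → (Fin d → ℤ) → ℝ) (p : ℕ) (M : ℝ) (hf : ∀ i y, |f i y| ≤ M * (1 + ∑ a, |(y a : ℝ)|) ^ p)
    (hsum : ∀ y, ∑ i, f i y = 0) (hpos : ∀ g : Fin N → ℤ, 0 ≤ ∑ i, f i (Y c i g)) (g₀ : Fin N → ℤ) :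
    ∑ i, f i (Y c i g₀) = 0 := by
  rcases isEmpty_or_nonempty ι with hι | ⟨⟨i0⟩⟩
  · simp
  choose C γ q hγ hcl using fun i => expect_close c hs hQ hgen i i0 p M (f i) (hf i)
  refine le_antisymm ?_ (hpos g₀)
  -- lower bound for the weight
  set w0 := Real.exp (-(∑ k, Real.pi * (g₀ k : ℝ) ^ 2 / s k)) with hw0
  have hw : ∀ r : ℝ, 1 ≤ r → w0 ≤ wt s r g₀ := by
    intro r hr
    unfold wt
    rw [hw0, ← Finset.sum_neg_distrib, Real.exp_sum]
    refine Finset.prod_le_prod (fun k _ => (Real.exp_pos _).le) (fun k _ => ?_)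
    apply Real.exp_le_exp.2
    apply neg_le_neg
    apply div_le_div_of_nonneg_left (by have := Real.pi_pos; positivity) (hs k)
    have := hs k
    nlinarith
  have hbound : ∀ r : ℝ, 1 ≤ r → w0 * ∑ i, f i (Y c i g₀) ≤ ∑ i, C i * (r ^ q i * Real.exp (-(γ i * r))) := by
    intro r hr
    have h1 : w0 * ∑ i, f i (Y c i g₀) ≤ wt s r g₀ * ∑ i, f i (Y c i g₀) :=
      mul_le_mul_of_nonneg_right (hw r hr) (hpos g₀)
    refine h1.trans ?_
    have hsm : ∀ i, Summable (fun g => wt s r g * f i (Y c i g)) := fun i => (hcl i r hr).1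
    have hsm0 : ∀ i, Summable (fun g => wt s r g * f i (Y c i0 g)) := fun i => (hcl i r hr).2.1
    have hS : Summable (fun g => wt s r g * ∑ i, f i (Y c i g)) := by
      have := summable_sum (s := Finset.univ) (f := fun i g => wt s r g * f i (Y c i g)) (fun i _ => hsm i)
      refine this.congr fun g => ?_
      rw [Finset.mul_sum]
    have h2 : wt s r g₀ * ∑ i, f i (Y c i g₀) ≤ ∑' g, wt s r g * ∑ i, f i (Y c i g) :=
      hS.le_tsum g₀ (fun g _ => mul_nonneg (wt_pos _ _ _).le (hpos g))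
    refine h2.trans ?_
    have h3 : ∑' g, wt s r g * ∑ i, f i (Y c i g) = ∑ i, ∑' g, wt s r g * f i (Y c i g) := by
      rw [← Summable.tsum_finsetSum (fun i _ => hsm i)]
      refine tsum_congr fun g => ?_
      rw [Finset.mul_sum]
    have h4 : ∑ i, ∑' g, wt s r g * f i (Y c i0 g) = 0 := by
      rw [← Summable.tsum_finsetSum (fun i _ => hsm0 i)]
      have : ∀ g, ∑ i, wt s r g * f i (Y c i0 g) = 0 := by
        intro g
        rw [← Finset.mul_sum, hsum, mul_zero]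
      simp only [this, tsum_zero]
    have h5 : ∑ i, ∑' g, wt s r g * f i (Y c i g) =
        ∑ i, (∑' g, wt s r g * f i (Y c i g) - ∑' g, wt s r g * f i (Y c i0 g)) := by
      rw [Finset.sum_sub_distrib, h4, sub_zero]
    rw [h3, h5]
    refine Finset.sum_le_sum fun i _ => ?_
    exact (le_abs_self _).trans (hcl i r hr).2.2
  have hlim : Filter.Tendsto (fun r : ℝ => ∑ i, C i * (r ^ q i * Real.exp (-(γ i * r)))) Filter.atTop (nhds 0) := by
    have h0 : ∑ i : ι, C i * (0 : ℝ) = 0 := by simp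
    rw [← h0]
    refine tendsto_finsetSum _ fun i _ => Filter.Tendsto.const_mul _ ?_
    have := Real.tendsto_pow_mul_exp_neg_atTop_nhds_zero (q i)
    have h2 : Filter.Tendsto (fun r : ℝ => (γ i * r) ^ q i * Real.exp (-(γ i * r))) Filter.atTop (nhds 0) :=
      this.comp (Filter.tendsto_id.const_mul_atTop (hγ i))
    have h3 := h2.const_mul ((γ i ^ q i)⁻¹)
    rw [mul_zero] at h3
    refine h3.congr fun r => ?_
    rw [mul_pow, ← mul_assoc, ← mul_assoc, inv_mul_cancel₀ (pow_ne_zero _ (hγ i).ne'), one_mul]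
  have hfin : w0 * ∑ i, f i (Y c i g₀) ≤ 0 := by
    refine ge_of_tendsto hlim ?_
    filter_upwards [Filter.eventually_ge_atTop 1] with r hr
    exact hbound r hr
  have hw0pos : 0 < w0 := Real.exp_pos _
  by_contra hcon
  push Not at hcon
  have := mul_pos hw0pos hcon
  linarith

end Pool.Agent.J4.H31.SM
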