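import Mathlib
import Pool.Agent.J4.H31.SM.Contr
import Pool.Agent.J4.H31.SM.Liou

/-! Growth of functions with nonnegative sums on the solutions, and rigidity. -/

set_option autoImplicit false
set_option linter.unusedSectionVars false

open NumberField NumberField.mixedEmbedding NumberField.InfinitePlace Finset IsDedekindDomain
open scoped Classical

namespace Pool.Agent.J4.H31.SM

variable {K : Type} [Field K] [NumberField K] {ι : Type} [Fintype ι]

theorem growth (a : ι → 𝓞 K) (ρ C : ℝ) (hρ0 : 0 ≤ ρ) (hρ1 : ρ < 1) (hC : 0 ≤ C)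
    (hcon : ∀ (i : ι) (y : 𝓞 K), ∃ v : ι → 𝓞 K, ∑ j, a j * v j = 0 ∧ v i = y ∧
      ∀ j, j ≠ i → hh (v j) ≤ ρ * hh y + C) :
    ∃ (p : ℕ) (R : ℝ), 0 ≤ R ∧ ∀ (S : ℝ) (f : ι → 𝓞 K → ℝ), (∀ y, ∑ i, f i y = 0) →
      (∀ v : ι → 𝓞 K, ∑ j, a j * v j = 0 → (∀ j, hh (v j) ≤ S) → 0 ≤ ∑ i, f i (v i)) →
      ∀ M : ℝ, 0 ≤ M → (∀ i y, hh y ≤ R → |f i y| ≤ M) → ∀ i y, hh y ≤ S → |f i y| ≤ M * (1 + hh y) ^ p := by
  set ρ' := (1 + ρ) / 2 with hρ'
  have hρ'0 : 0 ≤ ρ' := by rw [hρ']; linarith
  have hρ'1 : ρ' < 1 := by rw [hρ']; linarith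
  set n : ℝ := ((Fintype.card ι : ℕ) : ℝ) with hn
  have hn0 : 0 ≤ n := by positivity
  obtain ⟨p, hp⟩ : ∃ p : ℕ, n ^ 2 * ρ' ^ p ≤ 1 := by
    have h1 := (tendsto_pow_atTop_nhds_zero_of_lt_one hρ'0 hρ'1).const_mul (n ^ 2)
    rw [mul_zero] at h1
    obtain ⟨p, hp⟩ := (h1.eventually (gt_mem_nhds zero_lt_one)).exists
    exact ⟨p, hp.le⟩
  set R := (1 + C) / (ρ' - ρ) with hR
  have hρρ' : 0 < ρ' - ρ := by rw [hρ']; linarith
  have hR0 : 0 ≤ R := by positivity
  refine ⟨p, R, hR0, fun S f hsum hpos M hM hcore => ?_⟩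
  set δ := (1 - ρ') * (1 + R) with hδ
  have hδ0 : 0 < δ := by
    have : 0 < 1 - ρ' := by linarith
    positivity
  have hstep : ∀ k : ℕ, ∀ i y, hh y ≤ R + k * δ → hh y ≤ S → |f i y| ≤ M * (1 + hh y) ^ p := by
    intro k
    induction k with
    | zero =>
      intro i y hy _
      rw [Nat.cast_zero, zero_mul, add_zero] at hy
      refine (hcore i y hy).trans ?_
      have h1 : (1 : ℝ) ≤ (1 + hh y) ^ p := one_le_pow₀ (by linarith [hh_nonneg y])
      nlinarith
    | succ k ih =>
      intro i y hy hyS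
      by_cases hyR : hh y ≤ R
      · refine (hcore i y hyR).trans ?_
        have h1 : (1 : ℝ) ≤ (1 + hh y) ^ p := one_le_pow₀ (by linarith [hh_nonneg y])
        nlinarith
      push Not at hyR
      have hkey : ρ * hh y + C ≤ ρ' * (1 + hh y) - 1 := by
        have h1 : (ρ' - ρ) * R = 1 + C := by
          rw [hR]; field_simp
        have h2 : (ρ' - ρ) * R ≤ (ρ' - ρ) * hh y := mul_le_mul_of_nonneg_left hyR.le hρρ'.le
        nlinarith
      have hkey2 : ρ' * (1 + hh y) - 1 ≤ hh y - δ := by
        have h1 : (1 - ρ') * (1 + R) ≤ (1 - ρ') * (1 + hh y) :=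
          mul_le_mul_of_nonneg_left (by linarith) (by linarith)
        rw [hδ]
        nlinarith
      set m := M * (ρ' * (1 + hh y)) ^ p with hm
      have hm0 : 0 ≤ m := by
        have := hh_nonneg y
        positivity
      have hlow : ∀ i, -(n * m) ≤ f i y := by
        intro i
        obtain ⟨v, hv, hvi, hvj⟩ := hcon i y
        have hsmall : ∀ j, j ≠ i → |f j (v j)| ≤ m := by
          intro j hj
          have h1 := hvj j hj
          have h2 : hh (v j) ≤ ρ' * (1 + hh y) - 1 := h1.trans hkey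
          have h3 : hh (v j) ≤ hh y - δ := h2.trans hkey2
          have h4 := ih j (v j) (by push_cast at hy; linarith) (by linarith)
          refine h4.trans ?_
          apply mul_le_mul_of_nonneg_left _ hM
          apply pow_le_pow_left₀ (by linarith [hh_nonneg (v j)])
          linarith
        have hF := hpos v hv (fun j => by
          by_cases hj : j = i
          · rw [hj, hvi]; exact hyS
          · have h1 := (hvj j hj).trans (hkey.trans hkey2)
            linarith)
        rw [← add_sum_erase _ _ (mem_univ i), hvi] at hF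
        have h5 : ∑ j ∈ univ.erase i, f j (v j) ≤ n * m := by
          calc ∑ j ∈ univ.erase i, f j (v j) ≤ ∑ j ∈ univ.erase i, m :=
                Finset.sum_le_sum fun j hj => (le_abs_self _).trans (hsmall j (ne_of_mem_erase hj))
            _ ≤ ∑ j : ι, m := Finset.sum_le_sum_of_subset_of_nonneg (erase_subset _ _) (fun _ _ _ => hm0)
            _ = n * m := by rw [Finset.sum_const, Finset.card_univ, nsmul_eq_mul]
        linarith
      have hn1 : 1 ≤ n := by
        have : 0 < Fintype.card ι := Fintype.card_pos_iff.2 ⟨i⟩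
        rw [hn]
        exact_mod_cast this
      have hup : f i y ≤ n * (n * m) := by
        have h1 := hsum y
        rw [← add_sum_erase _ _ (mem_univ i)] at h1
        have h2 : -(n * (n * m)) ≤ ∑ j ∈ univ.erase i, f j y := by
          calc -(n * (n * m)) = ∑ _j : ι, -(n * m) := by
                rw [Finset.sum_const, Finset.card_univ, nsmul_eq_mul]; ring
            _ ≤ ∑ j ∈ univ.erase i, -(n * m) := by
                rw [Finset.sum_const, Finset.sum_const, Finset.card_univ, nsmul_eq_mul, nsmul_eq_mul]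
                have h3 : (((univ : Finset ι).erase i).card : ℝ) ≤ n := by
                  rw [hn]
                  exact_mod_cast Finset.card_le_univ _
                have h4 : 0 ≤ n * m := mul_nonneg hn0 hm0
                nlinarith
            _ ≤ ∑ j ∈ univ.erase i, f j y := Finset.sum_le_sum fun j _ => hlow j
        linarith
      have hfin : |f i y| ≤ n ^ 2 * m := by
        rw [abs_le]
        have h1 := hlow i
        have h2 : n * m ≤ n ^ 2 * m := by
          apply mul_le_mul_of_nonneg_right _ hm0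
          nlinarith
        constructor
        · linarith
        · nlinarith
      refine hfin.trans ?_
      rw [hm, mul_pow]
      have h1 : 0 ≤ M * (1 + hh y) ^ p := by
        have := hh_nonneg y
        positivity
      calc n ^ 2 * (M * (ρ' ^ p * (1 + hh y) ^ p)) = (n ^ 2 * ρ' ^ p) * (M * (1 + hh y) ^ p) := by ring
        _ ≤ 1 * (M * (1 + hh y) ^ p) := mul_le_mul_of_nonneg_right hp h1
        _ = M * (1 + hh y) ^ p := one_mul _
  intro i y hy
  obtain ⟨k, hk⟩ := exists_nat_gt ((hh y - R) / δ)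
  rw [div_lt_iff₀ hδ0] at hk
  exact hstep k i y (by linarith) hy

end Pool.Agent.J4.H31.SM
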