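import Mathlib
import Pool.Agent.J4.H31.SM.Grow

/-! Rigidity: there are no functions with zero sum which are positive on the solutions of bounded
height, if the bound is large. -/

set_option autoImplicit false
set_option linter.unusedSectionVars false

open NumberField NumberField.mixedEmbedding NumberField.InfinitePlace Finset IsDedekindDomain
open scoped Classical

namespace Pool.Agent.J4.H31.SM

variable {K : Type} [Field K] [NumberField K] {ι : Type} [Fintype ι]

lemma hh_le_sum (y : 𝓞 K) : hh y ≤ (∑ l, hh (bZ K l)) * ∑ l, |((co y l : ℤ) : ℝ)| := by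
  have h1 : mixedEmbedding K (y : K) = ∑ l, ((co y l : ℤ) : ℝ) • mixedEmbedding K (bZ K l : K) := by
    have h2 : y = ∑ l, co y l • bZ K l := ((bZ K).sum_repr y).symm
    conv_lhs => rw [h2]
    show mixedEmbedding K (algebraMap (𝓞 K) K (∑ l, co y l • bZ K l)) = _
    rw [map_sum, map_sum]
    refine Finset.sum_congr rfl fun l _ => ?_
    rw [map_zsmul, map_zsmul, Int.cast_smul_eq_zsmul]
  unfold hh
  rw [h1, Finset.mul_sum]
  refine (norm_sum_le _ _).trans (Finset.sum_le_sum fun l _ => ?_)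
  rw [_root_.norm_smul, Real.norm_eq_abs, mul_comm]
  apply mul_le_mul_of_nonneg_right _ (abs_nonneg _)
  exact Finset.single_le_sum (f := fun l => ‖mixedEmbedding K (bZ K l : K)‖) (fun l _ => norm_nonneg _) (mem_univ l)

/-- the Liouville property in the number field -/
theorem liouville_field (a : ι → 𝓞 K) (ha : ∀ i, a i ≠ 0)
    (hstrict : ∀ v : InfinitePlace K, ∀ i, v (a i : K) < ∑ j ∈ univ.erase i, v (a j : K))
    (hfin : ∀ v : HeightOneSpectrum (𝓞 K), ∀ i, ∃ j, j ≠ i ∧ v.valuation K (a i : K) ≤ v.valuation K (a j : K))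
    (hne : ∀ i : ι, ∃ j, j ≠ i) [Nonempty ι] (f : ι → 𝓞 K → ℝ) (p : ℕ)
    (hgrow : ∀ i y, |f i y| ≤ (1 + hh y) ^ p) (hsum : ∀ y, ∑ i, f i y = 0)
    (hpos : ∀ v : ι → 𝓞 K, ∑ j, a j * v j = 0 → 0 ≤ ∑ i, f i (v i)) (v : ι → 𝓞 K) (hv : ∑ j, a j * v j = 0) :
    ∑ i, f i (v i) = 0 := by
  obtain ⟨N, u, s, hs, hu, hgen, hQ⟩ := exists_cov a ha hstrict
  set c : Fin N → ι → Fin (dd K) → ℤ := fun k i => co (u k i) with hc
  have hco : ∀ (g : Fin N → ℤ) i, co (∑ k, g k • u k i) = Y c i g := by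
    intro g i
    funext l
    unfold co Y
    rw [map_sum, Finsupp.finsetSum_apply]
    refine Finset.sum_congr rfl fun k _ => ?_
    rw [map_zsmul, Finsupp.smul_apply, smul_eq_mul]
    rfl
  have hsymm : ∀ y : 𝓞 K, (bZ K).equivFun.symm (co y) = y := fun y => (bZ K).equivFun.symm_apply_apply y
  have hcosymm : ∀ z : Fin (dd K) → ℤ, co ((bZ K).equivFun.symm z) = z := fun z => (bZ K).equivFun.apply_symm_apply z
  set ft : ι → (Fin (dd K) → ℤ) → ℝ := fun i z => f i ((bZ K).equivFun.symm z) with hft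
  set A := 1 + ∑ l, hh (bZ K l) with hA
  have hA1 : 1 ≤ A := by
    have : 0 ≤ ∑ l, hh (bZ K l) := Finset.sum_nonneg fun l _ => hh_nonneg _
    linarith
  have hval : ∀ g : Fin N → ℤ, ∑ i, ft i (Y c i g) = ∑ i, f i (∑ k, g k • u k i) := by
    intro g
    refine Finset.sum_congr rfl fun i _ => ?_
    simp only [hft]
    rw [← hco, hsymm]
  have hsol : ∀ g : Fin N → ℤ, ∑ j, a j * ∑ k, g k • u k j = 0 := by
    intro g
    have h1 : ∀ j, a j * ∑ k, g k • u k j = ∑ k, g k • (a j * u k j) := by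
      intro j
      rw [Finset.mul_sum]
      refine Finset.sum_congr rfl fun k _ => ?_
      rw [mul_smul_comm]
    simp only [h1]
    rw [Finset.sum_comm]
    apply Finset.sum_eq_zero
    intro k _
    rw [← Finset.smul_sum, hu k, smul_zero]
  obtain ⟨g, hg⟩ := hgen v hv
  have hfinal := liouville c hs (fun i i' l l' => hQ i i' l l') (fun i => by
    rw [eq_top_iff]
    intro z _
    obtain ⟨w, hw, hwi⟩ := surj a ha hfin hne i ((bZ K).equivFun.symm z)
    obtain ⟨g', hg'⟩ := hgen w hw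
    have h1 := hg' i
    rw [hwi] at h1
    have h2 : z = Y c i g' := by
      rw [← hco, ← h1, hcosymm]
    rw [h2]
    have h3 : Y c i g' = ∑ k, g' k • c k i := by
      funext l
      unfold Y
      rw [Finset.sum_apply]
      refine Finset.sum_congr rfl fun k _ => ?_
      rw [Pi.smul_apply, smul_eq_mul]
    rw [h3]
    exact Submodule.sum_mem _ fun k _ => Submodule.smul_mem _ _ (Submodule.subset_span ⟨k, rfl⟩))
    ft p (A ^ p) (fun i z => by
      simp only [hft]
      refine (hgrow i _).trans ?_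
      rw [← mul_pow]
      apply pow_le_pow_left₀ (by linarith [hh_nonneg ((bZ K).equivFun.symm z)])
      have h1 := hh_le_sum ((bZ K).equivFun.symm z)
      rw [hcosymm] at h1
      have h2 : 0 ≤ ∑ l, |(z l : ℝ)| := Finset.sum_nonneg fun l _ => abs_nonneg _
      rw [hA]
      nlinarith [Finset.sum_nonneg (s := univ) (f := fun l => hh (bZ K l)) fun l _ => hh_nonneg (bZ K l)])
    (fun z => hsum _) (fun g => by
      rw [hval]
      exact hpos _ (hsol g)) g
  rw [hval] at hfinal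
  rw [← hfinal]
  refine Finset.sum_congr rfl fun i _ => ?_
  rw [hg i]

/-- rigidity -/
theorem rigid (a : ι → 𝓞 K) (ha : ∀ i, a i ≠ 0)
    (hstrict : ∀ v : InfinitePlace K, ∀ i, v (a i : K) < ∑ j ∈ univ.erase i, v (a j : K))
    (hfin : ∀ v : HeightOneSpectrum (𝓞 K), ∀ i, ∃ j, j ≠ i ∧ v.valuation K (a i : K) ≤ v.valuation K (a j : K))
    (hne : ∀ i : ι, ∃ j, j ≠ i) [Nonempty ι] : ∃ S : ℝ, ∀ f : ι → 𝓞 K → ℝ, (∀ y, ∑ i, f i y = 0) →
      ¬ ∀ v : ι → 𝓞 K, ∑ j, a j * v j = 0 → v ≠ 0 → (∀ j, hh (v j) ≤ S) → 0 < ∑ i, f i (v i) := by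
  obtain ⟨ρ, C, hρ0, hρ1, hC, hcon⟩ := contract a ha hstrict hfin hne
  obtain ⟨p, R, hR0, hgrowth⟩ := growth a ρ C hρ0 hρ1 hC hcon
  by_contra hcontra
  push Not at hcontra
  -- a nonzero solution
  obtain ⟨i0⟩ := (inferInstance : Nonempty ι)
  obtain ⟨v0, hv0, hv0i⟩ := surj a ha hfin hne i0 1
  have hv0ne : v0 ≠ 0 := by
    intro h
    rw [h] at hv0i
    exact zero_ne_one hv0i
  obtain ⟨S0, hS0⟩ : ∃ S0 : ℝ, ∀ j, hh (v0 j) ≤ S0 := by
    refine ⟨∑ j, hh (v0 j), fun j => ?_⟩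
    exact Finset.single_le_sum (f := fun j => hh (v0 j)) (fun j _ => hh_nonneg _) (mem_univ j)
  choose f hf0 hf1 using fun k : ℕ => hcontra (S0 + k)
  -- the kernel
  set Nin : Submodule ℝ (ι → 𝓞 K → ℝ) :=
    { carrier := {g | (∀ y, ∑ i, g i y = 0) ∧ ∀ v : ι → 𝓞 K, ∑ j, a j * v j = 0 → ∑ i, g i (v i) = 0}
      add_mem' := by
        rintro g g' ⟨h1, h2⟩ ⟨h1', h2'⟩
        refine ⟨fun y => ?_, fun v hv => ?_⟩
        · simp only [Pi.add_apply, Finset.sum_add_distrib]
          rw [h1, h1', add_zero]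
        · simp only [Pi.add_apply, Finset.sum_add_distrib]
          rw [h2 v hv, h2' v hv, add_zero]
      zero_mem' := by
        refine ⟨fun y => by simp, fun v hv => by simp⟩
      smul_mem' := by
        rintro t g ⟨h1, h2⟩
        refine ⟨fun y => ?_, fun v hv => ?_⟩
        · simp only [Pi.smul_apply, smul_eq_mul]
          rw [← Finset.mul_sum, h1, mul_zero]
        · simp only [Pi.smul_apply, smul_eq_mul]
          rw [← Finset.mul_sum, h2 v hv, mul_zero] } with hNin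
  -- the core
  set core : Finset (𝓞 K) := (finite_hh (K := K) R).toFinset with hcore
  have hmemcore : ∀ y : 𝓞 K, y ∈ core ↔ hh y ≤ R := by
    intro y
    rw [hcore, Set.Finite.mem_toFinset]
    rfl
  set r : (ι → 𝓞 K → ℝ) →ₗ[ℝ] (ι → core → ℝ) :=
    { toFun := fun g i y => g i y.1
      map_add' := fun g g' => rfl
      map_smul' := fun t g => rfl } with hr
  obtain ⟨Q, hQ⟩ := Submodule.exists_isCompl (Nin.map r)
  -- the corrected functions
  have hcorr : ∀ k : ℕ, ∃ f' : ι → 𝓞 K → ℝ, (∀ y, ∑ i, f' i y = 0) ∧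
      (∀ v : ι → 𝓞 K, ∑ j, a j * v j = 0 → (∀ j, hh (v j) ≤ S0 + k) → 0 ≤ ∑ i, f' i (v i)) ∧
      r f' ∈ Q ∧ ‖r f'‖ = 1 := by
    intro k
    have hmem : r (f k) ∈ (Nin.map r) ⊔ Q := by rw [hQ.sup_eq_top]; trivial
    obtain ⟨P, hP, q, hq, hPq⟩ := Submodule.mem_sup.1 hmem
    obtain ⟨g, hg, rfl⟩ := hP
    set f1 := f k - g with hf1def
    have hrf1 : r f1 = q := by rw [hf1def, map_sub, ← hPq, add_sub_cancel_left]
    have hsum1 : ∀ y, ∑ i, f1 i y = 0 := by
      intro y
      simp only [hf1def, Pi.sub_apply, Finset.sum_sub_distrib]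
      rw [hf0, hg.1, sub_zero]
    have hval1 : ∀ v : ι → 𝓞 K, ∑ j, a j * v j = 0 → ∑ i, f1 i (v i) = ∑ i, f k i (v i) := by
      intro v hv
      simp only [hf1def, Pi.sub_apply, Finset.sum_sub_distrib]
      rw [hg.2 v hv, sub_zero]
    have hpos1 : ∀ v : ι → 𝓞 K, ∑ j, a j * v j = 0 → (∀ j, hh (v j) ≤ S0 + k) → 0 ≤ ∑ i, f1 i (v i) := by
      intro v hv hvS
      by_cases h0 : v = 0
      · subst h0
        have := hsum1 0
        simp only [Pi.zero_apply]
        rw [this]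
      · rw [hval1 v hv]
        exact (hf1 k v hv h0 hvS).le
    have hq0 : q ≠ 0 := by
      intro hq0
      have h1 : ∀ i y, hh y ≤ S0 + k → |f1 i y| ≤ 0 * (1 + hh y) ^ p := by
        refine hgrowth (S0 + k) f1 hsum1 hpos1 0 (le_refl _) fun i y hy => ?_
        have h2 := congrFun (congrFun hrf1 i) ⟨y, (hmemcore y).2 hy⟩
        rw [hq0] at h2
        have h3 : f1 i y = 0 := h2
        rw [h3, abs_zero]
      have hk0 : (0 : ℝ) ≤ k := Nat.cast_nonneg k
      have h2 : ∑ i, f1 i (v0 i) = 0 := by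
        apply Finset.sum_eq_zero
        intro i _
        have h3 := h1 i (v0 i) (by linarith [hS0 i])
        rw [zero_mul] at h3
        exact abs_eq_zero.1 (le_antisymm h3 (abs_nonneg _))
      have h3 := hf1 k v0 hv0 hv0ne (fun j => by linarith [hS0 j])
      rw [← hval1 v0 hv0, h2] at h3
      exact lt_irrefl _ h3
    have hqn : 0 < ‖q‖ := norm_pos_iff.2 hq0
    refine ⟨(‖q‖⁻¹) • f1, fun y => ?_, fun v hv hvS => ?_, ?_, ?_⟩
    · simp only [Pi.smul_apply, smul_eq_mul]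
      rw [← Finset.mul_sum, hsum1, mul_zero]
    · simp only [Pi.smul_apply, smul_eq_mul]
      rw [← Finset.mul_sum]
      exact mul_nonneg (inv_nonneg.2 hqn.le) (hpos1 v hv hvS)
    · rw [map_smul, hrf1]
      exact Q.smul_mem _ hq
    · rw [map_smul, hrf1, _root_.norm_smul, norm_inv, norm_norm, inv_mul_cancel₀ hqn.ne']
  choose F hF0 hFpos hFQ hFn using hcorr
  have hFgrow : ∀ k : ℕ, ∀ i y, hh y ≤ S0 + k → |F k i y| ≤ (1 + hh y) ^ p := by
    intro k i y hy
    have := hgrowth (S0 + k) (F k) (hF0 k) (hFpos k) 1 zero_le_one (fun i y hy => by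
      have h1 : ‖r (F k) i ⟨y, (hmemcore y).2 hy⟩‖ ≤ 1 := by
        rw [← hFn k]
        exact (norm_le_pi_norm (r (F k) i) _).trans (norm_le_pi_norm (r (F k)) i)
      exact h1) i y hy
    rwa [one_mul] at this
  -- the limit
  set U : Ultrafilter ℕ := Filter.hyperfilter ℕ with hU
  have hUle : (U : Filter ℕ) ≤ Filter.atTop := by
    rw [← Nat.cofinite_eq_atTop]
    exact Filter.hyperfilter_le_cofinite
  have hev : ∀ B : ℝ, ∀ᶠ k : ℕ in (U : Filter ℕ), B ≤ S0 + k := by
    intro B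
    apply hUle
    obtain ⟨k0, hk0⟩ := exists_nat_gt (B - S0)
    filter_upwards [Filter.eventually_ge_atTop k0] with k hk
    have : (k0 : ℝ) ≤ k := by exact_mod_cast hk
    linarith
  have hlim : ∀ i y, ∃ x : ℝ, Filter.Tendsto (fun k => F k i y) (U : Filter ℕ) (nhds x) := by
    intro i y
    have h1 : ((U.map fun k => F k i y : Ultrafilter ℝ) : Filter ℝ) ≤
        Filter.principal (Set.Icc (-((1 + hh y) ^ p)) ((1 + hh y) ^ p)) := by
      rw [Filter.le_principal_iff]
      show ∀ᶠ k in (U : Filter ℕ), F k i y ∈ Set.Icc (-((1 + hh y) ^ p)) ((1 + hh y) ^ p)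
      filter_upwards [hev (hh y)] with k hk
      exact abs_le.1 (hFgrow k i y hk)
    obtain ⟨x, -, hx⟩ := isCompact_Icc.ultrafilter_le_nhds _ h1
    exact ⟨x, hx⟩
  choose G hG using hlim
  have hG0 : ∀ y, ∑ i, G i y = 0 := by
    intro y
    have h1 : Filter.Tendsto (fun k => ∑ i, F k i y) (U : Filter ℕ) (nhds (∑ i, G i y)) :=
      tendsto_finsetSum _ fun i _ => hG i y
    simp only [hF0] at h1
    exact (tendsto_nhds_unique h1 tendsto_const_nhds)
  have hGpos : ∀ v : ι → 𝓞 K, ∑ j, a j * v j = 0 → 0 ≤ ∑ i, G i (v i) := by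
    intro v hv
    have h1 : Filter.Tendsto (fun k => ∑ i, F k i (v i)) (U : Filter ℕ) (nhds (∑ i, G i (v i))) :=
      tendsto_finsetSum _ fun i _ => hG i (v i)
    refine ge_of_tendsto h1 ?_
    filter_upwards [hev (∑ j, hh (v j))] with k hk
    refine hFpos k v hv fun j => ?_
    exact (Finset.single_le_sum (f := fun j => hh (v j)) (fun j _ => hh_nonneg _) (mem_univ j)).trans hk
  have hGgrow : ∀ i y, |G i y| ≤ (1 + hh y) ^ p := by
    intro i y
    have h1 := (hG i y).abs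
    refine le_of_tendsto h1 ?_
    filter_upwards [hev (hh y)] with k hk
    exact hFgrow k i y hk
  have hGN : G ∈ Nin := ⟨hG0, fun v hv => liouville_field a ha hstrict hfin hne G p hGgrow hG0 hGpos v hv⟩
  have hrlim : Filter.Tendsto (fun k => r (F k)) (U : Filter ℕ) (nhds (r G)) := by
    rw [tendsto_pi_nhds]
    intro i
    rw [tendsto_pi_nhds]
    intro y
    exact hG i y.1
  have hrQ : r G ∈ Q := by
    have hclosed : IsClosed (Q : Set (ι → core → ℝ)) := Q.closed_of_finiteDimensional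
    exact hclosed.mem_of_tendsto hrlim (Filter.Eventually.of_forall fun k => hFQ k)
  have hrn : ‖r G‖ = 1 := by
    have h1 := hrlim.norm
    simp only [hFn] at h1
    exact tendsto_nhds_unique h1 tendsto_const_nhds
  have hr0 : r G = 0 := by
    have h1 : r G ∈ Nin.map r ⊓ Q := ⟨⟨G, hGN, rfl⟩, hrQ⟩
    rw [hQ.inf_eq_bot] at h1
    exact (Submodule.mem_bot ℝ).1 h1
  rw [hr0, norm_zero] at hrn
  exact zero_ne_one hrn

end Pool.Agent.J4.H31.SM
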