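import Mathlib
import Pool.Agent.J4.H31.SM.Rigid
import Pool.Agent.H91R2.EndRat.Gordan

/-! A balanced multiset of solutions. -/

set_option autoImplicit false
set_option linter.unusedSectionVars false

open NumberField NumberField.mixedEmbedding NumberField.InfinitePlace Finset IsDedekindDomain
open scoped Classical

namespace Pool.Agent.J4.H31.SM

variable {K : Type} [Field K] [NumberField K] {ι : Type} [Fintype ι]

theorem exists_weights (a : ι → 𝓞 K) (ha : ∀ i, a i ≠ 0)
    (hstrict : ∀ v : InfinitePlace K, ∀ i, v (a i : K) < ∑ j ∈ univ.erase i, v (a j : K))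
    (hfin : ∀ v : HeightOneSpectrum (𝓞 K), ∀ i, ∃ j, j ≠ i ∧ v.valuation K (a i : K) ≤ v.valuation K (a j : K))
    (hne : ∀ i : ι, ∃ j, j ≠ i) [Nonempty ι] :
    ∃ (n : ℕ) (v : Fin n → ι → 𝓞 K) (m : Fin n → ℕ), (∀ k, ∑ j, a j * v k j = 0) ∧ (∀ k, v k ≠ 0) ∧
      (∃ k, m k ≠ 0) ∧ ∀ i i' y, ∑ k, (if v k i = y then m k else 0) = ∑ k, if v k i' = y then m k else 0 := by
  obtain ⟨S, hS⟩ := rigid a ha hstrict hfin hne
  -- the finite set of solutions
  have hfinite : {v : ι → 𝓞 K | ∑ j, a j * v j = 0 ∧ v ≠ 0 ∧ ∀ j, hh (v j) ≤ S}.Finite := by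
    refine (Set.Finite.pi' (fun _ : ι => finite_hh (K := K) S)).subset ?_
    intro v hv
    exact fun j => hv.2.2 j
  set T := hfinite.toFinset with hT
  have hmemT : ∀ v, v ∈ T ↔ (∑ j, a j * v j = 0 ∧ v ≠ 0 ∧ ∀ j, hh (v j) ≤ S) := by
    intro v
    rw [hT, Set.Finite.mem_toFinset]
    rfl
  set n := T.card with hn
  set e : T ≃ Fin n := T.equivFin with he
  set v : Fin n → ι → 𝓞 K := fun k => (e.symm k).1 with hv
  have hvT : ∀ k, v k ∈ T := fun k => (e.symm k).2
  have hvsurj : ∀ w ∈ T, ∃ k, v k = w := fun w hw => ⟨e ⟨w, hw⟩, by simp [hv]⟩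
  -- the space of values
  set L : Submodule ℚ (Fin n → ℚ) :=
    { carrier := {x | ∃ f : ι → 𝓞 K → ℚ, (∀ y, ∑ i, f i y = 0) ∧ ∀ k, x k = ∑ i, f i (v k i)}
      add_mem' := by
        rintro x x' ⟨f, hf, hx⟩ ⟨f', hf', hx'⟩
        refine ⟨f + f', fun y => ?_, fun k => ?_⟩
        · simp only [Pi.add_apply, Finset.sum_add_distrib]
          rw [hf, hf', add_zero]
        · simp only [Pi.add_apply, Finset.sum_add_distrib]
          rw [hx, hx']
      zero_mem' := ⟨0, fun y => by simp, fun k => by simp⟩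
      smul_mem' := by
        rintro t x ⟨f, hf, hx⟩
        refine ⟨fun i y => t * f i y, fun y => ?_, fun k => ?_⟩
        · rw [← Finset.mul_sum, hf, mul_zero]
        · rw [Pi.smul_apply, smul_eq_mul, hx, Finset.mul_sum] } with hL
  have hn0 : 0 < n := by
    rcases Nat.eq_zero_or_pos n with h | h
    · exfalso
      refine hS (fun _ _ => 0) (fun y => by simp) fun w hw hw0 hwS => ?_
      have h1 : w ∈ T := (hmemT w).2 ⟨hw, hw0, hwS⟩
      rw [hn, Finset.card_eq_zero] at h
      rw [h] at h1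
      exact absurd h1 (Finset.notMem_empty _)
    · exact h
  rcases H91R2.EndRat.gordan n L hn0 with ⟨x, ⟨f, hf, hx⟩, hxpos⟩ | ⟨c, hc0, ⟨k0, hk0⟩, hc⟩
  · exfalso
    refine hS (fun i y => (f i y : ℝ)) (fun y => ?_) fun w hw hw0 hwS => ?_
    · rw [← Rat.cast_sum, hf, Rat.cast_zero]
    · obtain ⟨k, rfl⟩ := hvsurj w ((hmemT w).2 ⟨hw, hw0, hwS⟩)
      rw [← Rat.cast_sum, ← hx k]
      exact_mod_cast hxpos k
  · -- clear denominators
    have hden : ∀ k, ∃ m : ℕ, (m : ℚ) = (∏ j, (c j).den : ℕ) * c k := by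
      intro k
      rw [← Finset.mul_prod_erase univ _ (mem_univ k)]
      refine ⟨(∏ j ∈ univ.erase k, (c j).den) * (c k).num.toNat, ?_⟩
      have h1 : ((c k).num.toNat : ℚ) = c k * (c k).den := by
        have h2 : (((c k).num.toNat : ℕ) : ℤ) = (c k).num := Int.toNat_of_nonneg (Rat.num_nonneg.2 (hc0 k))
        have h3 : ((c k).num.toNat : ℚ) = (((c k).num.toNat : ℤ) : ℚ) := by push_cast; rfl
        rw [h3, h2, Rat.mul_den_eq_num]
      push_cast
      rw [h1]
      ring
    choose m hm using hden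
    refine ⟨n, v, m, fun k => ((hmemT _).1 (hvT k)).1, fun k => ((hmemT _).1 (hvT k)).2.1, ⟨k0, ?_⟩, ?_⟩
    · intro h
      have h1 := hm k0
      rw [h, Nat.cast_zero] at h1
      have h2 : ((∏ j, (c j).den : ℕ) : ℚ) ≠ 0 := by
        have : (∏ j, (c j).den : ℕ) ≠ 0 := Finset.prod_ne_zero_iff.2 fun j _ => (c j).den_nz
        exact_mod_cast this
      rcases mul_eq_zero.1 h1.symm with h3 | h3
      · exact h2 h3
      · exact hk0 h3
    · intro i i' y
      by_cases hii : i = i'
      · rw [hii]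
      -- the test function
      set f : ι → 𝓞 K → ℚ := fun j z => if z = y then ((if j = i then 1 else 0) - if j = i' then 1 else 0) else 0 with hf
      have hfsum : ∀ z, ∑ j, f j z = 0 := by
        intro z
        simp only [hf]
        by_cases hz : z = y
        · simp [hz]
        · simp [hz]
      have hmem : (fun k => ∑ j, f j (v k j)) ∈ L := ⟨f, hfsum, fun k => rfl⟩
      have h1 := hc _ hmem
      have hval : ∀ k, ∑ j, f j (v k j) = (if v k i = y then 1 else 0) - if v k i' = y then 1 else 0 := by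
        intro k
        have h2 : ∀ j, f j (v k j) = (if j = i then (if v k j = y then 1 else 0) else 0) -
            if j = i' then (if v k j = y then 1 else 0) else 0 := by
          intro j
          simp only [hf]
          split_ifs <;> simp
        simp only [h2, Finset.sum_sub_distrib]
        simp
      have h3 : ∀ k, (m k : ℚ) * ((if v k i = y then 1 else 0) - if v k i' = y then 1 else 0) =
          (∏ j, (c j).den : ℕ) * (c k * ∑ j, f j (v k j)) := by
        intro k
        rw [hm k, hval k]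
        ring
      have h4 : ∑ k, (m k : ℚ) * ((if v k i = y then 1 else 0) - if v k i' = y then 1 else 0) = 0 := by
        simp only [h3]
        rw [← Finset.mul_sum, h1, mul_zero]
      simp only [mul_sub, mul_ite, mul_one, mul_zero, Finset.sum_sub_distrib] at h4
      have h5 := sub_eq_zero.1 h4
      exact_mod_cast h5

/-- a balanced family of solutions, given by permutations -/
theorem exists_perms (a : ι → 𝓞 K) (ha : ∀ i, a i ≠ 0)
    (hstrict : ∀ v : InfinitePlace K, ∀ i, v (a i : K) < ∑ j ∈ univ.erase i, v (a j : K))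
    (hfin : ∀ v : HeightOneSpectrum (𝓞 K), ∀ i, ∃ j, j ≠ i ∧ v.valuation K (a i : K) ≤ v.valuation K (a j : K))
    (hne : ∀ i : ι, ∃ j, j ≠ i) [Nonempty ι] :
    ∃ (T : Type) (_ : Fintype T) (y : T → 𝓞 K) (π : ι → Equiv.Perm T), (∃ t, y t ≠ 0) ∧
      ∀ t, ∑ i, a i * y (π i t) = 0 := by
  obtain ⟨n, v, m, hv, hv0, ⟨k0, hk0⟩, hbal⟩ := exists_weights a ha hstrict hfin hne
  obtain ⟨i0⟩ := (inferInstance : Nonempty ι)
  set T := Σ k : Fin n, Fin (m k) with hT
  -- the fibres have the same cardinality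
  have hcard : ∀ i y, Fintype.card {t : T // v t.1 i = y} = ∑ k, if v k i = y then m k else 0 := by
    intro i y
    have e : {t : T // v t.1 i = y} ≃ Σ k : {k : Fin n // v k i = y}, Fin (m k) :=
      { toFun := fun t => ⟨⟨t.1.1, t.2⟩, t.1.2⟩
        invFun := fun s => ⟨⟨s.1.1, s.2⟩, s.1.2⟩
        left_inv := fun t => rfl
        right_inv := fun s => rfl }
    rw [Fintype.card_congr e, Fintype.card_sigma]
    simp only [Fintype.card_fin]
    rw [← Finset.sum_filter]
    symm
    apply Finset.sum_subtype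
    intro k
    simp
  have heq : ∀ i y, Nonempty ({t : T // v t.1 i = y} ≃ {t : T // v t.1 i0 = y}) := by
    intro i y
    rw [← Fintype.card_eq, hcard, hcard, hbal i i0 y]
  set φ := fun i y => Classical.choice (heq i y) with hφ
  -- the permutations
  have hperm : ∀ i, ∃ π : Equiv.Perm T, ∀ t, v (π t).1 i0 = v t.1 i := by
    intro i
    refine ⟨(Equiv.sigmaFiberEquiv (fun t : T => v t.1 i)).symm.trans
      ((Equiv.sigmaCongrRight fun y => φ i y).trans (Equiv.sigmaFiberEquiv (fun t : T => v t.1 i0))), fun t => ?_⟩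
    have h1 := (φ i (v t.1 i) ⟨t, rfl⟩).2
    exact h1
  choose π hπ using hperm
  refine ⟨T, inferInstance, fun t => v t.1 i0, π, ?_, fun t => ?_⟩
  · -- a nonzero value
    by_contra hzero
    push Not at hzero
    have hmk : 0 < m k0 := Nat.pos_of_ne_zero hk0
    set t0 : T := ⟨k0, ⟨0, hmk⟩⟩ with ht0
    apply hv0 k0
    funext i
    have h1 := hπ i t0
    have h2 : v (π i t0).1 i0 = 0 := hzero (π i t0)
    rw [h2] at h1
    exact h1.symm
  · simp only [hπ]
    exact hv t.1

end Pool.Agent.J4.H31.SM
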