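import Mathlib

/-! A polynomial over the ring of integers of a number field which is Eisenstein at one prime and
a product of distinct linear factors and one irreducible quadratic modulo another. -/

set_option autoImplicit false

open Polynomial Finset NumberField

namespace Pool.Agent.J4.H31.SM

variable {K : Type} [Field K] [NumberField K]

theorem exists_max (l : ℕ) (hl : l.Prime) :
    ∃ P : Ideal (𝓞 K), P.IsMaximal ∧ (l : 𝓞 K) ∈ P ∧ P ≠ ⊥ := by
  have h1 : (l : 𝓞 K) ∈ nonunits (𝓞 K) := by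
    intro hu
    have h2 : IsUnit ((l : ℤ) : 𝓞 K) := by exact_mod_cast hu
    have h3 : ((l : ℤ) : 𝓞 K) = algebraMap ℤ (𝓞 K) (l : ℤ) := by simp
    have h4 : IsUnit (Algebra.norm ℤ (algebraMap ℤ (𝓞 K) (l : ℤ))) := by
      rw [← h3]
      exact h2.map _
    rw [Algebra.norm_algebraMap, isUnit_pow_iff (Module.finrank_pos (R := ℤ) (M := 𝓞 K)).ne',
      Int.isUnit_iff] at h4
    have := hl.two_le
    omega
  obtain ⟨P, hP, hlP⟩ := exists_max_ideal_of_mem_nonunits h1
  refine ⟨P, hP, hlP, ?_⟩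
  rintro rfl
  rw [Ideal.mem_bot] at hlP
  have : l = 0 := by exact_mod_cast hlP
  exact hl.ne_zero this

omit [NumberField K] in
theorem mem_of_nat (l : ℕ) (hl : l.Prime) (P : Ideal (𝓞 K)) (hP : P ≠ ⊤) (hlP : (l : 𝓞 K) ∈ P) (m : ℤ)
    (hm : (m : 𝓞 K) ∈ P) : (l : ℤ) ∣ m := by
  by_contra h
  have h1 : IsCoprime (l : ℤ) m := (Int.isCoprime_iff_gcd_eq_one.2 <| by
    have h2 : Nat.Coprime l m.natAbs := (Nat.Prime.coprime_iff_not_dvd hl).2 fun h3 =>
      h (Int.natCast_dvd.2 h3)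
    simpa [Int.gcd] using h2)
  obtain ⟨x, y, hxy⟩ := h1
  apply hP
  rw [Ideal.eq_top_iff_one]
  have h2 : (1 : 𝓞 K) = (x : 𝓞 K) * (l : 𝓞 K) + (y : 𝓞 K) * (m : 𝓞 K) := by
    have := congrArg (fun z : ℤ => (z : 𝓞 K)) hxy
    push_cast at this
    exact this.symm
  rw [h2]
  exact P.add_mem (P.mul_mem_left _ hlP) (P.mul_mem_left _ hm)

theorem exists_poly (p : ℕ) (hp : p.Prime) (hp2 : 2 < p) :
    ∃ (f : (𝓞 K)[X]) (P : Ideal (𝓞 K)) (u : 𝓞 K), P.IsMaximal ∧ f.Monic ∧ f.natDegree = p ∧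
      Irreducible (f.map (algebraMap (𝓞 K) K)) ∧ (2 : 𝓞 K) ∉ P ∧ P ≠ ⊥ ∧
      (¬ IsSquare (Ideal.Quotient.mk P u)) ∧
      Function.Injective (fun i : Fin (p - 2) => Ideal.Quotient.mk P ((i : ℕ) : 𝓞 K)) ∧
      f.map (Ideal.Quotient.mk P) = (X ^ 2 - C (Ideal.Quotient.mk P u)) *
        ∏ i : Fin (p - 2), (X - C (Ideal.Quotient.mk P ((i : ℕ) : 𝓞 K))) := by
  obtain ⟨l2, hl2p, hl2⟩ := Nat.exists_infinite_primes (p + 1)
  obtain ⟨l1, hl1p, hl1⟩ := Nat.exists_infinite_primes (l2 + 1)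
  obtain ⟨P1, hP1, hlP1, hP1b⟩ := exists_max (K := K) l1 hl1
  obtain ⟨P, hP, hlP, hPb⟩ := exists_max (K := K) l2 hl2
  have h2P : (2 : 𝓞 K) ∉ P := by
    intro h
    have h1 := mem_of_nat l2 hl2 P hP.ne_top hlP 2 (by exact_mod_cast h)
    have h2 : l2 ∣ 2 := by exact_mod_cast h1
    have := Nat.le_of_dvd (by norm_num) h2
    omega
  have hinj : Function.Injective (fun i : Fin (p - 2) => Ideal.Quotient.mk P ((i : ℕ) : 𝓞 K)) := by
    intro i j hij
    have h1 := Ideal.Quotient.eq.1 hij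
    have h2 := mem_of_nat l2 hl2 P hP.ne_top hlP ((i : ℕ) - (j : ℕ) : ℤ) (by
      push_cast
      exact h1)
    have h3 : ((i : ℕ) - (j : ℕ) : ℤ) = 0 := by
      apply Int.eq_zero_of_abs_lt_dvd h2
      have := i.2
      have := j.2
      rw [abs_lt]
      constructor <;> omega
    apply Fin.ext
    omega
  have hcop : IsCoprime (P1 ^ 2) P := by
    apply IsCoprime.pow_left
    rw [Ideal.isCoprime_iff_exists]
    have h1 : IsCoprime (l1 : ℤ) (l2 : ℤ) :=
      Nat.isCoprime_iff_coprime.2 ((Nat.coprime_primes hl1 hl2).2 (by omega))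
    obtain ⟨x, y, hxy⟩ := h1
    refine ⟨(x : 𝓞 K) * l1, P1.mul_mem_left _ hlP1, (y : 𝓞 K) * l2, P.mul_mem_left _ hlP, ?_⟩
    have := congrArg (fun z : ℤ => (z : 𝓞 K)) hxy
    push_cast at this
    exact this
  rw [Ideal.isCoprime_iff_exists] at hcop
  obtain ⟨x, hx, y, hy, hxy⟩ := hcop
  obtain ⟨t, ht, ht2⟩ := Ideal.exists_mem_pow_notMem_pow_succ P1 hP1b hP1.ne_top 1
  rw [pow_one] at ht
  -- a nonsquare
  let _ : Field (𝓞 K ⧸ P) := Ideal.Quotient.field P
  have : Finite (𝓞 K ⧸ P) := Ideal.finiteQuotientOfFreeOfNeBot P hPb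
  obtain ⟨u', hu'⟩ := FiniteField.exists_nonsquare (F := 𝓞 K ⧸ P) (by
    intro h
    have h1 : ((2 : ℕ) : 𝓞 K ⧸ P) = 0 := by
      rw [← h]
      exact CharP.cast_eq_zero _ _
    apply h2P
    rw [← Ideal.Quotient.eq_zero_iff_mem]
    exact_mod_cast h1)
  obtain ⟨u, rfl⟩ := Ideal.Quotient.mk_surjective u'
  set g1 : (𝓞 K)[X] := X ^ p - C t with hg1
  set g2 : (𝓞 K)[X] := (X ^ 2 - C u) * ∏ i : Fin (p - 2), (X - C ((i : ℕ) : 𝓞 K)) with hg2
  have hg1m : g1.Monic := monic_X_pow_sub_C t hp.ne_zero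
  have hprodm : (∏ i : Fin (p - 2), ((X : (𝓞 K)[X]) - C ((i : ℕ) : 𝓞 K))).Monic :=
    monic_prod_of_monic _ _ fun i _ => monic_X_sub_C _
  have hqm : ((X : (𝓞 K)[X]) ^ 2 - C u).Monic := monic_X_pow_sub_C u two_ne_zero
  have hg2m : g2.Monic := hqm.mul hprodm
  have hg1d : g1.natDegree = p := natDegree_X_pow_sub_C
  have hg2d : g2.natDegree = p := by
    rw [hg2, hqm.natDegree_mul hprodm, natDegree_X_pow_sub_C, natDegree_prod_of_monic _ _ (fun i _ => monic_X_sub_C _)]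
    simp only [natDegree_X_sub_C, sum_const, card_univ, Fintype.card_fin, smul_eq_mul, mul_one]
    omega
  have hdeg12 : g2.degree = g1.degree := by
    rw [degree_eq_natDegree hg1m.ne_zero, degree_eq_natDegree hg2m.ne_zero, hg1d, hg2d]
  have hlt : (C x * (g2 - g1)).degree < g1.degree := by
    rw [← smul_eq_C_mul]
    refine lt_of_le_of_lt (degree_smul_le x _) ?_
    have := degree_sub_lt hdeg12 hg2m.ne_zero (by rw [hg1m.leadingCoeff, hg2m.leadingCoeff])
    rwa [hdeg12] at this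
  set f : (𝓞 K)[X] := g1 + C x * (g2 - g1) with hf
  have hfm : f.Monic := hg1m.add_of_left hlt
  have hfd : f.natDegree = p := by
    rw [hf, natDegree_add_eq_left_of_degree_lt hlt, hg1d]
  have hEis : f.IsEisensteinAt P1 := by
    refine ⟨?_, ?_, ?_⟩
    · rw [hfm.leadingCoeff]
      intro h
      exact hP1.ne_top ((Ideal.eq_top_iff_one _).2 h)
    · intro n hn
      rw [hfd] at hn
      rw [hf, coeff_add, coeff_C_mul]
      refine P1.add_mem ?_ (P1.mul_mem_right _ (Ideal.pow_le_self two_ne_zero hx))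
      rw [hg1, coeff_sub, coeff_X_pow, if_neg hn.ne, coeff_C]
      split_ifs
      · rw [zero_sub]; exact P1.neg_mem ht
      · rw [sub_zero]; exact P1.zero_mem
    · intro h
      rw [hf, coeff_add, coeff_C_mul] at h
      have h1 : g1.coeff 0 ∈ P1 ^ 2 := by
        have := (P1 ^ 2).sub_mem h ((P1 ^ 2).mul_mem_right ((g2 - g1).coeff 0) hx)
        rwa [add_sub_cancel_right] at this
      rw [hg1, coeff_sub, coeff_X_pow, if_neg hp.ne_zero.symm, coeff_C_zero, zero_sub] at h1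
      exact ht2 ((neg_mem_iff).1 h1)
  refine ⟨f, P, u, hP, hfm, hfd, ?_, h2P, hPb, hu', hinj, ?_⟩
  · have h1 := hEis.irreducible hP1.isPrime hfm.isPrimitive (by rw [hfd]; exact hp.pos)
    exact (hfm.irreducible_iff_irreducible_map_fraction_map (K := K)).1 h1
  · have hxP : Ideal.Quotient.mk P x = 1 := by
      rw [← map_one (Ideal.Quotient.mk P), Ideal.Quotient.eq, ← hxy]
      have : x - (x + y) = -y := by ring
      rw [this]
      exact P.neg_mem hy
    have h3 : f.map (Ideal.Quotient.mk P) = g2.map (Ideal.Quotient.mk P) := by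
      have h4 : (g2 - g1).map (Ideal.Quotient.mk P) =
        g2.map (Ideal.Quotient.mk P) - g1.map (Ideal.Quotient.mk P) := Polynomial.map_sub _
      rw [hf, Polynomial.map_add, Polynomial.map_mul, Polynomial.map_C, hxP, C_1, one_mul, h4]
      ring
    rw [h3, hg2, Polynomial.map_mul, Polynomial.map_prod]
    simp only [Polynomial.map_sub, Polynomial.map_pow, Polynomial.map_X, Polynomial.map_C]

end Pool.Agent.J4.H31.SM
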