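import Mathlib

/-! A Frobenius element acting as a transposition. -/

set_option autoImplicit false

open Polynomial Finset
open scoped Classical

namespace Pool.Agent.J4.H31.SM

theorem prod_X_sub_C_card (k : Type) [Field k] [Fintype k] :
    ∏ a : k, ((X : k[X]) - C a) = X ^ Fintype.card k - X := by
  have hroots := FiniteField.roots_X_pow_card_sub_X k
  have hmonic : ((X : k[X]) ^ Fintype.card k - X).Monic := by
    apply Polynomial.monic_X_pow_sub
    rw [degree_X]
    exact_mod_cast Fintype.one_lt_card
  have hcard : Multiset.card ((X : k[X]) ^ Fintype.card k - X).roots =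
      ((X : k[X]) ^ Fintype.card k - X).natDegree := by
    rw [hroots, FiniteField.X_pow_card_sub_X_natDegree_eq k Fintype.one_lt_card]
    rfl
  have h := Polynomial.prod_multiset_X_sub_C_of_monic_of_roots_card_eq hmonic hcard
  rw [hroots] at h
  exact h

/-- If a monic polynomial over a finite field `k` of odd characteristic is the product of distinct
linear factors and one irreducible quadratic, the Frobenius acts on its roots as a transposition. -/
theorem frob_swap {p : ℕ} {k κ : Type} [Field k] [Finite k] [Field κ] [Algebra k κ] (hp : 2 ≤ p)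
    (hk2 : (2 : k) ≠ 0) (u : k) (hu : ¬ IsSquare u) (c : Fin (p - 2) → k) (hc : Function.Injective c)
    (r : Fin p → κ)
    (hr : ∏ i, (X - C (r i)) = (((X : k[X]) ^ 2 - C u) * ∏ i, (X - C (c i))).map (algebraMap k κ))
    (π : Equiv.Perm (Fin p)) (hπ : ∀ i, r (π i) = r i ^ Nat.card k) : π.IsSwap := by
  have hu0 : u ≠ 0 := by
    rintro rfl
    exact hu ⟨0, by simp⟩
  have hirr : Irreducible ((X : k[X]) ^ 2 - C u) := by
    have hdeg : ((X : k[X]) ^ 2 - C u).natDegree = 2 := natDegree_X_pow_sub_C
    rw [Polynomial.irreducible_iff_roots_eq_zero_of_degree_le_three (by rw [hdeg]) (by rw [hdeg]; norm_num)]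
    rw [Multiset.eq_zero_iff_forall_notMem]
    intro x hx
    rw [Polynomial.mem_roots'] at hx
    have h1 := hx.2
    simp only [IsRoot.def, eval_sub, eval_pow, eval_X, eval_C] at h1
    exact hu ⟨x, by linear_combination -h1⟩
  have hsep2 : ((X : k[X]) ^ 2 - C u).Separable := by
    refine Polynomial.separable_X_pow_sub_C u ?_ hu0
    exact_mod_cast hk2
  have hsepc : (∏ i, ((X : k[X]) - C (c i))).Separable := separable_prod_X_sub_C_iff.2 hc
  have hcop : ∀ x : k, ¬ ((X : k[X]) ^ 2 - C u) ∣ (X - C x) := by
    intro x hx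
    have h1 := Polynomial.natDegree_le_of_dvd hx (X_sub_C_ne_zero x)
    rw [natDegree_X_sub_C, natDegree_X_pow_sub_C] at h1
    omega
  have hsep : (((X : k[X]) ^ 2 - C u) * ∏ i, (X - C (c i))).Separable := by
    refine hsep2.mul hsepc ?_
    refine IsCoprime.prod_right fun i _ => ?_
    exact (hirr.coprime_iff_not_dvd).2 (hcop _)
  have hrinj : Function.Injective r := by
    rw [← separable_prod_X_sub_C_iff, hr]
    exact hsep.map
  have hcr : ∀ i, ∃ j, r j = algebraMap k κ (c i) := by
    intro i
    have h1 : (∏ i, (X - C (r i))).eval (algebraMap k κ (c i)) = 0 := by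
      rw [hr, Polynomial.eval_map_algebraMap, map_mul, map_prod, Finset.prod_eq_zero (mem_univ i), mul_zero]
      simp
    rw [Polynomial.eval_prod, Finset.prod_eq_zero_iff] at h1
    obtain ⟨j, -, hj⟩ := h1
    refine ⟨j, ?_⟩
    simp only [eval_sub, eval_X, eval_C] at hj
    linear_combination -hj
  choose j hj using hcr
  have := Fintype.ofFinite k
  have hjinj : Function.Injective j := by
    intro a b hab
    refine hc ((algebraMap k κ).injective ?_)
    rw [← hj, ← hj, hab]
  have hfix : ∀ i, π (j i) = j i := by
    intro i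
    apply hrinj
    rw [hπ, hj, ← map_pow]
    congr 1
    rw [Nat.card_eq_fintype_card, FiniteField.pow_card]
  have hsupp : π.support.card ≤ 2 := by
    have h1 : π.support ⊆ (univ.image j)ᶜ := by
      intro x hx
      rw [mem_compl, mem_image]
      rintro ⟨i, -, rfl⟩
      rw [Equiv.Perm.mem_support] at hx
      exact hx (hfix i)
    refine (card_le_card h1).trans ?_
    rw [card_compl, card_image_of_injective _ hjinj, card_univ, Fintype.card_fin, Fintype.card_fin]
    omega
  have hne : π ≠ 1 := by
    rintro rfl
    -- all `r i` come from `k`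
    have h1 : ∀ i, ∃ s : k, algebraMap k κ s = r i := by
      intro i
      have h2 : r i ^ Nat.card k - r i = 0 := by
        rw [← hπ i]; simp
      have h3 := prod_X_sub_C_card k
      have h4 := congrArg (fun f : k[X] => (f.map (algebraMap k κ)).eval (r i)) h3
      simp only [Polynomial.map_prod, Polynomial.map_sub, Polynomial.map_pow, Polynomial.map_X,
        Polynomial.map_C, eval_prod, eval_sub, eval_pow, eval_X, eval_C] at h4
      rw [Nat.card_eq_fintype_card] at h2
      rw [h2, Finset.prod_eq_zero_iff] at h4
      obtain ⟨s, -, hs⟩ := h4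
      exact ⟨s, by linear_combination -hs⟩
    choose s hs using h1
    have h5 : (∏ i, ((X : k[X]) - C (s i))) = ((X : k[X]) ^ 2 - C u) * ∏ i, (X - C (c i)) := by
      apply Polynomial.map_injective (algebraMap k κ) (algebraMap k κ).injective
      rw [← hr, Polynomial.map_prod]
      refine Finset.prod_congr rfl fun i _ => ?_
      rw [Polynomial.map_sub, Polynomial.map_X, Polynomial.map_C, hs]
    have h6 : ((X : k[X]) ^ 2 - C u) ∣ ∏ i, ((X : k[X]) - C (s i)) := h5 ▸ dvd_mul_right _ _
    rw [Prime.dvd_finsetProd_iff hirr.prime] at h6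
    obtain ⟨i, -, hi⟩ := h6
    exact hcop _ hi
  have h0 : π.support.card ≠ 0 := by
    rw [Ne, Finset.card_eq_zero, Equiv.Perm.support_eq_empty_iff]
    exact hne
  have h1 : π.support.card ≠ 1 := Equiv.Perm.card_support_ne_one π
  exact Equiv.Perm.card_support_eq_two.1 (by omega)

end Pool.Agent.J4.H31.SM
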