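import Mathlib
import Pool.Agent.J4.H31.SM.Frob
import Pool.Agent.J4.H31.SM.Crt

/-! Extensions of a number field with full symmetric Galois group of prime degree. -/

set_option autoImplicit false

open Polynomial Finset NumberField
open scoped Classical

namespace Pool.Agent.J4.H31.SM

variable {K : Type} [Field K] [NumberField K]

/-- the roots -/
theorem exists_roots {p : ℕ} (F : K[X]) (L : Type) [Field L] [Algebra K L]
    (hirr : Irreducible F) (hm : F.Monic) (hd : F.natDegree = p)
    (hs : (F.map (algebraMap K L)).Splits) :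
    ∃ r : Fin p → L, Function.Injective r ∧ F.map (algebraMap K L) = ∏ i, (X - C (r i)) := by
  have hsep : F.Separable := hirr.separable
  have hsepL : (F.map (algebraMap K L)).Separable := hsep.map
  have hmL : (F.map (algebraMap K L)).Monic := hm.map _
  have hcard : Multiset.card (F.map (algebraMap K L)).roots = (F.map (algebraMap K L)).natDegree :=
    (splits_iff_card_roots.1 hs)
  have hprod := prod_multiset_X_sub_C_of_monic_of_roots_card_eq hmL hcard
  have hnod : (F.map (algebraMap K L)).roots.Nodup := nodup_roots hsepL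
  set s : Finset L := ⟨(F.map (algebraMap K L)).roots, hnod⟩ with hs'
  have hscard : s.card = p := by
    have : s.card = Multiset.card (F.map (algebraMap K L)).roots := rfl
    rw [this, hcard, natDegree_map, hd]
  have e : Fin p ≃ s := (s.equivFinOfCardEq hscard).symm
  refine ⟨fun i => (e i).1, fun i j h => e.injective (Subtype.ext h), ?_⟩
  rw [← hprod]
  have h1 : (Multiset.map (fun a => X - C a) (F.map (algebraMap K L)).roots).prod = ∏ a ∈ s, (X - C a) := rfl
  rw [h1, ← Finset.prod_coe_sort s (fun a => X - C a)]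
  exact (Equiv.prod_comp e (fun a : s => X - C a.1)).symm

omit [NumberField K] in
/-- The permutation of the roots induced by an automorphism. -/
theorem exists_perm {p : ℕ} (F : K[X]) (L : Type) [Field L] [Algebra K L] (r : Fin p → L)
    (hr : Function.Injective r) (hF : F.map (algebraMap K L) = ∏ i, (X - C (r i))) (σ : L ≃ₐ[K] L) :
    ∃ π : Equiv.Perm (Fin p), ∀ t, σ (r t) = r (π t) := by
  have h1 : ∀ t, ∃ t', σ (r t) = r t' := by
    intro t
    have h2 : aeval (σ (r t)) F = 0 := by
      rw [aeval_algEquiv, AlgHom.comp_apply]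
      have h3 : aeval (r t) F = 0 := by
        rw [← Polynomial.eval_map_algebraMap, hF, eval_prod]
        exact Finset.prod_eq_zero (mem_univ t) (by simp)
      rw [h3]
      simp
    rw [← Polynomial.eval_map_algebraMap, hF, eval_prod, Finset.prod_eq_zero_iff] at h2
    obtain ⟨t', -, h3⟩ := h2
    refine ⟨t', ?_⟩
    simp only [eval_sub, eval_X, eval_C] at h3
    exact sub_eq_zero.1 h3
  choose g hg using h1
  have hginj : Function.Injective g := by
    intro a b hab
    apply hr
    apply σ.injective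
    rw [hg, hg, hab]
  exact ⟨Equiv.ofBijective g (Finite.injective_iff_bijective.1 hginj), hg⟩

theorem sym_aux (L : Type) [Field L] [NumberField L] [Algebra K L] [IsGalois K L]
    {p : ℕ} (hp : p.Prime) (hp2 : 2 < p) (f : (𝓞 K)[X]) (P : Ideal (𝓞 K)) (u : 𝓞 K)
    (hP : P.IsMaximal) (hfm : f.Monic) (hfd : f.natDegree = p)
    (hirr : Irreducible (f.map (algebraMap (𝓞 K) K))) (h2P : (2 : 𝓞 K) ∉ P) (hPb : P ≠ ⊥)
    (hu : ¬ IsSquare (Ideal.Quotient.mk P u))
    (hinj : Function.Injective (fun i : Fin (p - 2) => Ideal.Quotient.mk P ((i : ℕ) : 𝓞 K)))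
    (hfP : f.map (Ideal.Quotient.mk P) = (X ^ 2 - C (Ideal.Quotient.mk P u)) *
        ∏ i : Fin (p - 2), (X - C (Ideal.Quotient.mk P ((i : ℕ) : 𝓞 K))))
    (hs : ((f.map (algebraMap (𝓞 K) K)).map (algebraMap K L)).Splits) :
    ∃ r : Fin p → L, Function.Injective r ∧
      ∀ π : Equiv.Perm (Fin p), ∃ σ : L ≃ₐ[K] L, ∀ t, σ (r t) = r (π t) := by
  have hFm : (f.map (algebraMap (𝓞 K) K)).Monic := hfm.map _
  have hFd : (f.map (algebraMap (𝓞 K) K)).natDegree = p := by rw [hfm.natDegree_map, hfd]
  obtain ⟨r, hr, hrF⟩ := exists_roots (f.map (algebraMap (𝓞 K) K)) L hirr hFm hFd hs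
  refine ⟨r, hr, ?_⟩
  -- the group of permutations
  let H : Subgroup (Equiv.Perm (Fin p)) :=
    { carrier := {π | ∃ σ : L ≃ₐ[K] L, ∀ t, σ (r t) = r (π t)}
      mul_mem' := by
        rintro a b ⟨σ, hσ⟩ ⟨τ, hτ⟩
        exact ⟨σ * τ, fun t => by rw [AlgEquiv.mul_apply, hτ, hσ]; rfl⟩
      one_mem' := ⟨1, fun t => rfl⟩
      inv_mem' := by
        rintro a ⟨σ, hσ⟩
        refine ⟨σ⁻¹, fun t => ?_⟩
        apply σ.injective
        rw [hσ]
        show σ (σ.symm (r t)) = r (a (a.symm t))
        rw [AlgEquiv.apply_symm_apply, Equiv.apply_symm_apply] }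
  suffices hH : H = ⊤ by
    intro π
    have : π ∈ H := by rw [hH]; trivial
    exact this
  -- transitivity
  have htrans : ∀ s t : Fin p, ∃ π ∈ H, π s = t := by
    intro s t
    have hmin : ∀ s, minpoly K (r s) = f.map (algebraMap (𝓞 K) K) := by
      intro s
      refine (minpoly.eq_of_irreducible_of_monic hirr ?_ hFm).symm
      rw [← Polynomial.eval_map_algebraMap, hrF, eval_prod]
      exact Finset.prod_eq_zero (mem_univ s) (by simp)
    have h1 : IsConjRoot K (r t) (r s) := by
      rw [IsConjRoot, hmin, hmin]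
    obtain ⟨σ, hσ⟩ := isConjRoot_iff_exists_algEquiv.1 h1
    obtain ⟨π, hπ⟩ := exists_perm _ L r hr hrF σ
    refine ⟨π, ⟨σ, hπ⟩, hr ?_⟩
    rw [← hπ, hσ]
  have hcard : Fintype.card (Fin p) ∣ Fintype.card H := by
    have h0 : 0 < p := hp.pos
    set b : Fin p := ⟨0, h0⟩ with hb
    have horb : MulAction.orbit H b = Set.univ := by
      rw [Set.eq_univ_iff_forall]
      intro t
      obtain ⟨π, hπ, h⟩ := htrans b t
      exact ⟨⟨π, hπ⟩, h⟩
    have h1 := MulAction.card_orbit_mul_card_stabilizer_eq_card_group H b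
    refine ⟨Fintype.card (MulAction.stabilizer H b), ?_⟩
    rw [← h1]
    congr 1
    rw [← Nat.card_eq_fintype_card, ← Nat.card_eq_fintype_card, horb, Nat.card_coe_set_eq, Set.ncard_univ]
  -- the Frobenius element
  have hswap : ∃ π ∈ H, π.IsSwap := by
    have : P.IsMaximal := hP
    obtain ⟨Q, hQ, hQP⟩ := Ideal.exists_maximal_ideal_liesOver_of_isIntegral (S := 𝓞 L) P
    have hQu : Q.under (𝓞 K) = P := hQP.over.symm
    have hQb : Q ≠ ⊥ := by
      rintro rfl
      apply hPb
      rw [← hQu]
      rw [Ideal.under_bot]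
    have : Q.IsPrime := hQ.isPrime
    have : Finite (𝓞 L ⧸ Q) := Ideal.finiteQuotientOfFreeOfNeBot Q hQb
    obtain ⟨σ, hσ⟩ := IsArithFrobAt.exists_of_isInvariant (𝓞 K) (L ≃ₐ[K] L) Q
    obtain ⟨π, hπ⟩ := exists_perm _ L r hr hrF σ
    refine ⟨π, ⟨σ, hπ⟩, ?_⟩
    -- integrality of the roots
    have hint : ∀ t, IsIntegral ℤ (r t) := by
      intro t
      have h1 : IsIntegral (𝓞 K) (r t) := by
        refine ⟨f, hfm, ?_⟩
        have h2 : (Polynomial.map (algebraMap K L) (f.map (algebraMap (𝓞 K) K))).eval (r t) = 0 := by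
          rw [hrF, eval_prod]
          exact Finset.prod_eq_zero (mem_univ t) (by simp)
        rw [Polynomial.map_map, ← IsScalarTower.algebraMap_eq, eval_map] at h2
        exact h2
      exact isIntegral_trans (R := ℤ) (A := 𝓞 K) (r t) h1
    set R : Fin p → 𝓞 L := fun t => ⟨r t, hint t⟩ with hR
    have hRr : ∀ t, (R t : L) = r t := fun t => rfl
    have hRf : f.map (algebraMap (𝓞 K) (𝓞 L)) = ∏ i, (X - C (R i)) := by
      apply Polynomial.map_injective (algebraMap (𝓞 L) L) (FaithfulSMul.algebraMap_injective _ _)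
      rw [Polynomial.map_map, ← IsScalarTower.algebraMap_eq, Polynomial.map_prod]
      rw [Polynomial.map_map, ← IsScalarTower.algebraMap_eq] at hrF
      rw [hrF]
      refine Finset.prod_congr rfl fun i _ => ?_
      rw [Polynomial.map_sub, Polynomial.map_X, Polynomial.map_C]
      rfl
    have hRσ : ∀ t, σ • R t = R (π t) := by
      intro t
      apply RingOfIntegers.ext
      rw [hRr, ← hπ t]
      rfl
    let _ : Field (𝓞 K ⧸ P) := Ideal.Quotient.field P
    let _ : Field (𝓞 L ⧸ Q) := Ideal.Quotient.field Q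
    have : Finite (𝓞 K ⧸ P) := Ideal.finiteQuotientOfFreeOfNeBot P hPb
    refine frob_swap (k := 𝓞 K ⧸ P) (κ := 𝓞 L ⧸ Q) hp2.le ?_ (Ideal.Quotient.mk P u) hu
      (fun i => Ideal.Quotient.mk P ((i : ℕ) : 𝓞 K)) hinj (fun t => Ideal.Quotient.mk Q (R t)) ?_ π ?_
    · intro h
      apply h2P
      rw [← Ideal.Quotient.eq_zero_iff_mem, map_ofNat]
      exact h
    · rw [← hfP, Polynomial.map_map]
      have h3 := congrArg (Polynomial.map (Ideal.Quotient.mk Q)) hRf
      rw [Polynomial.map_map, Polynomial.map_prod] at h3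
      simp only [Polynomial.map_sub, Polynomial.map_X, Polynomial.map_C] at h3
      rw [← h3]
      rfl
    · intro t
      have h4 := hσ (R t)
      rw [← hQu, ← map_pow, Ideal.Quotient.eq, ← hRσ]
      exact h4
  obtain ⟨π, hπH, hπ⟩ := hswap
  exact Equiv.Perm.subgroup_eq_top_of_swap_mem (by rwa [Fintype.card_fin]) hcard hπH hπ

/-- A number field with Galois group acting as the full symmetric group on a set of roots. -/
theorem exists_sym {p : ℕ} (hp : p.Prime) (hp2 : 2 < p) :
    ∃ (L : Type) (_ : Field L) (_ : NumberField L) (_ : Algebra K L) (r : Fin p → L),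
      Function.Injective r ∧ ∀ π : Equiv.Perm (Fin p), ∃ σ : L ≃ₐ[K] L, ∀ t, σ (r t) = r (π t) := by
  obtain ⟨f, P, u, hP, hfm, hfd, hirr, h2P, hPb, hu, hinj, hfP⟩ := exists_poly (K := K) p hp hp2
  have : NumberField (f.map (algebraMap (𝓞 K) K)).SplittingField :=
    NumberField.of_module_finite K (f.map (algebraMap (𝓞 K) K)).SplittingField
  have hGal : IsGalois K (f.map (algebraMap (𝓞 K) K)).SplittingField :=
    IsGalois.of_separable_splitting_field hirr.separable
  exact ⟨(f.map (algebraMap (𝓞 K) K)).SplittingField, inferInstance, inferInstance, inferInstance,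
    sym_aux _ hp hp2 f P u hP hfm hfd hirr h2P hPb hu hinj hfP (SplittingField.splits _)⟩

/-- Linearly independent elements of an algebraic closure permuted arbitrarily by the Galois group. -/
theorem exists_sn {p : ℕ} (hp : p.Prime) (hp2 : 2 < p) :
    ∃ θ : Fin p → AlgebraicClosure K, LinearIndependent K θ ∧
      ∀ π : Equiv.Perm (Fin p), ∃ τ : AlgebraicClosure K ≃ₐ[K] AlgebraicClosure K,
        ∀ t, τ (θ t) = θ (π t) := by
  obtain ⟨L, _, _, _, r, hr, hrπ⟩ := exists_sym (K := K) hp hp2
  have : Algebra.IsAlgebraic K L := by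
    have : Module.Finite K L := Module.Finite.of_restrictScalars_finite ℚ K L
    infer_instance
  let j : L →ₐ[K] AlgebraicClosure K := IsAlgClosed.lift
  have hj : ∀ π : Equiv.Perm (Fin p), ∃ τ : AlgebraicClosure K ≃ₐ[K] AlgebraicClosure K,
        ∀ t, τ (j (r t)) = j (r (π t)) := by
    intro π
    obtain ⟨σ, hσ⟩ := hrπ π
    let _ : Algebra L (AlgebraicClosure K) := j.toRingHom.toAlgebra
    have : IsScalarTower K L (AlgebraicClosure K) :=
      IsScalarTower.of_algebraMap_eq fun x => (j.commutes x).symm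
    refine ⟨σ.liftNormal (AlgebraicClosure K), fun t => ?_⟩
    have h1 := AlgEquiv.liftNormal_commutes σ (AlgebraicClosure K) (r t)
    rw [← hσ t]
    exact h1
  -- a shift
  obtain ⟨c, hc⟩ : ∃ c : K, ∑ t, (j (r t) + algebraMap K (AlgebraicClosure K) c) ≠ 0 := by
    by_cases h : ∑ t, j (r t) = 0
    · refine ⟨1, ?_⟩
      rw [Finset.sum_add_distrib, h]
      simp only [map_one, sum_const, card_univ, Fintype.card_fin, nsmul_eq_mul, mul_one, zero_add, ne_eq,
        Nat.cast_eq_zero]
      exact hp.ne_zero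
    · exact ⟨0, by simpa using h⟩
  set θ : Fin p → AlgebraicClosure K := fun t => j (r t) + algebraMap K (AlgebraicClosure K) c with hθ
  have hθinj : Function.Injective θ := by
    intro a b hab
    apply hr
    apply j.injective
    simpa [hθ] using hab
  have hθπ : ∀ π : Equiv.Perm (Fin p), ∃ τ : AlgebraicClosure K ≃ₐ[K] AlgebraicClosure K,
        ∀ t, τ (θ t) = θ (π t) := by
    intro π
    obtain ⟨τ, hτ⟩ := hj π
    exact ⟨τ, fun t => by simp only [hθ, map_add, hτ, AlgEquiv.commutes]⟩
  refine ⟨θ, ?_, hθπ⟩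
  rw [Fintype.linearIndependent_iff]
  intro g hg
  have hgeq : ∀ s t, g s = g t := by
    intro s t
    by_cases hst : s = t
    · rw [hst]
    obtain ⟨τ, hτ⟩ := hθπ (Equiv.swap s t)
    have h1 : ∑ i, g i • θ (Equiv.swap s t i) = 0 := by
      have h2 := congrArg τ hg
      rw [map_sum, map_zero] at h2
      rw [← h2]
      refine Finset.sum_congr rfl fun i _ => ?_
      rw [Algebra.smul_def, Algebra.smul_def, map_mul, AlgEquiv.commutes, hτ]
    have h2 : ∑ i, g i • (θ i - θ (Equiv.swap s t i)) = 0 := by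
      simp only [smul_sub, Finset.sum_sub_distrib, h1, hg, sub_zero]
    rw [← Finset.add_sum_erase univ _ (mem_univ s), ← Finset.add_sum_erase (univ.erase s) _ (mem_erase.2 ⟨Ne.symm hst, mem_univ t⟩),
      Finset.sum_eq_zero, add_zero, Equiv.swap_apply_left, Equiv.swap_apply_right] at h2
    · have h3 : (g s - g t) • (θ s - θ t) = 0 := by
        rw [← h2]
        module
      rcases smul_eq_zero.1 h3 with h4 | h4
      · exact sub_eq_zero.1 h4
      · exact absurd (hθinj (sub_eq_zero.1 h4)) hst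
    · intro i hi
      rw [mem_erase, mem_erase] at hi
      rw [Equiv.swap_apply_of_ne_of_ne hi.2.1 hi.1, sub_self, smul_zero]
  intro s
  have h5 : g s • ∑ t, θ t = 0 := by
    rw [Finset.smul_sum, ← hg]
    exact Finset.sum_congr rfl fun i _ => by rw [hgeq s i]
  exact (smul_eq_zero.1 h5).resolve_right hc

end Pool.Agent.J4.H31.SM
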