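import Mathlib
import Pool.Agent.J4.H31.SM.Bal
import Pool.Agent.J4.H31.SM.Gal

/-! The strong absolute value criteria give a Smyth tuple. -/

set_option autoImplicit false

open Finset NumberField IsDedekindDomain
open scoped Classical

namespace Pool.Agent.J4.H31.SM

variable {K : Type} [Field K] [NumberField K]

theorem smyth_nonzero {ι : Type} [Fintype ι] [Nonempty ι] (a : ι → 𝓞 K) (ha : ∀ i, a i ≠ 0)
    (hstrict : ∀ v : InfinitePlace K, ∀ i, v (a i : K) < ∑ j ∈ univ.erase i, v (a j : K))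
    (hfin : ∀ v : HeightOneSpectrum (𝓞 K), ∀ i, ∃ j, j ≠ i ∧ v.valuation K (a i : K) ≤ v.valuation K (a j : K)) :
    ∃ α : ι → AlgebraicClosure K, (∀ i, α i ≠ 0) ∧ (∀ i j, minpoly K (α i) = minpoly K (α j)) ∧
        ∑ i, algebraMap K (AlgebraicClosure K) (a i : K) * α i = 0 := by
  have hne : ∀ i : ι, ∃ j, j ≠ i := by
    intro i
    by_contra hcon
    push Not at hcon
    have h1 := hstrict (Classical.arbitrary _) i
    rw [Finset.sum_eq_zero] at h1
    · exact absurd h1 (not_lt.2 (apply_nonneg _ _))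
    · intro j hj
      exact absurd (hcon j) (mem_erase.1 hj).1
  obtain ⟨T, _, y, π, ⟨t0, ht0⟩, hy⟩ := exists_perms a ha hstrict hfin hne
  obtain ⟨p, hpT, hp⟩ := Nat.exists_infinite_primes (Fintype.card T + 3)
  have hcard : Fintype.card T ≤ Fintype.card (Fin p) := by
    rw [Fintype.card_fin]; omega
  obtain ⟨e⟩ := Function.Embedding.nonempty_of_card_le hcard
  set Y : Fin p → 𝓞 K := Function.extend e y 0 with hY
  have hYe : ∀ t, Y (e t) = y t := fun t => e.injective.extend_apply _ _ _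
  have hYn : ∀ s, s ∉ Set.range e → Y s = 0 := fun s hs => by
    rw [hY, Function.extend_apply' _ _ _ hs]; rfl
  set Q : ι → Equiv.Perm (Fin p) := fun i => (π i).viaFintypeEmbedding e with hQ
  have hQsum : ∀ s, ∑ i, a i * Y (Q i s) = 0 := by
    intro s
    by_cases hs : s ∈ Set.range e
    · obtain ⟨t, rfl⟩ := hs
      rw [← hy t]
      refine Finset.sum_congr rfl fun i _ => ?_
      rw [hQ]
      simp only
      rw [Equiv.Perm.viaFintypeEmbedding_apply_image, hYe]
    · refine Finset.sum_eq_zero fun i _ => ?_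
      rw [hQ]
      simp only
      rw [Equiv.Perm.viaFintypeEmbedding_apply_notMem_range _ _ hs, hYn s hs, mul_zero]
  obtain ⟨θ, hθ, hτ⟩ := exists_sn (K := K) hp (by omega)
  choose τ hτ using fun i => hτ (Q i)⁻¹
  set β : AlgebraicClosure K := ∑ t, (Y t : K) • θ t with hβ
  have hβ0 : β ≠ 0 := by
    intro h
    have h1 := Fintype.linearIndependent_iff.1 hθ (fun t => (Y t : K)) h (e t0)
    rw [hYe] at h1
    exact ht0 (by exact_mod_cast h1)
  have hτβ : ∀ i, τ i β = ∑ s, (Y (Q i s) : K) • θ s := by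
    intro i
    rw [hβ, map_sum, ← Equiv.sum_comp (Q i)]
    refine Finset.sum_congr rfl fun s _ => ?_
    rw [Algebra.smul_def, map_mul, AlgEquiv.commutes, hτ, Algebra.smul_def]
    congr 2
    exact Equiv.symm_apply_apply (Q i) s
  refine ⟨fun i => τ i β, fun i => (map_ne_zero (τ i)).2 hβ0, fun i j => ?_, ?_⟩
  · rw [minpoly.algEquiv_eq, minpoly.algEquiv_eq]
  · simp only [hτβ]
    have h1 : ∀ i, algebraMap K (AlgebraicClosure K) (a i : K) * ∑ s, (Y (Q i s) : K) • θ s =
        ∑ s, ((a i * Y (Q i s) : 𝓞 K) : K) • θ s := by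
      intro i
      rw [Finset.mul_sum]
      refine Finset.sum_congr rfl fun s _ => ?_
      rw [← Algebra.smul_def, smul_smul]
      simp
    simp only [h1]
    rw [Finset.sum_comm]
    refine Finset.sum_eq_zero fun s _ => ?_
    rw [← Finset.sum_smul]
    have h2 := hQsum s
    have h3 : ∑ i, ((a i * Y (Q i s) : 𝓞 K) : K) = 0 := by
      have := congrArg (fun z : 𝓞 K => (z : K)) h2
      simpa using this
    rw [h3, zero_smul]

omit [NumberField K] in
theorem sum_nonzero {n : ℕ} {M : Type} [AddCommMonoid M] (a : Fin n → 𝓞 K) (g : Fin n → M)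
    (hg : ∀ i, a i = 0 → g i = 0) : ∑ i : {i // a i ≠ 0}, g i.1 = ∑ i, g i := by
  rw [← Finset.sum_subtype (univ.filter (fun i => a i ≠ 0)) (by simp) g]
  refine Finset.sum_subset (subset_univ _) fun i _ hi => hg i ?_
  by_contra h
  exact hi (by simp [h])

theorem smyth_of_strong {n : ℕ} (a : Fin n → 𝓞 K)
    (hstrict : ∀ v : InfinitePlace K, ∀ i, v (a i : K) < ∑ j ∈ univ.erase i, v (a j : K))
    (hfin : ∀ v : HeightOneSpectrum (𝓞 K), ∀ i, ∃ j, j ≠ i ∧ v.valuation K (a i : K) ≤ v.valuation K (a j : K)) :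
    ∃ α : Fin n → AlgebraicClosure K, (∀ i, α i ≠ 0) ∧ (∀ i j, minpoly K (α i) = minpoly K (α j)) ∧
        ∑ i, algebraMap K (AlgebraicClosure K) (a i : K) * α i = 0 := by
  rcases Nat.eq_zero_or_pos n with rfl | hn
  · exact ⟨fun i => i.elim0, fun i => i.elim0, fun i => i.elim0, by simp⟩
  have hI : Nonempty {i // a i ≠ 0} := by
    by_contra hcon
    rw [not_nonempty_iff, isEmpty_subtype] at hcon
    push Not at hcon
    have h1 := hstrict (Classical.arbitrary _) ⟨0, hn⟩
    simp [hcon] at h1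
  obtain ⟨α, h1, h2, h3⟩ := smyth_nonzero (ι := {i // a i ≠ 0}) (fun i => a i.1) (fun i => i.2)
    (by
      intro v i
      refine lt_of_lt_of_eq (hstrict v i.1) ?_
      have h5 : ∀ s : Finset {i // a i ≠ 0}, s = univ.erase i →
          ∑ j ∈ univ.erase i.1, v (a j : K) = ∑ j ∈ s, v (a j.1 : K) := by
        rintro s rfl
        rw [Finset.sum_erase_eq_sub (mem_univ _), Finset.sum_erase_eq_sub (mem_univ _),
          sum_nonzero a (fun j => v (a j : K)) (fun j hj => by simp [hj])]
      exact h5 _ (by ext x; simp))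
    (by
      intro v i
      obtain ⟨j, hj, hv⟩ := hfin v i.1
      have hj0 : a j ≠ 0 := by
        intro h
        rw [h] at hv
        simp only [map_zero] at hv
        have := le_antisymm hv zero_le
        rw [map_eq_zero] at this
        exact i.2 (by exact_mod_cast this)
      exact ⟨⟨j, hj0⟩, fun h => hj (congrArg Subtype.val h), hv⟩)
  obtain ⟨i0⟩ := hI
  refine ⟨fun i => if h : a i ≠ 0 then α ⟨i, h⟩ else α i0, fun i => ?_, fun i j => ?_, ?_⟩
  · dsimp only
    split_ifs <;> exact h1 _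
  · dsimp only
    split_ifs <;> exact h2 _ _
  · rw [← sum_nonzero a _ (fun i hi => by simp [hi]), ← h3]
    refine Finset.sum_congr rfl fun i _ => ?_
    dsimp only
    rw [dif_pos i.2]

end Pool.Agent.J4.H31.SM
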