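import Mathlib

/-! Necessary conditions for a Smyth tuple. -/

set_option autoImplicit false

open Finset NumberField IsDedekindDomain

namespace Pool.Agent.J4.H31.SM

/-- A valuation of a field extends (up to comparison) to every extension field. -/
theorem exists_ext {K L : Type} [Field K] [Field L] [Algebra K L] {Γ : Type}
    [LinearOrderedCommGroupWithZero Γ] (v : Valuation K Γ) :
    ∃ B : ValuationSubring L, ∀ x y : K,
      B.valuation (algebraMap K L x) ≤ B.valuation (algebraMap K L y) → v x ≤ v y := by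
  let A : Subring L := v.integer.map (algebraMap K L)
  have hA : ∀ z : L, z ∈ A ↔ ∃ x : K, v x ≤ 1 ∧ algebraMap K L x = z := by
    intro z
    rw [Subring.mem_map]
    rfl
  let I : Ideal A :=
    { carrier := {a | ∃ x : K, v x < 1 ∧ algebraMap K L x = a.1}
      add_mem' := by
        rintro a b ⟨x, hx, hxa⟩ ⟨y, hy, hyb⟩
        exact ⟨x + y, v.map_add_lt hx hy, by rw [map_add, hxa, hyb]; rfl⟩
      zero_mem' := ⟨0, by rw [map_zero]; exact zero_lt_one, by rw [map_zero]; rfl⟩
      smul_mem' := by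
        rintro c a ⟨x, hx, hxa⟩
        obtain ⟨y, hy, hyc⟩ := (hA c.1).1 c.2
        refine ⟨y * x, ?_, by rw [map_mul, hxa, hyc]; rfl⟩
        rw [map_mul]
        calc v y * v x ≤ 1 * v x := by gcongr
          _ < 1 := by rwa [one_mul] }
  have hI : I ≠ ⊤ := by
    intro h
    have h1 : (1 : A) ∈ I := by rw [h]; trivial
    obtain ⟨x, hx, hx1⟩ := h1
    have h2 : x = 1 := by
      apply (algebraMap K L).injective
      rw [hx1, map_one]; rfl
    rw [h2, map_one] at hx
    exact lt_irrefl _ hx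
  obtain ⟨B, hAB, hIB⟩ := Ideal.image_subset_nonunits_valuationSubring I hI
  refine ⟨B, fun x y hxy => ?_⟩
  by_contra hcon
  rw [not_le] at hcon
  have hx0 : x ≠ 0 := by
    rintro rfl
    rw [map_zero] at hcon
    exact not_lt_zero hcon
  have hvx : v x ≠ 0 := (v.ne_zero_iff).2 hx0
  have h1 : v (y / x) < 1 := by
    rw [map_div₀]
    exact (div_lt_one₀ (zero_lt_iff.2 hvx)).2 hcon
  have h2 : algebraMap K L (y / x) ∈ A := (hA _).2 ⟨y / x, h1.le, rfl⟩
  have h3 : algebraMap K L (y / x) ∈ B.nonunits :=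
    hIB ⟨⟨_, h2⟩, ⟨y / x, h1, rfl⟩, rfl⟩
  rw [ValuationSubring.mem_nonunits_iff, map_div₀, map_div₀] at h3
  have h4 : algebraMap K L x ≠ 0 := (map_ne_zero _).2 hx0
  have h5 : B.valuation (algebraMap K L x) ≠ 0 := (Valuation.ne_zero_iff _).2 h4
  rw [div_lt_one₀ (zero_lt_iff.2 h5)] at h3
  exact absurd h3 (not_lt.2 hxy)

/-- the finite part -/
theorem nec_fin {K L : Type} [Field K] [Field L] [Algebra K L] [Normal K L]
    {Γ : Type} [LinearOrderedCommGroupWithZero Γ] (v : Valuation K Γ) {n : ℕ} (a : Fin n → K) (α : Fin n → L)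
    (hα : ∀ i, α i ≠ 0) (hmin : ∀ i j, minpoly K (α i) = minpoly K (α j))
    (hsum : ∑ i, algebraMap K L (a i) * α i = 0) (i : Fin n) (hi : (univ.erase i).Nonempty) :
    ∃ j, j ≠ i ∧ v (a i) ≤ v (a j) := by
  obtain ⟨B, hB⟩ := exists_ext (L := L) v
  have hint : ∀ x : L, IsIntegral K x := fun x => (Algebra.IsAlgebraic.isAlgebraic x).isIntegral
  set S := (minpoly K (α i)).rootSet L with hS
  have hSfin : S.Finite := Polynomial.rootSet_finite _ _
  have hmem : ∀ (τ : L ≃ₐ[K] L) (j : Fin n), τ (α j) ∈ S := by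
    intro τ j
    rw [hS, Polynomial.mem_rootSet]
    refine ⟨minpoly.ne_zero (hint _), ?_⟩
    rw [hmin i j, Polynomial.aeval_algEquiv, AlgHom.comp_apply, minpoly.aeval]
    exact map_zero τ
  have hSne : S.Nonempty := ⟨_, hmem AlgEquiv.refl i⟩
  obtain ⟨s, hsS, hs⟩ := Set.exists_max_image S (fun x => B.valuation x) hSfin hSne
  obtain ⟨τ, hτ⟩ : ∃ τ : L ≃ₐ[K] L, τ (α i) = s := by
    apply IsConjRoot.exists_algEquiv
    rw [IsConjRoot]
    rw [hS, Polynomial.mem_rootSet] at hsS
    exact (minpoly.eq_of_irreducible_of_monic (minpoly.irreducible (hint _)) hsS.2 (minpoly.monic (hint _))).symm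
  have hs0 : s ≠ 0 := by
    rw [← hτ]
    exact (map_ne_zero τ).2 (hα i)
  have hsum' : ∑ j, algebraMap K L (a j) * τ (α j) = 0 := by
    have := congrArg τ hsum
    rw [map_sum, map_zero] at this
    rw [← this]
    exact Finset.sum_congr rfl fun j _ => by rw [map_mul, AlgEquiv.commutes]
  have h1 : algebraMap K L (a i) * s = - ∑ j ∈ univ.erase i, algebraMap K L (a j) * τ (α j) := by
    rw [← Finset.add_sum_erase univ _ (mem_univ i), hτ] at hsum'
    exact eq_neg_of_add_eq_zero_left hsum'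
  by_contra hcon
  push Not at hcon
  have hws : B.valuation s ≠ 0 := (Valuation.ne_zero_iff _).2 hs0
  have h2 : ∀ j ∈ univ.erase i, B.valuation (algebraMap K L (a j) * τ (α j)) <
      B.valuation (algebraMap K L (a i) * s) := by
    intro j hj
    rw [map_mul, map_mul]
    have h3 : B.valuation (algebraMap K L (a j)) < B.valuation (algebraMap K L (a i)) := by
      by_contra h4
      rw [not_lt] at h4
      exact absurd (hB _ _ h4) (not_le.2 (hcon j (mem_erase.1 hj).1))
    calc B.valuation (algebraMap K L (a j)) * B.valuation (τ (α j))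
        ≤ B.valuation (algebraMap K L (a j)) * B.valuation s := by
          gcongr
          exact hs _ (hmem τ j)
      _ < B.valuation (algebraMap K L (a i)) * B.valuation s :=
          mul_lt_mul_of_pos_right h3 (zero_lt_iff.2 hws)
  have h5 : B.valuation (∑ j ∈ univ.erase i, algebraMap K L (a j) * τ (α j)) <
      B.valuation (algebraMap K L (a i) * s) := by
    refine Valuation.map_sum_lt _ ?_ h2
    obtain ⟨j, hj⟩ := hi
    exact (lt_of_le_of_lt zero_le (h2 j hj)).ne'
  rw [h1, Valuation.map_neg] at h5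
  exact lt_irrefl _ h5

theorem tri {ι : Type} (s : Finset ι) (z : ι → ℂ) (c : ι → ℝ) (hz : ∀ j ∈ s, ‖z j‖ ≤ c j)
    (hsum : ∑ j ∈ s, z j = -1) (hc : ∑ j ∈ s, c j ≤ 1) : ∀ j ∈ s, z j = -(c j : ℂ) := by
  have h1 : ∀ j ∈ s, 0 ≤ (z j).re + c j := by
    intro j hj
    have := (Complex.abs_re_le_norm (z j)).trans (hz j hj)
    rw [abs_le] at this
    linarith [this.1]
  have h2 : ∑ j ∈ s, ((z j).re + c j) = 0 := by
    refine le_antisymm ?_ (Finset.sum_nonneg h1)
    rw [Finset.sum_add_distrib, ← Complex.re_sum, hsum]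
    simp only [Complex.neg_re, Complex.one_re]
    linarith
  rw [Finset.sum_eq_zero_iff_of_nonneg h1] at h2
  intro j hj
  have h3 := h2 j hj
  have h4 : (z j).re = - c j := by linarith
  have hc0 : 0 ≤ c j := (norm_nonneg _).trans (hz j hj)
  have h5 : (z j).im = 0 := by
    have h6 := hz j hj
    have h7 : ‖z j‖ ^ 2 ≤ c j ^ 2 := by
      exact pow_le_pow_left₀ (norm_nonneg _) h6 2
    rw [← Complex.normSq_eq_norm_sq, Complex.normSq_apply, h4] at h7
    nlinarith
  apply Complex.ext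
  · simp [h4]
  · simp [h5]

/-- the archimedean part -/
theorem nec_arch {K L : Type} [Field K] [Field L] [Algebra K L] [Normal K L] (Φ : L →+* ℂ)
    {n : ℕ} (a : Fin n → K) (α : Fin n → L)
    (hα : ∀ i, α i ≠ 0) (hmin : ∀ i j, minpoly K (α i) = minpoly K (α j))
    (hsum : ∑ i, algebraMap K L (a i) * α i = 0) (hne : ∃ i, a i ≠ 0) (i : Fin n)
    (hi : ∑ j ∈ univ.erase i, ‖Φ (algebraMap K L (a j))‖ ≤ ‖Φ (algebraMap K L (a i))‖) :
    ∃ ω : Fin n → L, (∀ i, ∃ m : ℕ, 0 < m ∧ ω i ^ m = 1) ∧ ∑ i, algebraMap K L (a i) * ω i = 0 := by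
  have hint : ∀ x : L, IsIntegral K x := fun x => (Algebra.IsAlgebraic.isAlgebraic x).isIntegral
  set f : K → L := fun x => algebraMap K L x with hf
  set S := (minpoly K (α i)).rootSet L with hS
  have hSfin : S.Finite := Polynomial.rootSet_finite _ _
  have hmem : ∀ (τ : L ≃ₐ[K] L) (j : Fin n), τ (α j) ∈ S := by
    intro τ j
    rw [hS, Polynomial.mem_rootSet]
    refine ⟨minpoly.ne_zero (hint _), ?_⟩
    rw [hmin i j, Polynomial.aeval_algEquiv, AlgHom.comp_apply, minpoly.aeval]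
    exact map_zero τ
  have hSne : S.Nonempty := ⟨_, hmem AlgEquiv.refl i⟩
  obtain ⟨s0, hs0S, hs0⟩ := Set.exists_max_image S (fun x => ‖Φ x‖) hSfin hSne
  set W := ‖Φ s0‖ with hW
  have hconj : ∀ s ∈ S, ∃ τ : L ≃ₐ[K] L, τ (α i) = s := by
    intro s hsS
    apply IsConjRoot.exists_algEquiv
    rw [IsConjRoot]
    rw [hS, Polynomial.mem_rootSet] at hsS
    exact (minpoly.eq_of_irreducible_of_monic (minpoly.irreducible (hint _)) hsS.2 (minpoly.monic (hint _))).symm
  have hs00 : s0 ≠ 0 := by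
    obtain ⟨τ, hτ⟩ := hconj s0 hs0S
    rw [← hτ]
    exact (map_ne_zero τ).2 (hα i)
  have hWpos : 0 < W := norm_pos_iff.2 ((map_ne_zero Φ).2 hs00)
  have hai : a i ≠ 0 := by
    intro h0
    obtain ⟨j, hj⟩ := hne
    have hji : j ≠ i := by
      rintro rfl
      exact hj h0
    rw [h0, map_zero, map_zero, norm_zero] at hi
    have h1 := Finset.single_le_sum (f := fun j => ‖Φ (algebraMap K L (a j))‖)
      (fun j _ => norm_nonneg _) (mem_erase.2 ⟨hji, mem_univ j⟩)
    have h2 : ‖Φ (algebraMap K L (a j))‖ = 0 := le_antisymm (h1.trans hi) (norm_nonneg _)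
    rw [norm_eq_zero, map_eq_zero, map_eq_zero] at h2
    exact hj h2
  have hΦi : Φ (algebraMap K L (a i)) ≠ 0 := (map_ne_zero Φ).2 ((map_ne_zero _).2 hai)
  have hni : 0 < ‖Φ (algebraMap K L (a i))‖ := norm_pos_iff.2 hΦi
  set c : Fin n → ℝ := fun j => ‖Φ (algebraMap K L (a j))‖ / ‖Φ (algebraMap K L (a i))‖ with hc
  -- the key claim
  have key : ∀ τ : L ≃ₐ[K] L, ‖Φ (τ (α i))‖ = W → ∀ j, j ≠ i →
      Φ (algebraMap K L (a j) * τ (α j)) = -(c j : ℂ) * Φ (algebraMap K L (a i) * τ (α i)) := by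
    intro τ hτW j hj
    have hΦτ : Φ (τ (α i)) ≠ 0 := (map_ne_zero Φ).2 ((map_ne_zero τ).2 (hα i))
    have hne0 : Φ (algebraMap K L (a i) * τ (α i)) ≠ 0 := by
      rw [map_mul]; exact mul_ne_zero hΦi hΦτ
    have h1 := tri (univ.erase i)
      (fun j => Φ (algebraMap K L (a j) * τ (α j)) / Φ (algebraMap K L (a i) * τ (α i))) c
      (by
        intro j _
        rw [norm_div, map_mul, map_mul, norm_mul, norm_mul, hτW, hc]
        have h2 : ‖Φ (τ (α j))‖ ≤ W := hs0 _ (hmem τ j)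
        rw [div_le_div_iff₀ (mul_pos hni hWpos) hni]
        calc ‖Φ (algebraMap K L (a j))‖ * ‖Φ (τ (α j))‖ * ‖Φ (algebraMap K L (a i))‖
            ≤ ‖Φ (algebraMap K L (a j))‖ * W * ‖Φ (algebraMap K L (a i))‖ := by gcongr
          _ = _ := by ring)
      (by
        rw [← Finset.sum_div, div_eq_iff hne0, ← map_sum]
        have h2 : ∑ j, algebraMap K L (a j) * τ (α j) = 0 := by
          have := congrArg τ hsum
          rw [map_sum, map_zero] at this
          rw [← this]
          exact Finset.sum_congr rfl fun j _ => by rw [map_mul, AlgEquiv.commutes]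
        rw [← Finset.add_sum_erase univ _ (mem_univ i)] at h2
        rw [eq_neg_of_add_eq_zero_right h2, map_neg]
        ring)
      (by
        rw [hc, ← Finset.sum_div, div_le_one hni]
        exact hi) j (mem_erase.2 ⟨hj, mem_univ j⟩)
    rw [div_eq_iff hne0] at h1
    exact h1
  -- the maximal conjugates
  set M : Set L := {s | s ∈ S ∧ ‖Φ s‖ = W} with hM
  have hMfin : M.Finite := hSfin.subset fun s hs => hs.1
  obtain ⟨τ0, hτ0⟩ := hconj s0 hs0S
  have hτ0W : ‖Φ (τ0 (α i))‖ = W := by rw [hτ0]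
  have hτ00 : τ0 (α i) ≠ 0 := (map_ne_zero τ0).2 (hα i)
  have huM : ∀ j, j ≠ i → a j ≠ 0 → ∀ s ∈ M, τ0 (α j) / τ0 (α i) * s ∈ M := by
    intro j hji haj s hs
    obtain ⟨τ, hτ⟩ := hconj s hs.1
    have hτW : ‖Φ (τ (α i))‖ = W := by rw [hτ]; exact hs.2
    have hτi0 : τ (α i) ≠ 0 := (map_ne_zero τ).2 (hα i)
    have h1 := key τ hτW j hji
    have h2 := key τ0 hτ0W j hji
    have hΦj : Φ (algebraMap K L (a j)) ≠ 0 := (map_ne_zero Φ).2 ((map_ne_zero _).2 haj)
    have h3 : τ0 (α j) / τ0 (α i) * s = τ (α j) := by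
      apply Φ.injective
      rw [← hτ, map_mul, map_div₀]
      have h4 : Φ (τ0 (α i)) ≠ 0 := (map_ne_zero Φ).2 hτ00
      rw [map_mul, map_mul] at h1 h2
      apply mul_left_cancel₀ hΦj
      rw [h1]
      field_simp
      linear_combination (Φ (τ (α i))) * h2
    rw [h3]
    refine ⟨hmem τ j, ?_⟩
    have h5 := congrArg norm h1
    rw [map_mul, map_mul, norm_mul, norm_mul, norm_mul, hτW, norm_neg, Complex.norm_real, hc] at h5
    simp only [Real.norm_eq_abs, abs_div, abs_norm] at h5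
    have h6 : 0 < ‖Φ (algebraMap K L (a j))‖ := norm_pos_iff.2 hΦj
    have h7 : ‖Φ (algebraMap K L (a j))‖ * ‖Φ (τ (α j))‖ = ‖Φ (algebraMap K L (a j))‖ * W := by
      rw [h5]
      field_simp
    exact mul_left_cancel₀ h6.ne' h7
  have hroot : ∀ j, a j ≠ 0 → ∃ m : ℕ, 0 < m ∧ (τ0 (α j) / τ0 (α i)) ^ m = 1 := by
    intro j haj
    by_cases hji : j = i
    · refine ⟨1, one_pos, ?_⟩
      rw [hji, div_self hτ00, one_pow]
    set u := τ0 (α j) / τ0 (α i) with hu
    have hu0 : u ≠ 0 := div_ne_zero ((map_ne_zero τ0).2 (hα j)) hτ00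
    have h1 : ∀ k : ℕ, u ^ k * s0 ∈ M := by
      intro k
      induction k with
      | zero => rw [pow_zero, one_mul]; exact ⟨hs0S, rfl⟩
      | succ k ih =>
        have := huM j hji haj _ ih
        rwa [← mul_assoc, ← pow_succ'] at this
    have hMf : Finite M := hMfin
    obtain ⟨k, l, hkl, hkl'⟩ := Finite.exists_ne_map_eq_of_infinite (fun k : ℕ => (⟨u ^ k * s0, h1 k⟩ : M))
    have h2 : u ^ k * s0 = u ^ l * s0 := congrArg Subtype.val hkl'
    have h3 : u ^ k = u ^ l := mul_right_cancel₀ hs00 h2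
    rcases lt_or_gt_of_ne hkl with h | h
    · refine ⟨l - k, by omega, ?_⟩
      apply mul_left_cancel₀ (pow_ne_zero k hu0)
      rw [← pow_add, mul_one, Nat.add_sub_cancel' h.le, h3]
    · refine ⟨k - l, by omega, ?_⟩
      apply mul_left_cancel₀ (pow_ne_zero l hu0)
      rw [← pow_add, mul_one, Nat.add_sub_cancel' h.le, h3]
  classical
  refine ⟨fun j => if a j = 0 then 1 else τ0 (α j) / τ0 (α i), fun j => ?_, ?_⟩
  · by_cases h : a j = 0
    · exact ⟨1, one_pos, by simp [h]⟩
    · simpa [h] using hroot j h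
  · have h1 : ∀ j, algebraMap K L (a j) * (if a j = 0 then 1 else τ0 (α j) / τ0 (α i)) =
        τ0 (algebraMap K L (a j) * α j) / τ0 (α i) := by
      intro j
      split_ifs with h
      · rw [h]; simp
      · rw [map_mul, AlgEquiv.commutes]; ring
    simp only [h1]
    rw [← Finset.sum_div, ← map_sum, hsum, map_zero, zero_div]

end Pool.Agent.J4.H31.SM
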