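import Mathlib
import Pool.Agent.J4.H31.SM.Crt

/-! A vanishing sum of roots of unity gives a Smyth tuple. -/

set_option autoImplicit false

open Finset NumberField Polynomial

namespace Pool.Agent.J4.H31.SM

variable {K : Type} [Field K] [NumberField K]

theorem exists_eisenstein (m : ℕ) (hm : 0 < m) :
    ∃ t : 𝓞 K, t ≠ 0 ∧ Irreducible ((X : K[X]) ^ m - C (t : K)) := by
  obtain ⟨P, hP, -, hPb⟩ := exists_max (K := K) 2 Nat.prime_two
  obtain ⟨t, ht, ht2⟩ := Ideal.exists_mem_pow_notMem_pow_succ P hPb hP.ne_top 1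
  rw [pow_one] at ht
  refine ⟨t, ?_, ?_⟩
  · rintro rfl
    exact ht2 (zero_mem _)
  have hmon : ((X : (𝓞 K)[X]) ^ m - C t).Monic := monic_X_pow_sub_C t hm.ne'
  have hdeg : ((X : (𝓞 K)[X]) ^ m - C t).natDegree = m := natDegree_X_pow_sub_C
  have hEis : ((X : (𝓞 K)[X]) ^ m - C t).IsEisensteinAt P := by
    refine ⟨?_, ?_, ?_⟩
    · rw [hmon.leadingCoeff]
      intro h
      exact hP.ne_top ((Ideal.eq_top_iff_one _).2 h)
    · intro n hn
      rw [hdeg] at hn
      rw [coeff_sub, coeff_X_pow, if_neg hn.ne, coeff_C]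
      split_ifs
      · rw [zero_sub]; exact P.neg_mem ht
      · rw [sub_zero]; exact P.zero_mem
    · intro h
      rw [coeff_sub, coeff_X_pow, if_neg hm.ne, coeff_C_zero, zero_sub] at h
      exact ht2 ((neg_mem_iff).1 h)
  have h1 := hEis.irreducible hP.isPrime hmon.isPrimitive (by rw [hdeg]; exact hm)
  have h2 := (hmon.irreducible_iff_irreducible_map_fraction_map (K := K)).1 h1
  rw [Polynomial.map_sub, Polynomial.map_pow, Polynomial.map_X, Polynomial.map_C] at h2
  exact h2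

theorem smyth_of_roots {n : ℕ} (a : Fin n → 𝓞 K) (ω : Fin n → AlgebraicClosure K)
    (hω : ∀ i, ∃ m : ℕ, 0 < m ∧ ω i ^ m = 1)
    (h : ∑ i, algebraMap K (AlgebraicClosure K) (a i : K) * ω i = 0) :
    ∃ α : Fin n → AlgebraicClosure K, (∀ i, α i ≠ 0) ∧ (∀ i j, minpoly K (α i) = minpoly K (α j)) ∧
        ∑ i, algebraMap K (AlgebraicClosure K) (a i : K) * α i = 0 := by
  choose m hm hωm using hω
  set M : ℕ := ∏ i, m i with hM
  have hM0 : 0 < M := Finset.prod_pos fun i _ => hm i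
  have hωM : ∀ i, ω i ^ M = 1 := by
    intro i
    rw [hM, ← Finset.mul_prod_erase univ _ (mem_univ i), pow_mul, hωm, one_pow]
  obtain ⟨t, ht0, hirr⟩ := exists_eisenstein (K := K) M hM0
  obtain ⟨γ, hγ⟩ := IsAlgClosed.exists_pow_nat_eq (algebraMap K (AlgebraicClosure K) (t : K)) hM0
  have hγ0 : γ ≠ 0 := by
    rintro rfl
    rw [zero_pow hM0.ne', eq_comm, map_eq_zero] at hγ
    exact ht0 (by exact_mod_cast hγ)
  have hω0 : ∀ i, ω i ≠ 0 := by
    intro i h0
    have := hωM i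
    rw [h0, zero_pow hM0.ne'] at this
    exact zero_ne_one this
  have hmin : ∀ i, minpoly K (ω i * γ) = (X : K[X]) ^ M - C (t : K) := by
    intro i
    refine (minpoly.eq_of_irreducible_of_monic hirr ?_ (monic_X_pow_sub_C _ hM0.ne')).symm
    rw [map_sub, map_pow, aeval_X, aeval_C, mul_pow, hωM, one_mul, hγ, sub_self]
  refine ⟨fun i => ω i * γ, fun i => mul_ne_zero (hω0 i) hγ0, fun i j => by rw [hmin, hmin], ?_⟩
  rw [← zero_mul γ, ← h, Finset.sum_mul]
  exact Finset.sum_congr rfl fun i _ => by ring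

end Pool.Agent.J4.H31.SM
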